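import Pool.Agent.Lib.MP_cff830_lc.AC0.Defs

/-!
# Inserting permutations on the hidden slots
-/

namespace Pool.Agent.Lib.MP_cff830_lc.AC0

open Finset

set_option linter.unusedSectionVars false

section

variable {V E σ : Type} [DecidableEq σ] {B : Base V E} {t : σ → Bool} {R : Finset σ}
  {l : Lam V σ} {μ : Lam V ↥R}

theorem emb_mem (x : ↥R × Bool) : (emb x).1 ∈ R := x.1.2

theorem emb_injective : Function.Injective (emb (R := R)) := by
  rintro ⟨⟨a, ha⟩, b⟩ ⟨⟨c, hc⟩, d⟩ h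
  simp only [emb, Prod.mk.injEq] at h
  simp [h.1, h.2]

theorem exists_emb {p : σ × Bool} (h : p.1 ∈ R) : ∃ x : ↥R × Bool, emb x = p :=
  ⟨(⟨p.1, h⟩, p.2), rfl⟩

theorem ins_emb (v : V) (x : ↥R × Bool) : ins R l μ v (emb x) = l v (emb (μ v x)) := by
  have h := Equiv.Perm.extendDomain_apply_image (μ v) (iso R) x
  simp only [ins, Equiv.Perm.mul_apply]
  exact congrArg (l v) h

theorem ins_out (v : V) {p : σ × Bool} (h : p.1 ∉ R) : ins R l μ v p = l v p := by
  have h' := Equiv.Perm.extendDomain_apply_not_subtype (μ v) (iso R) h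
  simp only [ins, Equiv.Perm.mul_apply]
  exact congrArg (l v) h'

theorem ins_inv_emb (v : V) (x : ↥R × Bool) :
    (ins R l μ v)⁻¹ (l v (emb x)) = emb ((μ v)⁻¹ x) := by
  rw [Equiv.Perm.inv_eq_iff_eq, ins_emb]
  simp

theorem ins_inv_out (v : V) {p : σ × Bool} (h : ((l v)⁻¹ p).1 ∉ R) :
    (ins R l μ v)⁻¹ p = (l v)⁻¹ p := by
  rw [Equiv.Perm.inv_eq_iff_eq, ins_out v h]
  simp

theorem ins_slot_mem (v : V) (p : σ × Bool) :
    ((ins R l μ v)⁻¹ p).1 ∈ R ↔ ((l v)⁻¹ p).1 ∈ R := by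
  by_cases h : ((l v)⁻¹ p).1 ∈ R
  · obtain ⟨x, hx⟩ := exists_emb h
    have hp : p = l v (emb x) := by rw [hx]; simp
    refine iff_of_true ?_ h
    rw [hp, ins_inv_emb]
    exact emb_mem _
  · rw [ins_inv_out v h]

theorem tog_apply (t : σ → Bool) (x : σ × Bool) : tog t x = (x.1, xor x.2 (t x.1)) := rfl

theorem tog_fst (t : σ → Bool) (x : σ × Bool) : (tog t x).1 = x.1 := rfl

theorem tog_inv (t : σ → Bool) : (tog t)⁻¹ = tog t := rfl

theorem tog_emb (x : ↥R × Bool) : tog t (emb x) = emb (tog (rt R t) x) := rfl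

theorem ptr_apply (l : Lam V σ) (e : E) (p : σ × Bool) :
    ptr B t l e p = l (B.tgt e) (tog t ((l (B.src e))⁻¹ p)) := rfl

theorem hold_iff (l : Lam V σ) (φ : Fact E (σ × Bool)) :
    Hold B t l φ ↔ tog t ((l (B.src φ.1))⁻¹ φ.2.1) = (l (B.tgt φ.1))⁻¹ φ.2.2 := by
  unfold Hold
  rw [ptr_apply, Equiv.Perm.eq_inv_iff_eq]

/-- the two labels of a true fact are in the same slot -/
theorem hold_slot {l : Lam V σ} {φ : Fact E (σ × Bool)} (h : Hold B t l φ) :
    ((l (B.tgt φ.1))⁻¹ φ.2.2).1 = ((l (B.src φ.1))⁻¹ φ.2.1).1 := by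
  rw [hold_iff] at h
  rw [← h, tog_fst]

theorem alive_of_hold {φ : Fact E (σ × Bool)} (h : Hold B t l φ) : Alive B t R l φ := by
  by_cases hR : ((l (B.src φ.1))⁻¹ φ.2.1).1 ∈ R
  · exact Or.inr ⟨hR, by rwa [hold_slot h]⟩
  · exact Or.inl ⟨h, hR⟩

theorem rev_ins (φ : Fact E (σ × Bool)) : Rev B t R (ins R l μ) φ ↔ Rev B t R l φ := by
  unfold Rev
  rw [ins_slot_mem]
  constructor
  · rintro ⟨h, hR⟩
    refine ⟨?_, hR⟩
    have h2 : ((ins R l μ (B.tgt φ.1))⁻¹ φ.2.2).1 ∉ R := by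
      rw [hold_slot h, ins_slot_mem]; exact hR
    rw [ins_slot_mem] at h2
    rw [hold_iff] at h ⊢
    rwa [ins_inv_out _ hR, ins_inv_out _ h2] at h
  · rintro ⟨h, hR⟩
    refine ⟨?_, hR⟩
    have h2 : ((l (B.tgt φ.1))⁻¹ φ.2.2).1 ∉ R := by
      rw [hold_slot h]; exact hR
    rw [hold_iff] at h ⊢
    rwa [ins_inv_out _ hR, ins_inv_out _ h2]

theorem alive_ins (φ : Fact E (σ × Bool)) : Alive B t R (ins R l μ) φ ↔ Alive B t R l φ := by
  unfold Alive
  rw [rev_ins, ins_slot_mem, ins_slot_mem]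

/-- revealed facts hold in all instances -/
theorem hold_of_rev {φ : Fact E (σ × Bool)} (h : Rev B t R l φ) : Hold B t (ins R l μ) φ :=
  ((rev_ins (μ := μ) φ).2 h).1

/-- hidden facts hold if and only if they hold in the restricted system -/
theorem hold_ins_emb (e : E) (x y : ↥R × Bool) :
    Hold B t (ins R l μ) (e, l (B.src e) (emb x), l (B.tgt e) (emb y)) ↔
      Hold B (rt R t) μ (e, x, y) := by
  rw [hold_iff, hold_iff]
  simp only [ins_inv_emb, tog_emb]
  exact emb_injective.eq_iff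

/-- the value of the type on `R` does not matter for revealed facts -/
theorem rev_congr {t t' : σ → Bool} (h : ∀ j ∉ R, t j = t' j) (φ : Fact E (σ × Bool)) :
    Rev B t R l φ ↔ Rev B t' R l φ := by
  unfold Rev
  refine and_congr_left fun hR => ?_
  rw [hold_iff, hold_iff, tog_apply, tog_apply, h _ hR]

theorem rev_update {j0 : σ} (hj : j0 ∈ R) (b : Bool) (φ : Fact E (σ × Bool)) :
    Rev B (Function.update t j0 b) R l φ ↔ Rev B t R l φ := by
  refine rev_congr (fun j hj' => ?_) φ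
  rw [Function.update_of_ne]
  rintro rfl
  exact hj' hj

theorem rt_update {j0 : σ} (hj : j0 ∈ R) (b : Bool) :
    rt R (Function.update t j0 b) = Function.update (rt R t) ⟨j0, hj⟩ b := by
  funext j
  by_cases h : j = ⟨j0, hj⟩
  · subst h; simp [rt]
  · rw [Function.update_of_ne h]
    unfold rt
    rw [Function.update_of_ne]
    intro h'
    exact h (Subtype.ext h')

end

section

variable {V σ : Type} [Fintype V] [DecidableEq V] [Fintype σ] [DecidableEq σ]

/-- for fixed `μ`, `l ↦ ins R l μ` is a bijection -/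
def insEquiv (R : Finset σ) (μ : Lam V ↥R) : Lam V σ ≃ Lam V σ where
  toFun l := ins R l μ
  invFun l := fun v => l v * ((μ v).extendDomain (iso R))⁻¹
  left_inv l := by funext v; exact mul_inv_cancel_right _ _
  right_inv l := by funext v; exact inv_mul_cancel_right _ _

theorem sum_ins {A : Type} [AddCommMonoid A] (R : Finset σ) (f : Lam V σ → A) :
    ∑ l, ∑ μ : Lam V ↥R, f (ins R l μ) = Fintype.card (Lam V ↥R) • ∑ l, f l := by
  rw [Finset.sum_comm]
  have h : ∀ μ : Lam V ↥R, ∑ l, f (ins R l μ) = ∑ l, f l := fun μ =>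
    (insEquiv R μ).sum_comp f
  rw [Finset.sum_congr rfl fun μ _ => h μ]
  simp

end

section

variable {α : Type} [Fintype α]

theorem cnt_eq (P : α → Prop) [DecidablePred P] : cnt P = (univ.filter P).card := by
  unfold cnt
  congr

theorem cnt_eq_sum (P : α → Prop) [DecidablePred P] : cnt P = ∑ a, if P a then 1 else 0 := by
  rw [cnt_eq, Finset.card_filter]

theorem cnt_le_card (P : α → Prop) : cnt P ≤ Fintype.card α := by
  classical
  rw [cnt_eq]
  exact Finset.card_le_univ _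

theorem cnt_mono {P Q : α → Prop} (h : ∀ a, P a → Q a) : cnt P ≤ cnt Q := by
  classical
  rw [cnt_eq, cnt_eq]
  exact Finset.card_le_card fun a ha => by
    simp only [Finset.mem_filter, Finset.mem_univ, true_and] at ha ⊢
    exact h a ha

theorem cnt_congr {P Q : α → Prop} (h : ∀ a, P a ↔ Q a) : cnt P = cnt Q :=
  le_antisymm (cnt_mono fun a => (h a).1) (cnt_mono fun a => (h a).2)

end

end Pool.Agent.Lib.MP_cff830_lc.AC0
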