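import Pool.Agent.Lib.MP_cff830_lc.AC0.Stmts
import Pool.Agent.Lib.MP_cff830_lc.AC0.Ins

/-!
# A6: a random restriction is bad for a fixed family with small probability
-/

namespace Pool.Agent.Lib.MP_cff830_lc.AC0

open Finset

set_option linter.unusedSectionVars false

namespace BadProb

/-- the slot of the source label of a fact -/
def slot {V E σ : Type} (B : Base V E) (l : Lam V σ) (φ : Fact E (σ × Bool)) : σ :=
  ((l (B.src φ.1))⁻¹ φ.2.1).1

/-- the event that is counted in the full system -/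
def Ev {V E σ : Type} (B : Base V E) (t : σ → Bool) (j0 : σ) (K : ℕ)
    (G : Finset (Finset (Fact E (σ × Bool)))) (R : Finset σ) (l : Lam V σ) : Prop :=
  (∀ T ∈ G, ∃ φ ∈ T, ¬ Rev B t R l φ) ∧
  ∃ T : Fin K → Finset (Fact E (σ × Bool)), (∀ i, T i ∈ G) ∧
    (∀ i, ∀ φ ∈ T i, Hold B t l φ) ∧ (∀ i, ∀ φ ∈ T i, slot B l φ ≠ j0) ∧
    ∀ i j, i ≠ j → ∀ φ ∈ T i, ∀ ψ ∈ T j, slot B l φ ∈ R → slot B l φ ≠ slot B l ψ

section

variable {V E σ : Type} [Fintype V] [DecidableEq V] [Fintype E] [DecidableEq E] [Fintype σ]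
  [DecidableEq σ]

/-- for a bad restriction many extensions have the event -/
theorem step1 (h2 : StRep) (h4 : StCount) (B : Base V E) (t : σ → Bool) (j0 : σ)
    (g r K m : ℕ) (hg : Girthy B g) (hrK : r * K ≤ g) (hm : 2 * r * K + 1 ≤ m)
    (G : Finset (Finset (Fact E (σ × Bool)))) (hG : ∀ T ∈ G, Cons T ∧ T.card ≤ r)
    (R : Finset σ) (hR : IsR m j0 R) (l : Lam V σ) (hB : Bad B t K G R l) :
    Fintype.card (Lam V ↥R) ≤
      cnt (fun μ : Lam V ↥R => Ev B t j0 K G R (ins R l μ)) * (2 * m) ^ (2 * r * K) := by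
  classical
  obtain ⟨hB1, T, hTG, hTal, hTap⟩ := hB
  obtain ⟨hRm, hRj⟩ := hR
  -- hidden parts
  let T' : Fin K → Finset (Fact E (σ × Bool)) := fun i => (T i).filter fun φ => ¬ Rev B t R l φ
  have hT' : ∀ i φ, φ ∈ T' i ↔ φ ∈ T i ∧ ¬ Rev B t R l φ := fun i φ => by
    simp [T']
  let TT : Finset (Fact E (σ × Bool)) := univ.biUnion T'
  have hTT : ∀ φ, φ ∈ TT ↔ ∃ i, φ ∈ T' i := fun φ => by simp [TT]
  have hapart : ∀ i j, i ≠ j → ∀ φ ∈ T' i, ∀ ψ ∈ T' j,
      sl B φ ≠ sl B ψ ∧ sl B φ ≠ tl B ψ ∧ tl B φ ≠ sl B ψ ∧ tl B φ ≠ tl B ψ := by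
    intro i j hij φ hφ ψ hψ
    rw [hT'] at hφ hψ
    exact hTap i j hij φ hφ.1 hφ.2 ψ hψ.1 hψ.2
  have hcons : Cons TT := by
    intro φ hφ ψ hψ h1
    obtain ⟨i, hi⟩ := (hTT φ).1 hφ
    obtain ⟨j, hj⟩ := (hTT ψ).1 hψ
    by_cases hij : i = j
    · subst hij
      exact (hG _ (hTG i)).1 φ ((hT' _ _).1 hi).1 ψ ((hT' _ _).1 hj).1 h1
    · obtain ⟨a, -, -, b⟩ := hapart i j hij φ hi ψ hj
      constructor
      · intro h
        exact absurd (by simp [sl, h, h1]) a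
      · intro h
        exact absurd (by simp [tl, h, h1]) b
  have hcard : TT.card ≤ r * K := by
    calc TT.card ≤ ∑ i, (T' i).card := Finset.card_biUnion_le
      _ ≤ ∑ _i : Fin K, r := Finset.sum_le_sum fun i _ =>
          (Finset.card_filter_le _ _).trans (hG _ (hTG i)).2
      _ = r * K := by simp [mul_comm]
  -- the labels
  let L : Finset (V × (σ × Bool)) := TT.image (sl B) ∪ TT.image (tl B)
  have hLs : ∀ φ ∈ TT, sl B φ ∈ L := fun φ hφ =>
    Finset.mem_union_left _ (Finset.mem_image_of_mem _ hφ)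
  have hLt : ∀ φ ∈ TT, tl B φ ∈ L := fun φ hφ =>
    Finset.mem_union_right _ (Finset.mem_image_of_mem _ hφ)
  have hLc : L.card ≤ 2 * r * K := by
    have h1 : L.card ≤ TT.card + TT.card :=
      (Finset.card_union_le _ _).trans
        (Nat.add_le_add Finset.card_image_le Finset.card_image_le)
    nlinarith
  have hLhid : ∀ y ∈ L, ((l y.1)⁻¹ y.2).1 ∈ R := by
    intro y hy
    have key : ∀ φ ∈ TT, ((l (B.src φ.1))⁻¹ φ.2.1).1 ∈ R ∧ ((l (B.tgt φ.1))⁻¹ φ.2.2).1 ∈ R := by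
      intro φ hφ
      obtain ⟨i, hi⟩ := (hTT φ).1 hφ
      rw [hT'] at hi
      exact (hTal i φ hi.1).resolve_left hi.2
    rcases Finset.mem_union.1 hy with h | h
    · obtain ⟨φ, hφ, rfl⟩ := Finset.mem_image.1 h
      exact (key φ hφ).1
    · obtain ⟨φ, hφ, rfl⟩ := Finset.mem_image.1 h
      exact (key φ hφ).2
  -- an injection of the labels into the slots
  obtain ⟨fr, hfr0, hfri⟩ : ∃ fr : V × (σ × Bool) → ↥R, (∀ y ∈ L, (fr y : σ) ≠ j0) ∧
      ∀ y ∈ L, ∀ z ∈ L, fr y = fr z → y = z := by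
    have hc : Fintype.card ↥L ≤ Fintype.card ↥(R.erase j0) := by
      simp only [Fintype.card_coe, Finset.card_erase_of_mem hRj]
      omega
    obtain ⟨f⟩ := Function.Embedding.nonempty_of_card_le hc
    refine ⟨fun y => if h : y ∈ L then ⟨f ⟨y, h⟩, Finset.mem_of_mem_erase (f ⟨y, h⟩).2⟩
      else ⟨j0, hRj⟩, ?_, ?_⟩
    · intro y hy
      simp only [hy, dite_true]
      exact Finset.ne_of_mem_erase (f ⟨y, hy⟩).2
    · intro y hy z hz h
      simp only [hy, hz, dite_true, Subtype.mk.injEq] at h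
      have h' := f.injective (Subtype.ext h)
      simpa using h'
  obtain ⟨rep, bit, hr1, hr2, hr3, hr4⟩ :=
    h2 V E (σ × Bool) B g hg TT hcons (hcard.trans hrK) (fun x => t (fr x))
  have hrepL : ∀ y ∈ L, rep y ∈ L := by
    intro y hy
    have := hr4 (↑L : Set (V × (σ × Bool)))
      (fun φ hφ => iff_of_true (hLs φ hφ) (hLt φ hφ)) y hy
    exact this
  -- the map from hidden labels
  let up : V × (↥R × Bool) → V × (σ × Bool) := fun x => (x.1, l x.1 (emb x.2))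
  have hup : Function.Injective up := by
    rintro ⟨u, x⟩ ⟨v, y⟩ h
    simp only [up, Prod.mk.injEq] at h
    obtain ⟨rfl, h⟩ := h
    have := emb_injective ((l u).injective h)
    rw [this]
  let L' : Finset (V × (↥R × Bool)) := univ.filter fun x => up x ∈ L
  have hL' : ∀ x, x ∈ L' ↔ up x ∈ L := fun x => by simp [L']
  have hL'c : L'.card ≤ 2 * r * K := by
    refine le_trans ?_ hLc
    exact Finset.card_le_card_of_injOn up (fun x hx => by
      have := (hL' x).1 hx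
      exact this) hup.injOn
  let c : V × (↥R × Bool) → ↥R × Bool := fun x => (fr (rep (up x)), bit (up x))
  have hc : ∀ x ∈ L', ∀ y ∈ L', x.1 = y.1 → c x = c y → x = y := by
    intro x hx y hy h1 h
    rw [hL'] at hx hy
    simp only [c, Prod.mk.injEq] at h
    have h3 := hfri _ (hrepL _ hx) _ (hrepL _ hy) h.1
    exact hup (hr2 _ _ (by simpa [up] using h1) h3)
  have hcount := h4 V (↥R × Bool) L' c hc
  have hcS : Fintype.card (↥R × Bool) = 2 * m := by
    simp [hRm, mul_comm]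
  rw [hcS] at hcount
  refine hcount.trans ?_
  refine Nat.mul_le_mul ?_ (Nat.pow_le_pow_right (by omega) hL'c)
  refine cnt_mono fun μ hμ => ?_
  -- the key formula
  have key : ∀ y ∈ L, (ins R l μ y.1)⁻¹ y.2 = ((fr (rep y) : σ), bit y) := by
    intro y hy
    obtain ⟨x, hx⟩ := exists_emb (hLhid y hy)
    have hy2 : y.2 = l y.1 (emb x) := by rw [hx]; simp
    have hupx : up (y.1, x) = y := by
      simp only [up]
      rw [← hy2]
    have h1 := hμ (y.1, x) ((hL' _).2 (by rw [hupx]; exact hy))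
    have h3 : (μ y.1)⁻¹ x = c (y.1, x) := by
      rw [Equiv.Perm.inv_eq_iff_eq]
      exact h1.symm
    rw [hy2, ins_inv_emb, h3]
    simp only [c, hupx, emb]
  have hsls : ∀ φ ∈ TT, slot B (ins R l μ) φ = (fr (rep (sl B φ)) : σ) := by
    intro φ hφ
    have := key _ (hLs φ hφ)
    unfold slot
    exact congrArg Prod.fst this
  have hslr : ∀ φ, Rev B t R l φ → slot B (ins R l μ) φ ∉ R := by
    intro φ hφ
    exact ((rev_ins (μ := μ) φ).2 hφ).2
  -- labels of one part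
  let H : Fin K → Set (V × (σ × Bool)) := fun i => {x | ∃ φ ∈ T' i, x = sl B φ ∨ x = tl B φ}
  have hHdis : ∀ i j, i ≠ j → ∀ x, x ∈ H i → x ∉ H j := by
    rintro i j hij x ⟨φ, hφ, hx⟩ ⟨ψ, hψ, hx'⟩
    obtain ⟨a, b, c, d⟩ := hapart i j hij φ hφ ψ hψ
    rcases hx with hx | hx <;> rcases hx' with hx' | hx'
    · exact a (hx.symm.trans hx')
    · exact b (hx.symm.trans hx')
    · exact c (hx.symm.trans hx')
    · exact d (hx.symm.trans hx')
  have hHrep : ∀ i, ∀ x ∈ H i, rep x ∈ H i := by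
    intro i
    refine hr4 (H i) ?_
    intro ψ hψ
    obtain ⟨j, hj⟩ := (hTT ψ).1 hψ
    by_cases hij : i = j
    · subst hij
      exact iff_of_true ⟨ψ, hj, Or.inl rfl⟩ ⟨ψ, hj, Or.inr rfl⟩
    · refine iff_of_false (fun h => ?_) (fun h => ?_)
      · exact hHdis i j hij _ h ⟨ψ, hj, Or.inl rfl⟩
      · exact hHdis i j hij _ h ⟨ψ, hj, Or.inr rfl⟩
  refine ⟨fun S hS => ?_, T, hTG, ?_, ?_, ?_⟩
  · obtain ⟨φ, hφ, h⟩ := hB1 S hS
    exact ⟨φ, hφ, fun h' => h ((rev_ins φ).1 h')⟩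
  · intro i φ hφ
    by_cases hrev : Rev B t R l φ
    · exact hold_of_rev hrev
    · have hφT : φ ∈ TT := (hTT φ).2 ⟨i, (hT' _ _).2 ⟨hφ, hrev⟩⟩
      rw [hold_iff]
      have e1 := key _ (hLs φ hφT)
      have e2 := key _ (hLt φ hφT)
      have e1' : (ins R l μ (B.src φ.1))⁻¹ φ.2.1 = ((fr (rep (sl B φ)) : σ), bit (sl B φ)) := e1
      have e2' : (ins R l μ (B.tgt φ.1))⁻¹ φ.2.2 = ((fr (rep (tl B φ)) : σ), bit (tl B φ)) := e2
      rw [e1', e2', tog_apply, hr3 φ hφT, hr1 φ hφT]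
  · intro i φ hφ
    by_cases hrev : Rev B t R l φ
    · intro h
      exact hslr φ hrev (by rw [h]; exact hRj)
    · have hφT : φ ∈ TT := (hTT φ).2 ⟨i, (hT' _ _).2 ⟨hφ, hrev⟩⟩
      rw [hsls φ hφT]
      exact hfr0 _ (hrepL _ (hLs φ hφT))
  · intro i j hij φ hφ ψ hψ hin heq
    have hrevφ : ¬ Rev B t R l φ := fun h => hslr φ h hin
    have hrevψ : ¬ Rev B t R l ψ := fun h => hslr ψ h (by rw [← heq]; exact hin)
    have hφi : φ ∈ T' i := (hT' _ _).2 ⟨hφ, hrevφ⟩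
    have hψj : ψ ∈ T' j := (hT' _ _).2 ⟨hψ, hrevψ⟩
    have hφT : φ ∈ TT := (hTT φ).2 ⟨i, hφi⟩
    have hψT : ψ ∈ TT := (hTT ψ).2 ⟨j, hψj⟩
    rw [hsls φ hφT, hsls ψ hψT] at heq
    have h5 := hfri _ (hrepL _ (hLs φ hφT)) _ (hrepL _ (hLs ψ hψT)) (Subtype.ext heq)
    have h6 : rep (sl B φ) ∈ H i := hHrep i _ ⟨φ, hφi, Or.inl rfl⟩
    have h7 : rep (sl B ψ) ∈ H j := hHrep j _ ⟨ψ, hψj, Or.inl rfl⟩
    rw [h5] at h6
    exact hHdis i j hij _ h6 h7

/-- the number of bad `l` for a fixed `R` -/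
theorem step2 (h2 : StRep) (h4 : StCount) (B : Base V E) (t : σ → Bool) (j0 : σ)
    (g r K m : ℕ) (hg : Girthy B g) (hrK : r * K ≤ g) (hm : 2 * r * K + 1 ≤ m)
    (G : Finset (Finset (Fact E (σ × Bool)))) (hG : ∀ T ∈ G, Cons T ∧ T.card ≤ r)
    (R : Finset σ) (hR : IsR m j0 R) :
    cnt (fun l : Lam V σ => Bad B t K G R l) ≤
      (2 * m) ^ (2 * r * K) * cnt (fun l : Lam V σ => Ev B t j0 K G R l) := by
  classical
  have hpos : 0 < Fintype.card (Lam V ↥R) := Fintype.card_pos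
  refine Nat.le_of_mul_le_mul_left ?_ hpos
  have h1 : Fintype.card (Lam V ↥R) * cnt (fun l : Lam V σ => Bad B t K G R l) =
      ∑ l : Lam V σ, if Bad B t K G R l then Fintype.card (Lam V ↥R) else 0 := by
    rw [cnt_eq_sum, Finset.mul_sum]
    refine Finset.sum_congr rfl fun l _ => ?_
    split_ifs <;> simp
  have h3 : ∑ l : Lam V σ, ∑ μ : Lam V ↥R,
      (if Ev B t j0 K G R (ins R l μ) then 1 else 0 : ℕ) =
      Fintype.card (Lam V ↥R) • ∑ l : Lam V σ, (if Ev B t j0 K G R l then 1 else 0 : ℕ) :=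
    sum_ins R fun l => (if Ev B t j0 K G R l then 1 else 0 : ℕ)
  rw [h1]
  calc ∑ l : Lam V σ, (if Bad B t K G R l then Fintype.card (Lam V ↥R) else 0)
      ≤ ∑ l : Lam V σ, (∑ μ : Lam V ↥R, (if Ev B t j0 K G R (ins R l μ) then 1 else 0 : ℕ)) *
          (2 * m) ^ (2 * r * K) := by
        refine Finset.sum_le_sum fun l _ => ?_
        split_ifs with h
        · have := step1 h2 h4 B t j0 g r K m hg hrK hm G hG R hR l h
          rw [cnt_eq_sum] at this
          exact this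
        · exact Nat.zero_le _
    _ = Fintype.card (Lam V ↥R) *
        ((2 * m) ^ (2 * r * K) * cnt (fun l : Lam V σ => Ev B t j0 K G R l)) := by
        rw [← Finset.sum_mul, h3, cnt_eq_sum]
        simp only [smul_eq_mul]
        ring

/-- the number of `R` with the event, for a fixed `l` -/
theorem step4 (h5 : StH) (B : Base V E) (t : σ → Bool) (j0 : σ)
    (r K m : ℕ) (hK : K + 1 ≤ m) (hmσ : m ≤ Fintype.card σ)
    (G : Finset (Finset (Fact E (σ × Bool)))) (hG : ∀ T ∈ G, Cons T ∧ T.card ≤ r)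
    (l : Lam V σ) :
    cnt (fun R : Finset σ => IsR m j0 R ∧ Ev B t j0 K G R l) * (Fintype.card σ - 1) ^ K ≤
      (r * (m - 1)) ^ K * cnt (fun R : Finset σ => IsR m j0 R) := by
  classical
  let F : Finset (Finset σ) :=
    (G.filter fun T => ∀ φ ∈ T, Hold B t l φ ∧ slot B l φ ≠ j0).image fun T =>
      T.image (slot B l)
  have hF : ∀ S ∈ F, S.card ≤ r ∧ j0 ∉ S := by
    intro S hS
    obtain ⟨T, hT, rfl⟩ := Finset.mem_image.1 hS
    obtain ⟨hT1, hT2⟩ := Finset.mem_filter.1 hT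
    refine ⟨Finset.card_image_le.trans (hG T hT1).2, fun h => ?_⟩
    obtain ⟨φ, hφ, h'⟩ := Finset.mem_image.1 h
    exact (hT2 φ hφ).2 h'
  refine le_trans ?_ (h5 σ j0 F r m K hF hK hmσ)
  refine Nat.mul_le_mul_right _ (cnt_mono ?_)
  rintro R ⟨hR, hE1, T, hTG, hT1, hT2, hT3⟩
  refine ⟨hR, ?_, fun i => (T i).image (slot B l), fun i => ?_, ?_⟩
  · intro S hS
    obtain ⟨T0, hT0, rfl⟩ := Finset.mem_image.1 hS
    obtain ⟨hT01, hT02⟩ := Finset.mem_filter.1 hT0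
    obtain ⟨φ, hφ, hrev⟩ := hE1 T0 hT01
    refine ⟨slot B l φ, Finset.mem_image_of_mem _ hφ, ?_⟩
    by_contra hcon
    exact hrev ⟨(hT02 φ hφ).1, hcon⟩
  · exact Finset.mem_image_of_mem _ (Finset.mem_filter.2 ⟨hTG i, fun φ hφ =>
      ⟨hT1 i φ hφ, hT2 i φ hφ⟩⟩)
  · intro i j hij x hxR hxi hxj
    obtain ⟨φ, hφ, rfl⟩ := Finset.mem_image.1 hxi
    obtain ⟨ψ, hψ, h⟩ := Finset.mem_image.1 hxj
    exact hT3 i j hij φ hφ ψ hψ hxR h.symm

end

/-- counting pairs -/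
theorem cnt_prod {α β : Type} [Fintype α] [Fintype β] (P : α → β → Prop) :
    cnt (fun x : α × β => P x.1 x.2) = ∑ a, cnt (fun b => P a b) := by
  classical
  rw [cnt_eq_sum, Fintype.sum_prod_type]
  exact Finset.sum_congr rfl fun a _ => (cnt_eq_sum _).symm

end BadProb

open BadProb in
theorem stA (h2 : StRep) (h4 : StCount) (h5 : StH) : StA := by
  intro V E σ _ _ _ _ _ _ B t j0 g r K m hg hrK hm hK hmσ G hG
  classical
  have e1 : cnt (fun ρ : Finset σ × Lam V σ => IsR m j0 ρ.1 ∧ Bad B t K G ρ.1 ρ.2) =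
      ∑ R : Finset σ, cnt (fun l : Lam V σ => IsR m j0 R ∧ Bad B t K G R l) :=
    cnt_prod fun (R : Finset σ) (l : Lam V σ) => IsR m j0 R ∧ Bad B t K G R l
  have e2 : ∑ R : Finset σ, cnt (fun l : Lam V σ => IsR m j0 R ∧ Bad B t K G R l) ≤
      ∑ R : Finset σ, (2 * m) ^ (2 * r * K) *
        cnt (fun l : Lam V σ => IsR m j0 R ∧ Ev B t j0 K G R l) := by
    refine Finset.sum_le_sum fun R _ => ?_
    by_cases hR : IsR m j0 R
    · have := step2 h2 h4 B t j0 g r K m hg hrK hm G hG R hR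
      refine (cnt_mono fun l h => h.2).trans (this.trans ?_)
      exact Nat.mul_le_mul_left _ (cnt_mono fun l h => ⟨hR, h⟩)
    · have : cnt (fun l : Lam V σ => IsR m j0 R ∧ Bad B t K G R l) = 0 := by
        rw [cnt_eq, Finset.card_eq_zero, Finset.filter_eq_empty_iff]
        exact fun l _ h => hR h.1
      rw [this]
      exact Nat.zero_le _
  have e3 : ∑ R : Finset σ, cnt (fun l : Lam V σ => IsR m j0 R ∧ Ev B t j0 K G R l) =
      ∑ l : Lam V σ, cnt (fun R : Finset σ => IsR m j0 R ∧ Ev B t j0 K G R l) := by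
    simp only [cnt_eq_sum]
    exact Finset.sum_comm
  have e4 : (∑ l : Lam V σ, cnt (fun R : Finset σ => IsR m j0 R ∧ Ev B t j0 K G R l)) *
      (Fintype.card σ - 1) ^ K ≤
      ∑ _l : Lam V σ, (r * (m - 1)) ^ K * cnt (fun R : Finset σ => IsR m j0 R) := by
    rw [Finset.sum_mul]
    exact Finset.sum_le_sum fun l _ => step4 h5 B t j0 r K m hK hmσ G hG l
  rw [← Finset.mul_sum, e3] at e2
  rw [e1]
  calc (∑ R : Finset σ, cnt (fun l : Lam V σ => IsR m j0 R ∧ Bad B t K G R l)) *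
        (Fintype.card σ - 1) ^ K
      ≤ ((2 * m) ^ (2 * r * K) *
          ∑ l : Lam V σ, cnt (fun R : Finset σ => IsR m j0 R ∧ Ev B t j0 K G R l)) *
        (Fintype.card σ - 1) ^ K := Nat.mul_le_mul_right _ e2
    _ = (2 * m) ^ (2 * r * K) *
        ((∑ l : Lam V σ, cnt (fun R : Finset σ => IsR m j0 R ∧ Ev B t j0 K G R l)) *
        (Fintype.card σ - 1) ^ K) := by ring
    _ ≤ (2 * m) ^ (2 * r * K) *
        ∑ _l : Lam V σ, (r * (m - 1)) ^ K * cnt (fun R : Finset σ => IsR m j0 R) :=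
        Nat.mul_le_mul_left _ e4
    _ = ((2 * m) ^ (2 * r) * (r * (m - 1))) ^ K *
        (cnt (fun R : Finset σ => IsR m j0 R) * Fintype.card (Lam V σ)) := by
        rw [Finset.sum_const, Finset.card_univ, smul_eq_mul, pow_mul (2 * m) (2 * r) K,
          mul_pow ((2 * m) ^ (2 * r)) (r * (m - 1)) K]
        ring

end Pool.Agent.Lib.MP_cff830_lc.AC0
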