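import Pool.Agent.Lib.MP_cff830_lc.AC0.Stmts
import Pool.Agent.Lib.MP_cff830_lc.AC0.Ins

/-!
# A1: base graphs of bounded degree, locally forests, without large independent sets
-/

namespace Pool.Agent.Lib.MP_cff830_lc.AC0

open Finset

namespace BaseM

/-- counting the functions with prescribed range on `J` -/
theorem cntJ {N m : ℕ} (S : Finset (Fin N × Fin N)) (J : Finset (Fin m)) :
    (univ.filter fun ω : Fin m → Fin N × Fin N => ∀ j ∈ J, ω j ∈ S).card
      = S.card ^ J.card * (N * N) ^ (m - J.card) := by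
  classical
  have h1 : (univ.filter fun ω : Fin m → Fin N × Fin N => ∀ j ∈ J, ω j ∈ S)
      = Fintype.piFinset (fun j => if j ∈ J then S else univ) := by
    ext ω
    simp only [mem_filter, mem_univ, true_and, Fintype.mem_piFinset]
    constructor
    · intro h j
      by_cases hj : j ∈ J
      · rw [if_pos hj]
        exact h j hj
      · rw [if_neg hj]
        exact mem_univ _
    · intro h j hj
      have := h j
      rwa [if_pos hj] at this
  rw [h1, Fintype.card_piFinset]
  have h2 : ∀ j : Fin m, (if j ∈ J then S else (univ : Finset (Fin N × Fin N))).card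
      = if j ∈ J then S.card else N * N := by
    intro j
    split_ifs
    · rfl
    · rw [card_univ, Fintype.card_prod, Fintype.card_fin]
  rw [prod_congr rfl (fun j _ => h2 j), prod_ite, prod_const, prod_const]
  congr 2
  · congr 1
    ext j
    simp
  · have h3 : (univ.filter fun j : Fin m => j ∉ J) = univ \ J := by
      ext j
      simp
    rw [h3, card_sdiff_of_subset (subset_univ _), card_univ, Fintype.card_fin]

/-- the pairs of sets -/
noncomputable def PP (N m g : ℕ) : Finset (Finset (Fin N) × Finset (Fin m)) := by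
  classical
  exact univ.filter fun p => 1 ≤ p.1.card ∧ p.1.card ≤ g ∧ p.2.card = p.1.card

theorem mem_PP {N m g : ℕ} (p : Finset (Fin N) × Finset (Fin m)) :
    p ∈ PP N m g ↔ 1 ≤ p.1.card ∧ p.1.card ≤ g ∧ p.2.card = p.1.card := by
  unfold PP
  simp

/-- the dense pairs -/
noncomputable def DD {N m : ℕ} (g : ℕ) (ω : Fin m → Fin N × Fin N) :
    Finset (Finset (Fin N) × Finset (Fin m)) := by
  classical
  exact (PP N m g).filter fun p => ∀ j ∈ p.2, ω j ∈ p.1 ×ˢ p.1

theorem mem_DD {N m g : ℕ} (ω : Fin m → Fin N × Fin N)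
    (p : Finset (Fin N) × Finset (Fin m)) :
    p ∈ DD g ω ↔ p ∈ PP N m g ∧ ∀ j ∈ p.2, ω j ∈ p.1 ×ˢ p.1 := by
  unfold DD
  simp only [mem_filter]

/-- the expected number of dense pairs -/
theorem sum_DD (N D g : ℕ) :
    ∑ ω : Fin (D * N) → Fin N × Fin N, (DD g ω).card
      ≤ (∑ w ∈ Icc 1 g, (D * w ^ 2) ^ w) * (N * N) ^ (D * N) := by
  classical
  set m := D * N with hm
  have h1 : ∑ ω : Fin m → Fin N × Fin N, (DD g ω).card
      = ∑ p ∈ PP N m g, (univ.filter fun ω : Fin m → Fin N × Fin N =>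
          ∀ j ∈ p.2, ω j ∈ p.1 ×ˢ p.1).card := by
    simp only [DD, card_filter]
    rw [sum_comm]
  rw [h1]
  have h2 : ∀ p ∈ PP N m g, (univ.filter fun ω : Fin m → Fin N × Fin N =>
          ∀ j ∈ p.2, ω j ∈ p.1 ×ˢ p.1).card
      = (p.1.card ^ 2) ^ p.1.card * (N * N) ^ (m - p.1.card) := by
    intro p hp
    rw [mem_PP] at hp
    rw [cntJ, card_product, hp.2.2, sq]
  rw [sum_congr rfl h2]
  have hmaps : ∀ p ∈ PP N m g, p.1.card ∈ Icc 1 g := by
    intro p hp
    rw [mem_PP] at hp
    rw [mem_Icc]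
    exact ⟨hp.1, hp.2.1⟩
  rw [← sum_fiberwise_of_maps_to hmaps, sum_mul]
  apply sum_le_sum
  intro w _
  have h3 : ∀ p ∈ (PP N m g).filter (fun p => p.1.card = w),
      (p.1.card ^ 2) ^ p.1.card * (N * N) ^ (m - p.1.card)
        = (w ^ 2) ^ w * (N * N) ^ (m - w) := by
    intro p hp
    rw [(mem_filter.mp hp).2]
  rw [sum_congr rfl h3, sum_const, smul_eq_mul]
  have h4 : ((PP N m g).filter (fun p => p.1.card = w)).card ≤ N.choose w * m.choose w := by
    have h5 : (PP N m g).filter (fun p => p.1.card = w)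
        ⊆ powersetCard w univ ×ˢ powersetCard w univ := by
      intro p hp
      rw [mem_filter, mem_PP] at hp
      rw [mem_product, mem_powersetCard, mem_powersetCard]
      exact ⟨⟨subset_univ _, hp.2⟩, subset_univ _, by rw [hp.1.2.2, hp.2]⟩
    refine le_trans (card_le_card h5) ?_
    rw [card_product, card_powersetCard, card_powersetCard, card_univ, card_univ,
      Fintype.card_fin, Fintype.card_fin]
  by_cases hwm : w ≤ m
  · calc ((PP N m g).filter (fun p => p.1.card = w)).card * ((w ^ 2) ^ w * (N * N) ^ (m - w))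
        ≤ (N ^ w * m ^ w) * ((w ^ 2) ^ w * (N * N) ^ (m - w)) := by
          apply Nat.mul_le_mul_right
          exact le_trans h4 (Nat.mul_le_mul (Nat.choose_le_pow _ _) (Nat.choose_le_pow _ _))
      _ = (D * w ^ 2) ^ w * ((N * N) ^ w * (N * N) ^ (m - w)) := by
          rw [hm, mul_pow, mul_pow, mul_pow]
          ring
      _ = (D * w ^ 2) ^ w * (N * N) ^ m := by
          rw [← pow_add]
          congr 2
          omega
  · have h6 : m.choose w = 0 := Nat.choose_eq_zero_of_lt (by omega)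
    rw [h6, mul_zero] at h4
    have h7 : ((PP N m g).filter (fun p => p.1.card = w)).card = 0 := by omega
    rw [h7, zero_mul]
    exact Nat.zero_le _

/-- few choices have a large set without edges -/
theorem card_indep (N D : ℕ) (hN : 1 ≤ N) (ε : ℝ) (hε : 0 < ε) (hε1 : ε ≤ 1)
    (hD : (1 - ε ^ 2 / 4) ^ D ≤ 1 / 8) :
    4 * ((univ.filter fun ω : Fin (D * N) → Fin N × Fin N => ∃ I : Finset (Fin N),
      ε / 2 * N ≤ I.card ∧ ∀ j, ω j ∉ I ×ˢ I).card : ℝ) ≤ ((N * N : ℕ) : ℝ) ^ (D * N) := by
  classical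
  set m := D * N with hm
  have h1 : (univ.filter fun ω : Fin m → Fin N × Fin N => ∃ I : Finset (Fin N),
      ε / 2 * N ≤ I.card ∧ ∀ j, ω j ∉ I ×ˢ I)
      ⊆ ((univ : Finset (Finset (Fin N))).filter fun I => ε / 2 * N ≤ I.card).biUnion
        (fun I => univ.filter fun ω : Fin m → Fin N × Fin N =>
          ∀ j ∈ (univ : Finset (Fin m)), ω j ∈ (univ \ (I ×ˢ I) : Finset (Fin N × Fin N))) := by
    intro ω hω
    rw [mem_filter] at hω
    obtain ⟨-, I, hI, hω⟩ := hω
    rw [mem_biUnion]
    refine ⟨I, by rw [mem_filter]; exact ⟨mem_univ _, hI⟩, ?_⟩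
    rw [mem_filter]
    exact ⟨mem_univ _, fun j _ => by rw [mem_sdiff]; exact ⟨mem_univ _, hω j⟩⟩
  have hNr : (1 : ℝ) ≤ N := by exact_mod_cast hN
  set θ : ℝ := 1 - ε ^ 2 / 4 with hθ
  have hθ0 : 0 ≤ θ := by
    have : ε ^ 2 ≤ 1 := pow_le_one₀ hε.le hε1
    rw [hθ]
    linarith
  have h2 : ∀ I ∈ ((univ : Finset (Finset (Fin N))).filter fun I => ε / 2 * N ≤ I.card),
      ((univ.filter fun ω : Fin m → Fin N × Fin N =>
          ∀ j ∈ (univ : Finset (Fin m)), ω j ∈
            (univ \ (I ×ˢ I) : Finset (Fin N × Fin N))).card : ℝ)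
        ≤ (1 / 8) ^ N * ((N * N : ℕ) : ℝ) ^ m := by
    intro I hI
    rw [mem_filter] at hI
    rw [cntJ, card_univ, Fintype.card_fin, Nat.sub_self, pow_zero, mul_one]
    push_cast
    have h3 : ((univ \ (I ×ˢ I) : Finset (Fin N × Fin N)).card : ℝ) ≤ θ * (N * N) := by
      rw [cast_card_sdiff (subset_univ _), card_univ, Fintype.card_prod, Fintype.card_fin,
        card_product]
      push_cast
      have h4 : (ε / 2 * N) * (ε / 2 * N) ≤ (I.card : ℝ) * I.card :=
        mul_self_le_mul_self (by positivity) hI.2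
      rw [hθ]
      linarith
    calc ((univ \ (I ×ˢ I) : Finset (Fin N × Fin N)).card : ℝ) ^ m
        ≤ (θ * (N * N)) ^ m := pow_le_pow_left₀ (Nat.cast_nonneg _) h3 m
      _ = (θ ^ D) ^ N * (N * N) ^ m := by
          rw [mul_pow, hm, pow_mul]
      _ ≤ (1 / 8) ^ N * (N * N) ^ m := by
          apply mul_le_mul_of_nonneg_right _ (by positivity)
          exact pow_le_pow_left₀ (by positivity) hD N
  have h3 : ((univ.filter fun ω : Fin m → Fin N × Fin N => ∃ I : Finset (Fin N),
      ε / 2 * N ≤ I.card ∧ ∀ j, ω j ∉ I ×ˢ I).card : ℝ)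
      ≤ 2 ^ N * ((1 / 8) ^ N * ((N * N : ℕ) : ℝ) ^ m) := by
    calc ((univ.filter fun ω : Fin m → Fin N × Fin N => ∃ I : Finset (Fin N),
      ε / 2 * N ≤ I.card ∧ ∀ j, ω j ∉ I ×ˢ I).card : ℝ)
        ≤ ∑ I ∈ ((univ : Finset (Finset (Fin N))).filter fun I => ε / 2 * N ≤ I.card),
          ((univ.filter fun ω : Fin m → Fin N × Fin N =>
          ∀ j ∈ (univ : Finset (Fin m)), ω j ∈
            (univ \ (I ×ˢ I) : Finset (Fin N × Fin N))).card : ℝ) := by
          exact_mod_cast le_trans (card_le_card h1) card_biUnion_le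
      _ ≤ ∑ I ∈ ((univ : Finset (Finset (Fin N))).filter fun I => ε / 2 * N ≤ I.card),
          ((1 / 8) ^ N * ((N * N : ℕ) : ℝ) ^ m) := sum_le_sum h2
      _ = (((univ : Finset (Finset (Fin N))).filter fun I => ε / 2 * N ≤ I.card).card : ℝ)
          * ((1 / 8) ^ N * ((N * N : ℕ) : ℝ) ^ m) := by
          rw [sum_const, nsmul_eq_mul]
      _ ≤ 2 ^ N * ((1 / 8) ^ N * ((N * N : ℕ) : ℝ) ^ m) := by
          apply mul_le_mul_of_nonneg_right _ (by positivity)
          have h5 : ((univ : Finset (Finset (Fin N))).filter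
              fun I => ε / 2 * N ≤ I.card).card ≤ 2 ^ N := by
            refine le_trans (card_filter_le _ _) ?_
            rw [card_univ, Fintype.card_finset, Fintype.card_fin]
          exact_mod_cast h5
  have h4 : (2 : ℝ) ^ N * ((1 / 8) ^ N * ((N * N : ℕ) : ℝ) ^ m)
      = (1 / 4) ^ N * ((N * N : ℕ) : ℝ) ^ m := by
    rw [← mul_assoc, ← mul_pow]
    norm_num
  rw [h4] at h3
  have h5 : ((1 : ℝ) / 4) ^ N ≤ 1 / 4 := by
    calc ((1 : ℝ) / 4) ^ N ≤ (1 / 4) ^ 1 := pow_le_pow_of_le_one (by norm_num) (by norm_num) hN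
      _ = 1 / 4 := pow_one _
  have h6 : (1 / 4 : ℝ) ^ N * ((N * N : ℕ) : ℝ) ^ m ≤ 1 / 4 * ((N * N : ℕ) : ℝ) ^ m :=
    mul_le_mul_of_nonneg_right h5 (by positivity)
  linarith

/-- a good choice -/
theorem exists_good (N D g : ℕ) (hN : 1 ≤ N) (ε : ℝ) (hε : 0 < ε) (hε1 : ε ≤ 1)
    (hD : (1 - ε ^ 2 / 4) ^ D ≤ 1 / 8) :
    ∃ ω : Fin (D * N) → Fin N × Fin N, (DD g ω).card ≤ 4 * ∑ w ∈ Icc 1 g, (D * w ^ 2) ^ w ∧
      ∀ I : Finset (Fin N), (∀ j, ω j ∉ I ×ˢ I) → (I.card : ℝ) < ε / 2 * N := by
  classical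
  set m := D * N with hm
  set c0 := ∑ w ∈ Icc 1 g, (D * w ^ 2) ^ w with hc0
  by_contra hcon
  push Not at hcon
  have hsplit : (univ : Finset (Fin m → Fin N × Fin N))
      ⊆ (univ.filter fun ω : Fin m → Fin N × Fin N => 4 * c0 < (DD g ω).card) ∪
        (univ.filter fun ω : Fin m → Fin N × Fin N => ∃ I : Finset (Fin N),
          ε / 2 * N ≤ I.card ∧ ∀ j, ω j ∉ I ×ˢ I) := by
    intro ω _
    rw [mem_union, mem_filter, mem_filter]
    by_cases h : (DD g ω).card ≤ 4 * c0
    · right
      obtain ⟨I, h1, h2⟩ := hcon ω h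
      exact ⟨mem_univ _, I, h2, h1⟩
    · left
      exact ⟨mem_univ _, by omega⟩
  have h1 := le_trans (card_le_card hsplit) (card_union_le _ _)
  rw [card_univ, Fintype.card_fun, Fintype.card_prod, Fintype.card_fin, Fintype.card_fin] at h1
  have h2 := card_indep N D hN ε hε hε1 hD
  have h3 : (4 * c0 + 1) * (univ.filter fun ω : Fin m → Fin N × Fin N =>
      4 * c0 < (DD g ω).card).card ≤ c0 * (N * N) ^ m := by
    refine le_trans ?_ (sum_DD N D g)
    rw [mul_comm, ← smul_eq_mul]
    refine le_trans (card_nsmul_le_sum _ (fun ω => (DD g ω).card) (4 * c0 + 1) ?_)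
      (sum_le_sum_of_subset (subset_univ _))
    intro ω hω
    exact (mem_filter.mp hω).2
  set a := (univ.filter fun ω : Fin m → Fin N × Fin N => 4 * c0 < (DD g ω).card).card with ha
  set b := (univ.filter fun ω : Fin m → Fin N × Fin N => ∃ I : Finset (Fin N),
          ε / 2 * N ≤ I.card ∧ ∀ j, ω j ∉ I ×ˢ I).card with hb
  have h4 : 4 * b ≤ (N * N) ^ m := by exact_mod_cast h2
  have hpos : 0 < (N * N) ^ m := by positivity
  set P := (N * N) ^ m with hP
  -- 3 a ≤ P
  have h5 : 4 * a ≤ P := by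
    by_contra h
    push Not at h
    have h6 : c0 * P < c0 * (4 * a) + a := by
      rcases Nat.eq_zero_or_pos c0 with h0 | h0
      · rw [h0]
        omega
      · have := Nat.mul_lt_mul_of_pos_left h h0
        omega
    have h7 : (4 * c0 + 1) * a = c0 * (4 * a) + a := by ring
    omega
  omega

/-- the sum of the degrees -/
theorem sum_deg {N m : ℕ} (ω : Fin m → Fin N × Fin N) :
    ∑ v : Fin N, (univ.filter fun j : Fin m => (ω j).1 = v ∨ (ω j).2 = v).card ≤ 2 * m := by
  classical
  have h1 : ∀ v : Fin N, (univ.filter fun j : Fin m => (ω j).1 = v ∨ (ω j).2 = v).card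
      ≤ (univ.filter fun j : Fin m => (ω j).1 = v).card
        + (univ.filter fun j : Fin m => (ω j).2 = v).card := by
    intro v
    rw [filter_or]
    exact card_union_le _ _
  refine le_trans (sum_le_sum fun v _ => h1 v) ?_
  rw [sum_add_distrib]
  have h2 : ∑ v : Fin N, (univ.filter fun j : Fin m => (ω j).1 = v).card = m := by
    have := card_eq_sum_card_fiberwise (f := fun j : Fin m => (ω j).1) (s := univ)
      (t := (univ : Finset (Fin N))) (fun _ _ => mem_coe.mpr (mem_univ _))
    rw [← this, card_univ, Fintype.card_fin]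
  have h3 : ∑ v : Fin N, (univ.filter fun j : Fin m => (ω j).2 = v).card = m := by
    have := card_eq_sum_card_fiberwise (f := fun j : Fin m => (ω j).2) (s := univ)
      (t := (univ : Finset (Fin N))) (fun _ _ => mem_coe.mpr (mem_univ _))
    rw [← this, card_univ, Fintype.card_fin]
  omega

/-- double counting: without leaves there are at most as many vertices as edges -/
theorem card_vertices_le {V E : Type} [DecidableEq V] [DecidableEq E] (B : Base V E)
    (F : Finset E)
    (h : ¬ ∃ e ∈ F, B.src e ≠ B.tgt e ∧ ∃ v, (v = B.src e ∨ v = B.tgt e) ∧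
      ∀ f ∈ F, f ≠ e → B.src f ≠ v ∧ B.tgt f ≠ v) :
    (F.image B.src ∪ F.image B.tgt).card ≤ F.card := by
  classical
  set W := F.image B.src ∪ F.image B.tgt with hW
  have h1 : ∑ v ∈ W, ((F.filter fun f => B.src f = v).card
      + (F.filter fun f => B.tgt f = v).card) = 2 * F.card := by
    rw [sum_add_distrib]
    have h2 : ∑ v ∈ W, (F.filter fun f => B.src f = v).card = F.card :=
      (card_eq_sum_card_fiberwise (fun f hf => by
        simp only [coe_union, coe_image, hW]
        left
        exact ⟨f, hf, rfl⟩)).symm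
    have h3 : ∑ v ∈ W, (F.filter fun f => B.tgt f = v).card = F.card :=
      (card_eq_sum_card_fiberwise (fun f hf => by
        simp only [coe_union, coe_image, hW]
        right
        exact ⟨f, hf, rfl⟩)).symm
    rw [h2, h3]
    ring
  have h4 : ∀ v ∈ W, 2 ≤ (F.filter fun f => B.src f = v).card
      + (F.filter fun f => B.tgt f = v).card := by
    intro v hv
    obtain ⟨e, he, hev⟩ : ∃ e ∈ F, v = B.src e ∨ v = B.tgt e := by
      rw [hW, mem_union, mem_image, mem_image] at hv
      rcases hv with ⟨e, he, h5⟩ | ⟨e, he, h5⟩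
      · exact ⟨e, he, Or.inl h5.symm⟩
      · exact ⟨e, he, Or.inr h5.symm⟩
    by_cases hloop : B.src e = B.tgt e
    · have hs : B.src e = v := by
        rcases hev with h5 | h5
        · exact h5.symm
        · rw [hloop]; exact h5.symm
      have ht : B.tgt e = v := by rw [← hloop]; exact hs
      have h6 : 1 ≤ (F.filter fun f => B.src f = v).card :=
        card_pos.mpr ⟨e, mem_filter.mpr ⟨he, hs⟩⟩
      have h7 : 1 ≤ (F.filter fun f => B.tgt f = v).card :=
        card_pos.mpr ⟨e, mem_filter.mpr ⟨he, ht⟩⟩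
      omega
    · have h5 : ¬ ∀ f ∈ F, f ≠ e → B.src f ≠ v ∧ B.tgt f ≠ v := by
        intro hall
        exact h ⟨e, he, hloop, v, hev, hall⟩
      push Not at h5
      obtain ⟨f, hf, hfe, h6⟩ := h5
      have h7 : B.src f = v ∨ B.tgt f = v := by
        by_cases h8 : B.src f = v
        · exact Or.inl h8
        · exact Or.inr (h6 h8)
      rcases h7 with h7 | h7 <;> rcases hev with h8 | h8
      · have h9 : ({e, f} : Finset E) ⊆ F.filter fun f => B.src f = v := by
          intro x hx
          rw [mem_insert, mem_singleton] at hx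
          rcases hx with rfl | rfl
          · exact mem_filter.mpr ⟨he, h8.symm⟩
          · exact mem_filter.mpr ⟨hf, h7⟩
        have h10 := card_le_card h9
        rw [card_pair (Ne.symm hfe)] at h10
        omega
      · have h9 : 1 ≤ (F.filter fun f => B.src f = v).card :=
          card_pos.mpr ⟨f, mem_filter.mpr ⟨hf, h7⟩⟩
        have h10 : 1 ≤ (F.filter fun f => B.tgt f = v).card :=
          card_pos.mpr ⟨e, mem_filter.mpr ⟨he, h8.symm⟩⟩
        omega
      · have h9 : 1 ≤ (F.filter fun f => B.src f = v).card :=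
          card_pos.mpr ⟨e, mem_filter.mpr ⟨he, h8.symm⟩⟩
        have h10 : 1 ≤ (F.filter fun f => B.tgt f = v).card :=
          card_pos.mpr ⟨f, mem_filter.mpr ⟨hf, h7⟩⟩
        omega
      · have h9 : ({e, f} : Finset E) ⊆ F.filter fun f => B.tgt f = v := by
          intro x hx
          rw [mem_insert, mem_singleton] at hx
          rcases hx with rfl | rfl
          · exact mem_filter.mpr ⟨he, h8.symm⟩
          · exact mem_filter.mpr ⟨hf, h7⟩
        have h10 := card_le_card h9
        rw [card_pair (Ne.symm hfe)] at h10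
        omega
  have h5 : W.card * 2 ≤ ∑ v ∈ W, ((F.filter fun f => B.src f = v).card
      + (F.filter fun f => B.tgt f = v).card) := by
    rw [← smul_eq_mul]
    exact card_nsmul_le_sum _ _ _ h4
  omega

/-- transport to `Fin N` -/
theorem transport {V E : Type} [Fintype V] [Fintype E] (B : Base V E) (Δ g : ℕ) (ε : ℝ)
    (hV : 0 < Fintype.card V) (h1 : DegLe B Δ) (h2 : Girthy B g)
    (h3 : ∀ I : Finset V, (∀ e, ¬ (B.src e ∈ I ∧ B.tgt e ∈ I)) →
      (I.card : ℝ) ≤ ε * Fintype.card V) :
    ∃ (N M : ℕ) (B : Base (Fin N) (Fin M)),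
    0 < N ∧ DegLe B Δ ∧ Girthy B g ∧
    ∀ I : Finset (Fin N), (∀ e, ¬ (B.src e ∈ I ∧ B.tgt e ∈ I)) → (I.card : ℝ) ≤ ε * N := by
  classical
  set e1 := Fintype.equivFin V with he1
  set e2 := Fintype.equivFin E with he2
  refine ⟨Fintype.card V, Fintype.card E,
    ⟨fun j => e1 (B.src (e2.symm j)), fun j => e1 (B.tgt (e2.symm j))⟩, hV, ?_, ?_, ?_⟩
  · intro v
    have h4 := h1 (e1.symm v)
    rw [cnt_eq] at h4 ⊢
    refine le_trans ?_ h4
    apply card_le_card_of_injOn e2.symm
    · intro j hj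
      simp only [coe_filter, mem_univ, true_and, Set.mem_ofPred_eq] at hj ⊢
      rcases hj with h | h
      · left; rw [← h]; simp
      · right; rw [← h]; simp
    · exact fun _ _ _ _ h => e2.symm.injective h
  · intro F hF hFg
    obtain ⟨e, he, hne, v, hv, hall⟩ := h2 (F.map e2.symm.toEmbedding) (by simpa using hF)
      (by simpa using hFg)
    rw [mem_map] at he
    obtain ⟨j, hj, rfl⟩ := he
    refine ⟨j, hj, ?_, e1 v, ?_, ?_⟩
    · simp only
      intro h
      exact hne (e1.injective h)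
    · simp only
      rcases hv with h | h
      · left; rw [h]; rfl
      · right; rw [h]; rfl
    · intro f hf hfe
      have h5 := hall (e2.symm f) (mem_map.mpr ⟨f, hf, rfl⟩) (fun h => hfe (by
        have := e2.symm.injective h
        exact this))
      simp only
      exact ⟨fun h => h5.1 (e1.injective h), fun h => h5.2 (e1.injective h)⟩
  · intro I hI
    have h4 := h3 (I.map e1.symm.toEmbedding) (by
      intro e he
      apply hI (e2 e)
      simp only [mem_map, Equiv.coe_toEmbedding] at he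
      obtain ⟨⟨a, ha, ha'⟩, b, hb, hb'⟩ := he
      simp only [Equiv.symm_apply_apply]
      rw [← ha', ← hb']
      simpa using ⟨ha, hb⟩)
    simpa using h4

end BaseM

open BaseM in
theorem stBase : StBase := by
  classical
  intro ε0 hε0
  set ε : ℝ := min ε0 1 with hεdef
  have hε : 0 < ε := lt_min hε0 one_pos
  have hε1 : ε ≤ 1 := min_le_right _ _
  have hεε0 : ε ≤ ε0 := min_le_left _ _
  have hθ0 : 0 ≤ 1 - ε ^ 2 / 4 := by
    have : ε ^ 2 ≤ 1 := pow_le_one₀ hε.le hε1
    linarith
  have hθ1 : 1 - ε ^ 2 / 4 < 1 := by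
    have : 0 < ε ^ 2 := by positivity
    linarith
  obtain ⟨D, hD⟩ := exists_pow_lt_of_lt_one (show (0 : ℝ) < 1 / 8 by norm_num) hθ1
  obtain ⟨Δ, hΔ⟩ := exists_nat_ge (16 * D / ε)
  refine ⟨Δ, ?_⟩
  intro g
  set c0 := ∑ w ∈ Icc 1 g, (D * w ^ 2) ^ w with hc0
  obtain ⟨N, hN⟩ := exists_nat_ge (max 1 (32 * c0 * g / ε))
  have hN1 : (1 : ℝ) ≤ N := le_trans (le_max_left _ _) hN
  have hN2 : 32 * c0 * g / ε ≤ (N : ℝ) := le_trans (le_max_right _ _) hN
  have hN1' : 1 ≤ N := by exact_mod_cast hN1
  have hgood := exists_good N D g hN1' ε hε hε1 hD.le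
  obtain ⟨m, hm⟩ : ∃ m, m = D * N := ⟨_, rfl⟩
  rw [← hm] at hgood
  obtain ⟨ω, hω1, hω2⟩ := hgood
  -- the bad vertices
  set deg : Fin N → ℕ := fun v => (univ.filter fun j : Fin m => (ω j).1 = v ∨ (ω j).2 = v).card
    with hdeg
  set Y1 : Finset (Fin N) := univ.filter fun v => Δ < deg v with hY1
  set Y2 : Finset (Fin N) := (DD g ω).biUnion fun p => p.1 with hY2
  have hY1card : (Y1.card : ℝ) ≤ ε * N / 8 := by
    have h1 : (Δ + 1) * Y1.card ≤ 2 * m := by
      refine le_trans ?_ (sum_deg ω)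
      rw [mul_comm, ← smul_eq_mul]
      refine le_trans (card_nsmul_le_sum _ (fun v => deg v) (Δ + 1) ?_)
        (sum_le_sum_of_subset (subset_univ _))
      intro v hv
      exact (mem_filter.mp hv).2
    have h2 : ((Δ : ℝ) + 1) * Y1.card ≤ 2 * (D * N) := by
      rw [hm] at h1
      exact_mod_cast h1
    have h3 : 16 * D ≤ ε * Δ := by
      rw [div_le_iff₀ hε] at hΔ
      linarith
    by_cases hD0 : D = 0
    · -- then there are no edges
      rw [hD0] at hD
      norm_num at hD
    · have hDpos : (0 : ℝ) < D := by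
        have : 0 < D := Nat.pos_of_ne_zero hD0
        exact_mod_cast this
      have h4 : (16 * D) * (Y1.card : ℝ) ≤ 2 * (D * N) * ε := by
        calc (16 * D) * (Y1.card : ℝ) ≤ (ε * Δ) * Y1.card :=
              mul_le_mul_of_nonneg_right h3 (Nat.cast_nonneg _)
          _ ≤ (ε * (Δ + 1)) * Y1.card := by
              apply mul_le_mul_of_nonneg_right _ (Nat.cast_nonneg _)
              apply mul_le_mul_of_nonneg_left _ hε.le
              linarith
          _ = ((Δ + 1) * Y1.card) * ε := by ring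
          _ ≤ 2 * (D * N) * ε := mul_le_mul_of_nonneg_right h2 hε.le
      have h5 : D * (16 * (Y1.card : ℝ)) ≤ D * (2 * N * ε) := by linarith
      have h6 := le_of_mul_le_mul_left h5 hDpos
      linarith
  have hY2card : (Y2.card : ℝ) ≤ ε * N / 8 := by
    have h1 : Y2.card ≤ (DD g ω).card * g := by
      rw [hY2]
      refine le_trans card_biUnion_le ?_
      refine le_trans (sum_le_card_nsmul _ _ g ?_) (le_of_eq (smul_eq_mul _ _))
      intro p hp
      rw [mem_DD, mem_PP] at hp
      exact hp.1.2.1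
    have h2 : Y2.card ≤ 4 * c0 * g := le_trans h1 (Nat.mul_le_mul_right _ hω1)
    have h3 : (Y2.card : ℝ) ≤ 4 * c0 * g := by exact_mod_cast h2
    rw [div_le_iff₀ hε] at hN2
    linarith
  set V' : Finset (Fin N) := univ \ (Y1 ∪ Y2) with hV'
  have hV'card : (3 / 4 : ℝ) * N ≤ V'.card := by
    rw [hV', cast_card_sdiff (subset_univ _), card_univ, Fintype.card_fin]
    have h1 : ((Y1 ∪ Y2).card : ℝ) ≤ Y1.card + Y2.card := by exact_mod_cast card_union_le _ _
    have h2 : ε * N ≤ N := by
      have := mul_le_mul_of_nonneg_right hε1 (by linarith : (0 : ℝ) ≤ N)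
      linarith
    linarith
  set E' : Finset (Fin m) := univ.filter fun j => (ω j).1 ∈ V' ∧ (ω j).2 ∈ V' with hE'
  have hE'mem : ∀ j : ↥E', (ω j).1 ∈ V' ∧ (ω j).2 ∈ V' := fun j => (mem_filter.mp j.2).2
  set B : Base ↥V' ↥E' := ⟨fun j => ⟨(ω j).1, (hE'mem j).1⟩, fun j => ⟨(ω j).2, (hE'mem j).2⟩⟩
    with hB
  have hcardV : Fintype.card ↥V' = V'.card := Fintype.card_coe _
  have hVpos : (0 : ℝ) < V'.card := by
    have : (0 : ℝ) < 3 / 4 * N := by positivity
    linarith
  apply transport B Δ g ε0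
  · rw [hcardV]
    exact_mod_cast hVpos
  · -- degrees
    intro v
    rw [cnt_eq]
    have hv : v.1 ∉ Y1 := by
      have h := (mem_sdiff.mp (show v.1 ∈ univ \ (Y1 ∪ Y2) from v.2)).2
      exact fun h' => h (mem_union_left _ h')
    have h1 : deg v ≤ Δ := by
      by_contra h
      exact hv (mem_filter.mpr ⟨mem_univ _, by omega⟩)
    refine le_trans ?_ h1
    rw [hdeg]
    apply card_le_card_of_injOn (fun j => j.1)
    · intro j hj
      simp only [coe_filter, mem_univ, true_and, Set.mem_ofPred_eq, hB] at hj ⊢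
      rcases hj with h | h
      · left; rw [← h]
      · right; rw [← h]
    · exact fun _ _ _ _ h => Subtype.ext h
  · -- girth
    intro F hF hFg
    by_contra hcon
    have h1 := card_vertices_le B F hcon
    set W : Finset ↥V' := F.image B.src ∪ F.image B.tgt with hW
    have hWne : W.Nonempty := by
      obtain ⟨e, he⟩ := hF
      exact ⟨B.src e, mem_union_left _ (mem_image_of_mem _ he)⟩
    obtain ⟨J, hJF, hJ⟩ := exists_subset_card_eq h1
    -- the dense pair
    set W' : Finset (Fin N) := W.map (Function.Embedding.subtype _) with hW'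
    set J' : Finset (Fin m) := J.map (Function.Embedding.subtype _) with hJ'
    have h2 : (W', J') ∈ DD g ω := by
      rw [mem_DD, mem_PP]
      refine ⟨⟨?_, ?_, ?_⟩, ?_⟩
      · simp only [hW', card_map]
        exact card_pos.mpr hWne
      · simp only [hW', card_map]
        omega
      · simp only [hW', hJ', card_map]
        exact hJ
      · intro j hj
        simp only [hJ', mem_map, Function.Embedding.coe_subtype] at hj
        obtain ⟨e, he, rfl⟩ := hj
        have he' := hJF he
        rw [mem_product]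
        constructor
        · rw [hW', mem_map]
          exact ⟨B.src e, mem_union_left _ (mem_image_of_mem _ he'), rfl⟩
        · rw [hW', mem_map]
          exact ⟨B.tgt e, mem_union_right _ (mem_image_of_mem _ he'), rfl⟩
    obtain ⟨w, hw⟩ := hWne
    have h3 : w.1 ∈ Y2 := by
      rw [hY2, mem_biUnion]
      exact ⟨_, h2, by rw [hW', mem_map]; exact ⟨w, hw, rfl⟩⟩
    have h4 := (mem_sdiff.mp (show w.1 ∈ univ \ (Y1 ∪ Y2) from w.2)).2
    exact h4 (mem_union_right _ h3)
  · -- independent sets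
    intro I hI
    set I' : Finset (Fin N) := I.map (Function.Embedding.subtype _) with hI'
    have h1 := hω2 I' (by
      intro j hj
      rw [mem_product, hI', mem_map, mem_map] at hj
      obtain ⟨⟨a, ha, ha'⟩, b, hb, hb'⟩ := hj
      simp only [Function.Embedding.coe_subtype] at ha' hb'
      have hj' : j ∈ E' := by
        rw [hE', mem_filter]
        exact ⟨mem_univ _, by rw [← ha']; exact a.2, by rw [← hb']; exact b.2⟩
      apply hI ⟨j, hj'⟩
      constructor
      · have : B.src ⟨j, hj'⟩ = a := Subtype.ext ha'.symm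
        rw [this]; exact ha
      · have : B.tgt ⟨j, hj'⟩ = b := Subtype.ext hb'.symm
        rw [this]; exact hb)
    have h2 : (I'.card : ℝ) = I.card := by rw [hI', card_map]
    rw [h2] at h1
    rw [hcardV]
    have h3 : ε / 2 * N ≤ ε * V'.card := by
      have := mul_le_mul_of_nonneg_left hV'card hε.le
      have h4 : 0 ≤ ε * N := by positivity
      linarith
    have h4 : ε * (V'.card : ℝ) ≤ ε0 * V'.card := mul_le_mul_of_nonneg_right hεε0 hVpos.le
    linarith

end Pool.Agent.Lib.MP_cff830_lc.AC0
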