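import Pool.Agent.Lib.MP_cff830_lc.AC0.Stmts

/-! A4: counting families of permutations with prescribed values. -/

namespace Pool.Agent.Lib.MP_cff830_lc.AC0

open Finset

theorem count_step {V S : Type} [Fintype V] [DecidableEq V] [Fintype S] [DecidableEq S]
    (L : Finset (V × S)) (c : V × S → S) (x : V × S) (hx : x ∉ L)
    (hinj : ∀ y ∈ L, y.1 = x.1 → c y ≠ c x) :
    cnt (fun μ : V → Equiv.Perm S => ∀ y ∈ L, μ y.1 (c y) = y.2) ≤
      cnt (fun μ : V → Equiv.Perm S => ∀ y ∈ insert x L, μ y.1 (c y) = y.2) *
        Fintype.card S := by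
  classical
  unfold cnt
  rw [← Finset.card_univ (α := S), ← Finset.card_product]
  apply Finset.card_le_card_of_injOn (fun μ : V → Equiv.Perm S =>
    (Function.update μ x.1 (μ x.1 * Equiv.swap ((μ x.1)⁻¹ x.2) (c x)), (μ x.1)⁻¹ x.2))
  · intro μ hμ
    have hμ' : ∀ y ∈ L, μ y.1 (c y) = y.2 := by simpa using hμ
    simp only [Finset.coe_product, Set.mem_prod, Finset.mem_coe, Finset.mem_filter,
      Finset.mem_univ, true_and, and_true]
    intro y hy
    rcases Finset.mem_insert.1 hy with rfl | hyL
    · simp
    · by_cases h1 : y.1 = x.1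
      · have h2 : c y ≠ c x := hinj y hyL h1
        have h3 : c y ≠ (μ x.1)⁻¹ x.2 := by
          intro h
          have h4 := hμ' y hyL
          rw [h, h1] at h4
          have h5 : x.2 = y.2 := by simpa using h4
          exact hx ((Prod.ext h1 h5.symm : y = x) ▸ hyL)
        rw [h1, Function.update_self, Equiv.Perm.mul_apply, Equiv.swap_apply_of_ne_of_ne h3 h2,
          ← h1]
        exact hμ' y hyL
      · rw [Function.update_of_ne h1]
        exact hμ' y hyL
  · intro μ _ ν _ h
    have h1 := (Prod.mk.injEq _ _ _ _).mp h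
    obtain ⟨ha, hb⟩ := h1
    funext v
    by_cases hv : v = x.1
    · subst hv
      have := congrFun ha x.1
      rw [Function.update_self, Function.update_self, hb] at this
      exact mul_right_cancel this
    · have := congrFun ha v
      rwa [Function.update_of_ne hv, Function.update_of_ne hv] at this

/-- A4 -/
theorem stCount : StCount := by
  intro V S _ _ _ _ L c
  induction L using Finset.induction_on with
  | empty =>
    intro _
    unfold cnt
    simp
  | insert x L hx ih =>
    intro hinj
    have h1 := ih (fun y hy z hz => hinj y (Finset.mem_insert_of_mem hy) z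
      (Finset.mem_insert_of_mem hz))
    have h2 := count_step L c x hx (fun y hy h1 h2 => by
      have := hinj y (Finset.mem_insert_of_mem hy) x (Finset.mem_insert_self _ _) h1 h2
      exact hx (this ▸ hy))
    rw [Finset.card_insert_of_notMem hx, pow_succ]
    calc Fintype.card (V → Equiv.Perm S) ≤ _ := h1
      _ ≤ (cnt (fun μ : V → Equiv.Perm S => ∀ y ∈ insert x L, μ y.1 (c y) = y.2) *
        Fintype.card S) * Fintype.card S ^ L.card := Nat.mul_le_mul_right _ h2
      _ = _ := by ring

end Pool.Agent.Lib.MP_cff830_lc.AC0
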