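import Pool.Agent.Lib.MP_cff830_lc.AC0.Model

/-!
# Constant-depth circuits and vertex cover: definitions for the proof

A finite base multigraph `B` (vertices `V`, edges `E`), slots `σ`, labels `σ × Bool`.
An instance: a type `t : σ → Bool` and, for each base vertex, a permutation of the labels.
The lift has vertex set `V × (σ × Bool)`; over the base edge `e` the label `p` at the source is
joined to the label `ptr B t l e p` at the target.
-/

namespace Pool.Agent.Lib.MP_cff830_lc.AC0

open Finset

/-- A multigraph: every edge has a source and a target. -/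
structure Base (V E : Type) where
  src : E → V
  tgt : E → V

/-- every nonempty set of at most `g` edges has an edge, not a loop, with an endpoint
that is on no other edge of the set -/
def Girthy {V E : Type} (B : Base V E) (g : ℕ) : Prop :=
  ∀ F : Finset E, F.Nonempty → F.card ≤ g →
    ∃ e ∈ F, B.src e ≠ B.tgt e ∧ ∃ v, (v = B.src e ∨ v = B.tgt e) ∧
      ∀ f ∈ F, f ≠ e → B.src f ≠ v ∧ B.tgt f ≠ v

/-- at most `Δ` edges at each vertex -/
def DegLe {V E : Type} [Fintype E] (B : Base V E) (Δ : ℕ) : Prop :=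
  ∀ v, cnt (fun e : E => B.src e = v ∨ B.tgt e = v) ≤ Δ

/-- `(e, p, q)`: over the base edge `e` the label `p` at the source is joined to the label `q`
at the target -/
abbrev Fact (E S : Type) := E × S × S

/-- over each base edge no label has two partners -/
def Cons {E S : Type} (T : Finset (Fact E S)) : Prop :=
  ∀ φ ∈ T, ∀ ψ ∈ T, φ.1 = ψ.1 → (φ.2.1 = ψ.2.1 ↔ φ.2.2 = ψ.2.2)

/-- the labelled vertex at the source end -/
def sl {V E S : Type} (B : Base V E) (φ : Fact E S) : V × S := (B.src φ.1, φ.2.1)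

/-- the labelled vertex at the target end -/
def tl {V E S : Type} (B : Base V E) (φ : Fact E S) : V × S := (B.tgt φ.1, φ.2.2)

/-- swap the two labels of each slot with `t j = true` -/
def tog {σ : Type} (t : σ → Bool) : Equiv.Perm (σ × Bool) where
  toFun x := (x.1, xor x.2 (t x.1))
  invFun x := (x.1, xor x.2 (t x.1))
  left_inv x := by simp
  right_inv x := by simp

/-- a permutation of the labels at each base vertex -/
abbrev Lam (V σ : Type) := V → Equiv.Perm (σ × Bool)

/-- the permutation carried by a base edge -/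
def ptr {V E σ : Type} (B : Base V E) (t : σ → Bool) (l : Lam V σ) (e : E) :
    Equiv.Perm (σ × Bool) := l (B.tgt e) * tog t * (l (B.src e))⁻¹

/-- the fact `φ` holds in the instance `(t, l)` -/
def Hold {V E σ : Type} (B : Base V E) (t : σ → Bool) (l : Lam V σ)
    (φ : Fact E (σ × Bool)) : Prop := ptr B t l φ.1 φ.2.1 = φ.2.2

/-- instances: the type at the special slot, and the labels -/
abbrev Ins (V σ : Type) := Bool × Lam V σ

/-- the fact `φ` holds in the instance `ω` of the system `(t, j0)` -/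
def HoldI {V E σ : Type} [DecidableEq σ] (B : Base V E) (t : σ → Bool) (j0 : σ)
    (ω : Ins V σ) (φ : Fact E (σ × Bool)) : Prop := Hold B (Function.update t j0 ω.1) ω.2 φ

/-- every value of `f` is certified by at most `r` facts -/
def Cert {V E σ : Type} [DecidableEq σ] (B : Base V E) (t : σ → Bool) (j0 : σ) (r : ℕ)
    (f : Ins V σ → Bool) : Prop :=
  ∀ ω, ∃ C : Finset (Fact E (σ × Bool)), C.card ≤ r ∧ (∀ φ ∈ C, HoldI B t j0 ω φ) ∧
    ∀ ω', (∀ φ ∈ C, HoldI B t j0 ω' φ) → f ω' = f ω

/-- one level of unbounded fan-in gates with free negations: `g j = ν` if and only if one of the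
chosen literals in the functions `f` is true -/
def IsLayer {ι α : Type} (f g : ι → α → Bool) : Prop :=
  ∀ j, ∃ (ν : Bool) (A : Finset (ι × Bool)), ∀ a, (g j a = ν ↔ ∃ x ∈ A, f x.1 a = x.2)

/-- labels with slot in `R` -/
def iso {σ : Type} (R : Finset σ) : (↥R × Bool) ≃ {x : σ × Bool // x.1 ∈ R} where
  toFun x := ⟨(x.1.1, x.2), x.1.2⟩
  invFun y := (⟨y.1.1, y.2⟩, y.1.2)
  left_inv _ := rfl
  right_inv _ := rfl

/-- the label with slot in `R`, as a label -/
def emb {σ : Type} {R : Finset σ} (x : ↥R × Bool) : σ × Bool := (x.1.1, x.2)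

/-- insert the permutations `μ` of the labels with slot in `R` into `l` -/
def ins {V σ : Type} [DecidableEq σ] (R : Finset σ) (l : Lam V σ) (μ : Lam V ↥R) : Lam V σ :=
  fun v => l v * (μ v).extendDomain (iso R)

/-- the restricted function -/
def res {V σ : Type} [DecidableEq σ] (R : Finset σ) (l : Lam V σ) (f : Ins V σ → Bool) :
    Ins V ↥R → Bool := fun ω => f (ω.1, ins R l ω.2)

/-- the restricted type -/
def rt {σ : Type} (R : Finset σ) (t : σ → Bool) : ↥R → Bool := fun j => t j

/-- `φ` is revealed by the restriction `(R, l)`: it holds and has its slot outside `R`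
(the value of `t` on `R` does not matter) -/
def Rev {V E σ : Type} (B : Base V E) (t : σ → Bool) (R : Finset σ) (l : Lam V σ)
    (φ : Fact E (σ × Bool)) : Prop :=
  Hold B t l φ ∧ ((l (B.src φ.1))⁻¹ φ.2.1).1 ∉ R

/-- `φ` is alive: it is revealed, or both its labels are hidden -/
def Alive {V E σ : Type} (B : Base V E) (t : σ → Bool) (R : Finset σ) (l : Lam V σ)
    (φ : Fact E (σ × Bool)) : Prop :=
  Rev B t R l φ ∨
    (((l (B.src φ.1))⁻¹ φ.2.1).1 ∈ R ∧ ((l (B.tgt φ.1))⁻¹ φ.2.2).1 ∈ R)

/-- the hidden parts of `T` and `T'` have no labelled vertex in common -/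
def Apart {V E σ : Type} (B : Base V E) (t : σ → Bool) (R : Finset σ) (l : Lam V σ)
    (T T' : Finset (Fact E (σ × Bool))) : Prop :=
  ∀ φ ∈ T, ¬ Rev B t R l φ → ∀ ψ ∈ T', ¬ Rev B t R l ψ →
    sl B φ ≠ sl B ψ ∧ sl B φ ≠ tl B ψ ∧ tl B φ ≠ sl B ψ ∧ tl B φ ≠ tl B ψ

/-- the restriction `(R, l)` is bad for the family `G`: no member is revealed, and there are `K`
alive members whose hidden parts are pairwise apart -/
def Bad {V E σ : Type} (B : Base V E) (t : σ → Bool) (K : ℕ)
    (G : Finset (Finset (Fact E (σ × Bool)))) (R : Finset σ) (l : Lam V σ) : Prop :=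
  (∀ T ∈ G, ∃ φ ∈ T, ¬ Rev B t R l φ) ∧
  ∃ T : Fin K → Finset (Fact E (σ × Bool)), (∀ i, T i ∈ G) ∧
    (∀ i, ∀ φ ∈ T i, Alive B t R l φ) ∧ ∀ i j, i ≠ j → Apart B t R l (T i) (T j)

/-- the sets `C \ A` for the members `C` of the family with `C ∪ A` consistent -/
noncomputable def FA {E σ : Type} [DecidableEq E] [DecidableEq σ]
    (F : Finset (Finset (Fact E (σ × Bool)))) (A : Finset (Fact E (σ × Bool))) :
    Finset (Finset (Fact E (σ × Bool))) := by
  classical exact (F.filter fun C => Cons (C ∪ A)).image fun C => C \ A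

/-- the admissible sets of slots -/
def IsR {σ : Type} (m : ℕ) (j0 : σ) (R : Finset σ) : Prop := R.card = m ∧ j0 ∈ R

/-- the lifted graph, its vertices numbered by `ψ` -/
def Gr {V E σ : Type} (B : Base V E) (t : σ → Bool) (l : Lam V σ) {n : ℕ}
    (ψ : V × (σ × Bool) ↪ Fin n) : SimpleGraph (Fin n) :=
  SimpleGraph.fromRel fun x y => ∃ φ : Fact E (σ × Bool), Hold B t l φ ∧
    x = ψ (sl B φ) ∧ y = ψ (tl B φ)

end Pool.Agent.Lib.MP_cff830_lc.AC0
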