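import Pool.Agent.Lib.MP_cff830_lc.AC0.Stmts
import Pool.Agent.Lib.MP_cff830_lc.AC0.Ins

/-!
# A9: consistent sets of facts hold in some instance
-/

namespace Pool.Agent.Lib.MP_cff830_lc.AC0

open Finset

theorem stExt (h2 : StRep) (h4 : StCount) : StExt := by
  classical
  intro V E σ _ _ _ _ _ _ B g hB hσ C hC hCg t
  -- the labels
  set L : Finset (V × (σ × Bool)) := C.biUnion (fun φ => {sl B φ, tl B φ}) with hL
  have hLcard : L.card ≤ 2 * g := by
    rw [hL]
    refine le_trans Finset.card_biUnion_le ?_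
    refine le_trans (Finset.sum_le_card_nsmul _ _ 2 (fun φ _ => Finset.card_le_two)) ?_
    rw [smul_eq_mul]
    omega
  have hslL : ∀ φ ∈ C, sl B φ ∈ L := by
    intro φ hφ
    rw [hL, Finset.mem_biUnion]
    exact ⟨φ, hφ, by simp⟩
  have htlL : ∀ φ ∈ C, tl B φ ∈ L := by
    intro φ hφ
    rw [hL, Finset.mem_biUnion]
    exact ⟨φ, hφ, by simp⟩
  -- injective fresh slots
  have hcard : Fintype.card ↥L ≤ Fintype.card σ := by
    rw [Fintype.card_coe]
    omega
  obtain ⟨fr0⟩ := Function.Embedding.nonempty_of_card_le hcard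
  haveI : Nonempty σ := by
    rw [← Fintype.card_pos_iff]
    omega
  set fr : V × (σ × Bool) → σ := fun x => if h : x ∈ L then fr0 ⟨x, h⟩ else Classical.arbitrary σ
    with hfr
  have hfrinj : ∀ x ∈ L, ∀ y ∈ L, fr x = fr y → x = y := by
    intro x hx y hy h
    simp only [hfr, dif_pos hx, dif_pos hy] at h
    have := fr0.injective h
    simpa using this
  obtain ⟨rep, bit, hr1, hr2, hr3, hr4⟩ := h2 V E (σ × Bool) B g hB C hC hCg (fun x => t (fr x))
  have hrepL : ∀ x ∈ L, rep x ∈ L := by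
    intro x hx
    exact hr4 (L : Set _) (fun φ hφ => by
      simp only [Finset.mem_coe]
      exact iff_of_true (hslL φ hφ) (htlL φ hφ)) x hx
  set c : V × (σ × Bool) → σ × Bool := fun x => (fr (rep x), bit x) with hc
  have hcinj : ∀ x ∈ L, ∀ y ∈ L, x.1 = y.1 → c x = c y → x = y := by
    intro x hx y hy h1 hcc
    simp only [hc, Prod.mk.injEq] at hcc
    exact hr2 x y h1 (hfrinj _ (hrepL x hx) _ (hrepL y hy) hcc.1)
  have h5 := h4 V (σ × Bool) L c hcinj
  have h6 : 0 < cnt (fun μ : V → Equiv.Perm (σ × Bool) => ∀ x ∈ L, μ x.1 (c x) = x.2) := by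
    rcases Nat.eq_zero_or_pos (cnt (fun μ : V → Equiv.Perm (σ × Bool) =>
      ∀ x ∈ L, μ x.1 (c x) = x.2)) with h | h
    · rw [h, zero_mul] at h5
      have : 0 < Fintype.card (V → Equiv.Perm (σ × Bool)) := Fintype.card_pos
      omega
    · exact h
  rw [cnt_eq, Finset.card_pos] at h6
  obtain ⟨l, hl⟩ := h6
  rw [Finset.mem_filter] at hl
  refine ⟨l, ?_⟩
  intro φ hφ
  rw [hold_iff]
  have h7 := hl.2 _ (hslL φ hφ)
  have h8 := hl.2 _ (htlL φ hφ)
  simp only [sl] at h7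
  simp only [tl] at h8
  have h9 : (l (B.src φ.1))⁻¹ φ.2.1 = c (sl B φ) := by
    rw [Equiv.Perm.inv_eq_iff_eq]
    exact h7.symm
  have h10 : (l (B.tgt φ.1))⁻¹ φ.2.2 = c (tl B φ) := by
    rw [Equiv.Perm.inv_eq_iff_eq]
    exact h8.symm
  rw [h9, h10, tog_apply]
  simp only [hc]
  rw [hr3 φ hφ, hr1 φ hφ]

end Pool.Agent.Lib.MP_cff830_lc.AC0
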