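import Pool.Agent.Lib.MP_cff830_lc.AC0.Stmts
import Pool.Agent.Lib.MP_cff830_lc.AC0.Ins

/-!
# Two-colouring few edges, and the gauge map
-/

namespace Pool.Agent.Lib.MP_cff830_lc.AC0

open Finset

theorem stTwo : StTwo := by
  intro V E _ _ B g hB F
  induction F using Finset.strongInduction with
  | H F ih =>
    intro hF
    by_cases hne : F.Nonempty
    · obtain ⟨e, he, hst, v, hv, hleaf⟩ := hB F hne hF
      obtain ⟨s, hs⟩ := ih (F.erase e) (Finset.erase_ssubset he)
        ((Finset.card_le_card (Finset.erase_subset _ _)).trans hF)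
      rcases hv with rfl | rfl
      · refine ⟨Function.update s (B.src e) (!(s (B.tgt e))), fun f hf => ?_⟩
        by_cases hfe : f = e
        · subst hfe
          rw [Function.update_self, Function.update_of_ne (Ne.symm hst)]
          cases s (B.tgt f) <;> simp
        · obtain ⟨h1, h2⟩ := hleaf f hf hfe
          rw [Function.update_of_ne h1, Function.update_of_ne h2]
          exact hs f (Finset.mem_erase.2 ⟨hfe, hf⟩)
      · refine ⟨Function.update s (B.tgt e) (!(s (B.src e))), fun f hf => ?_⟩
        by_cases hfe : f = e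
        · subst hfe
          rw [Function.update_self, Function.update_of_ne hst]
          cases s (B.src f) <;> simp
        · obtain ⟨h1, h2⟩ := hleaf f hf hfe
          rw [Function.update_of_ne h1, Function.update_of_ne h2]
          exact hs f (Finset.mem_erase.2 ⟨hfe, hf⟩)
    · rw [Finset.not_nonempty_iff_eq_empty] at hne
      subst hne
      exact ⟨fun _ => false, fun e he => absurd he (Finset.notMem_empty _)⟩

/-- counts are invariant under a bijection -/
theorem cnt_equiv {α : Type} [Fintype α] (π : α ≃ α) {P Q : α → Prop}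
    (h : ∀ a, P (π a) ↔ Q a) : cnt Q = cnt P := by
  classical
  rw [cnt_eq, cnt_eq]
  refine Finset.card_bij (fun a _ => π a) ?_ ?_ ?_
  · intro a ha
    simp only [Finset.mem_filter, Finset.mem_univ, true_and] at ha ⊢
    exact (h a).2 ha
  · intro a _ b _ hab
    exact π.injective hab
  · intro b hb
    simp only [Finset.mem_filter, Finset.mem_univ, true_and] at hb
    refine ⟨π.symm b, ?_, π.apply_symm_apply b⟩
    simp only [Finset.mem_filter, Finset.mem_univ, true_and]
    rw [← h, π.apply_symm_apply]
    exact hb

theorem stGauge (hT : StTwo) : StGauge := by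
  intro V E σ _ _ _ _ _ _ B g hB t j0 C hC
  classical
  obtain ⟨s, hs⟩ := hT V E B g hB (C.image Prod.fst) (Finset.card_image_le.trans hC)
  -- the gauge permutation at each vertex
  let h : V → Equiv.Perm (σ × Bool) := fun v => tog (fun j => decide (j = j0) && s v)
  let π : Lam V σ ≃ Lam V σ :=
    { toFun := fun l v => l v * h v
      invFun := fun l v => l v * (h v)⁻¹
      left_inv := fun l => by funext v; exact mul_inv_cancel_right _ _
      right_inv := fun l => by funext v; exact inv_mul_cancel_right _ _ }
  have key : ∀ (l : Lam V σ) (φ : Fact E (σ × Bool)), φ ∈ C →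
      (HoldI B t j0 (false, π l) φ ↔ HoldI B t j0 (true, l) φ) := by
    intro l φ hφ
    have hne := hs φ.1 (Finset.mem_image_of_mem _ hφ)
    unfold HoldI
    rw [hold_iff, hold_iff]
    have e1 : ∀ (v : V) (p : σ × Bool), (π l v)⁻¹ p = h v ((l v)⁻¹ p) := by
      intro v p
      show (l v * h v)⁻¹ p = _
      rw [mul_inv_rev, Equiv.Perm.mul_apply]
      rfl
    rw [e1, e1]
    generalize ((l (B.src φ.1))⁻¹ φ.2.1) = x
    generalize ((l (B.tgt φ.1))⁻¹ φ.2.2) = y
    show tog (Function.update t j0 false) (h _ x) = h _ y ↔ tog (Function.update t j0 true) x = y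
    obtain ⟨x1, x2⟩ := x
    obtain ⟨y1, y2⟩ := y
    simp only [h, tog_apply, Prod.mk.injEq]
    by_cases hx : x1 = j0
    · subst hx
      constructor
      · rintro ⟨rfl, h2⟩
        refine ⟨rfl, ?_⟩
        simp only [Function.update_self, decide_true, Bool.true_and] at h2 ⊢
        revert h2 hne
        cases s (B.src φ.1) <;> cases s (B.tgt φ.1) <;> cases x2 <;> cases y2 <;> simp
      · rintro ⟨rfl, h2⟩
        refine ⟨rfl, ?_⟩
        simp only [Function.update_self, decide_true, Bool.true_and] at h2 ⊢
        revert h2 hne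
        cases s (B.src φ.1) <;> cases s (B.tgt φ.1) <;> cases x2 <;> cases y2 <;> simp
    · constructor
      · rintro ⟨rfl, h2⟩
        refine ⟨rfl, ?_⟩
        simpa [hx, Function.update_of_ne hx] using h2
      · rintro ⟨rfl, h2⟩
        refine ⟨rfl, ?_⟩
        simpa [hx, Function.update_of_ne hx] using h2
  symm
  exact cnt_equiv π fun l => ⟨fun H φ hφ => (key l φ hφ).1 (H φ hφ),
    fun H φ hφ => (key l φ hφ).2 (H φ hφ)⟩

end Pool.Agent.Lib.MP_cff830_lc.AC0
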