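import Pool.Agent.Lib.MP_cff830_lc.AC0.Defs

/-!
# Statements of the modules
-/

namespace Pool.Agent.Lib.MP_cff830_lc.AC0

open Finset

/-- A1. Base graphs: bounded degree, locally forests, no large independent set. -/
def StBase : Prop :=
  ∀ ε : ℝ, 0 < ε → ∃ Δ : ℕ, ∀ g : ℕ, ∃ (N M : ℕ) (B : Base (Fin N) (Fin M)),
    0 < N ∧ DegLe B Δ ∧ Girthy B g ∧
    ∀ I : Finset (Fin N), (∀ e, ¬ (B.src e ∈ I ∧ B.tgt e ∈ I)) → (I.card : ℝ) ≤ ε * N

/-- A2. Representatives and bits for a consistent set of at most `g` facts. -/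
def StRep : Prop :=
  ∀ (V E S : Type) [DecidableEq V] [DecidableEq E] [DecidableEq S] (B : Base V E) (g : ℕ),
    Girthy B g → ∀ T : Finset (Fact E S), Cons T → T.card ≤ g → ∀ τ : V × S → Bool,
    ∃ (rep : V × S → V × S) (bit : V × S → Bool),
      (∀ φ ∈ T, rep (sl B φ) = rep (tl B φ)) ∧
      (∀ x y, x.1 = y.1 → rep x = rep y → x = y) ∧
      (∀ φ ∈ T, bit (tl B φ) = xor (bit (sl B φ)) (τ (rep (sl B φ)))) ∧
      (∀ H : Set (V × S), (∀ φ ∈ T, sl B φ ∈ H ↔ tl B φ ∈ H) → ∀ x ∈ H, rep x ∈ H)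

/-- A3. At most `g` edges can be 2-coloured. -/
def StTwo : Prop :=
  ∀ (V E : Type) [DecidableEq V] [DecidableEq E] (B : Base V E) (g : ℕ),
    Girthy B g → ∀ F : Finset E, F.card ≤ g → ∃ s : V → Bool, ∀ e ∈ F,
      s (B.src e) ≠ s (B.tgt e)

/-- A4. Prescribing the values of the permutations at the labels of `L`. -/
def StCount : Prop :=
  ∀ (V S : Type) [Fintype V] [DecidableEq V] [Fintype S] [DecidableEq S]
    (L : Finset (V × S)) (c : V × S → S),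
    (∀ x ∈ L, ∀ y ∈ L, x.1 = y.1 → c x = c y → x = y) →
    Fintype.card (V → Equiv.Perm S) ≤
      cnt (fun μ : V → Equiv.Perm S => ∀ x ∈ L, μ x.1 (c x) = x.2) * Fintype.card S ^ L.card

/-- A5. The hypergraph lemma. -/
def StH : Prop :=
  ∀ (X : Type) [Fintype X] [DecidableEq X] (j0 : X) (F : Finset (Finset X)) (r m K : ℕ),
    (∀ T ∈ F, T.card ≤ r ∧ j0 ∉ T) → K + 1 ≤ m → m ≤ Fintype.card X →
    cnt (fun R : Finset X => IsR m j0 R ∧ (∀ T ∈ F, ∃ x ∈ T, x ∈ R) ∧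
        ∃ T : Fin K → Finset X, (∀ i, T i ∈ F) ∧ ∀ i j, i ≠ j → ∀ x ∈ R, x ∈ T i → x ∉ T j) *
      (Fintype.card X - 1) ^ K ≤
    (r * (m - 1)) ^ K * cnt (fun R : Finset X => IsR m j0 R)

/-- A6. A random restriction is bad for a fixed family with small probability. -/
def StA : Prop :=
  ∀ (V E σ : Type) [Fintype V] [DecidableEq V] [Fintype E] [DecidableEq E] [Fintype σ]
    [DecidableEq σ] (B : Base V E) (t : σ → Bool) (j0 : σ) (g r K m : ℕ),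
    Girthy B g → r * K ≤ g → 2 * r * K + 1 ≤ m → K + 1 ≤ m → m ≤ Fintype.card σ →
    ∀ G : Finset (Finset (Fact E (σ × Bool))), (∀ T ∈ G, Cons T ∧ T.card ≤ r) →
    cnt (fun ρ : Finset σ × Lam V σ => IsR m j0 ρ.1 ∧ Bad B t K G ρ.1 ρ.2) *
      (Fintype.card σ - 1) ^ K ≤
    ((2 * m) ^ (2 * r) * (r * (m - 1))) ^ K *
      (cnt (fun R : Finset σ => IsR m j0 R) * Fintype.card (Lam V σ))

/-- A7. If a restriction is bad for none of the families `FA F A`, the restricted function is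
certifiable. -/
def StB : Prop :=
  ∀ (V E σ : Type) [Fintype V] [DecidableEq V] [Fintype E] [DecidableEq E] [Fintype σ]
    [DecidableEq σ] (B : Base V E) (t : σ → Bool) (j0 : σ) (Δ r : ℕ), DegLe B Δ →
    ∀ (R : Finset σ) (hj : j0 ∈ R) (l : Lam V σ) (F : Finset (Finset (Fact E (σ × Bool)))),
    (∀ C ∈ F, C.card ≤ r) → ∀ h : Ins V σ → Bool,
    (∀ ω, h ω = true ↔ ∃ C ∈ F, ∀ φ ∈ C, HoldI B t j0 ω φ) →
    ∀ K s : ℕ → ℕ, s 0 = 0 → (∀ i, s (i + 1) = s i + 4 * r * Δ * K i) →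
    (∀ i < r, ∀ A : Finset (Fact E (σ × Bool)), A.card ≤ s i → ¬ Bad B t (K i) (FA F A) R l) →
    Cert B (rt R t) ⟨j0, hj⟩ (max r (s r)) (res R l h)

/-- A8. One switching step: with probability at least `1 - M ^ (-k)` all functions of the next
level are certifiable after a random restriction. -/
def StSwitch : Prop :=
  ∀ k r Δ : ℕ, ∃ C g r' : ℕ, 0 < C ∧
    ∀ (V E : Type) [Fintype V] [DecidableEq V] [Fintype E] [DecidableEq E] (B : Base V E),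
    DegLe B Δ → Girthy B g → ∃ x0 : ℕ, ∀ m ≥ x0, ∀ (σ : Type) [Fintype σ] [DecidableEq σ]
    (t : σ → Bool) (j0 : σ), Fintype.card σ = m ^ C → ∀ (ι : Type) [Fintype ι],
    Fintype.card ι ≤ (m ^ C) ^ k → ∀ f h : ι → Ins V σ → Bool,
    (∀ j, Cert B t j0 r (f j)) → IsLayer f h →
    cnt (fun ρ : Finset σ × Lam V σ => IsR m j0 ρ.1 ∧
        ∃ hj : j0 ∈ ρ.1, ∃ j, ¬ Cert B (rt ρ.1 t) ⟨j0, hj⟩ r' (res ρ.1 ρ.2 (h j))) *
      (m ^ C) ^ k ≤ cnt (fun R : Finset σ => IsR m j0 R) * Fintype.card (Lam V σ)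

/-- A9. Consistent sets of at most `g` facts hold in some instance. -/
def StExt : Prop :=
  ∀ (V E σ : Type) [Fintype V] [DecidableEq V] [Fintype E] [DecidableEq E] [Fintype σ]
    [DecidableEq σ] (B : Base V E) (g : ℕ), Girthy B g → 2 * g + 1 ≤ Fintype.card σ →
    ∀ C : Finset (Fact E (σ × Bool)), Cons C → C.card ≤ g → ∀ t : σ → Bool,
    ∃ l : Lam V σ, ∀ φ ∈ C, Hold B t l φ

/-- A10. The number of instances in which a set of at most `g` facts holds does not depend on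
the type at the special slot. -/
def StGauge : Prop :=
  ∀ (V E σ : Type) [Fintype V] [DecidableEq V] [Fintype E] [DecidableEq E] [Fintype σ]
    [DecidableEq σ] (B : Base V E) (g : ℕ), Girthy B g → ∀ (t : σ → Bool) (j0 : σ)
    (C : Finset (Fact E (σ × Bool))), C.card ≤ g →
    cnt (fun l : Lam V σ => ∀ φ ∈ C, HoldI B t j0 (false, l) φ) =
      cnt (fun l : Lam V σ => ∀ φ ∈ C, HoldI B t j0 (true, l) φ)

/-- A11. Certifiable functions do not see the type. -/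
def StZero : Prop :=
  ∀ (V E σ : Type) [Fintype V] [DecidableEq V] [Fintype E] [DecidableEq E] [Fintype σ]
    [DecidableEq σ] (B : Base V E) (r g : ℕ), Girthy B g → 2 * r * r + 2 * r ≤ g →
    2 * g + 1 ≤ Fintype.card σ → ∀ (t : σ → Bool) (j0 : σ) (f : Ins V σ → Bool),
    Cert B t j0 r f →
    cnt (fun l : Lam V σ => f (false, l) = true) = cnt (fun l : Lam V σ => f (true, l) = true)

/-- The main claim: `d` levels of gates over certifiable functions. -/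
def Claim (d : ℕ) : Prop :=
  ∀ k r Δ : ℕ, ∃ c g : ℕ, 0 < c ∧
    ∀ (V E : Type) [Fintype V] [DecidableEq V] [Fintype E] [DecidableEq E] (B : Base V E),
    DegLe B Δ → Girthy B g → ∃ x0 : ℕ, ∀ x ≥ x0, ∀ (σ : Type) [Fintype σ] [DecidableEq σ]
    (t : σ → Bool) (j0 : σ), Fintype.card σ = x ^ c → ∀ (ι : Type) [Fintype ι],
    Fintype.card ι ≤ (x ^ c) ^ k → ∀ f : ℕ → ι → Ins V σ → Bool,
    (∀ j, Cert B t j0 r (f 0 j)) → (∀ i < d, IsLayer (f i) (f (i + 1))) → ∀ j,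
    |((cnt (fun l : Lam V σ => f d j (false, l) = true) : ℕ) : ℝ) -
        ((cnt (fun l : Lam V σ => f d j (true, l) = true) : ℕ) : ℝ)| * ((x : ℝ) ^ c) ^ k ≤
      (Fintype.card (Lam V σ) : ℝ)

/-- A12. The induction step. -/
def StStep : Prop := ∀ d, Claim d → Claim (d + 1)

/-- A13. The gates of a circuit do not distinguish the two types of lifts. -/
def StHyb : Prop :=
  ∀ d k Δ : ℕ, ∃ c g : ℕ, 0 < c ∧
    ∀ (V E : Type) [Fintype V] [DecidableEq V] [Fintype E] [DecidableEq E] (B : Base V E),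
    DegLe B Δ → Girthy B g → ∃ x0 : ℕ, ∀ x ≥ x0, ∀ n : ℕ, n ≤ (x ^ c) ^ 2 →
    ∀ ψ : V × (Fin (x ^ c) × Bool) ↪ Fin n, ∀ s : ℕ, s ≤ n ^ k →
    ∀ F : Fin s → SimpleGraph (Fin n) → Prop, IsCircuit n s d F → ∀ j,
    |((cnt (fun l : Lam V (Fin (x ^ c)) => F j (Gr B (fun _ => false) l ψ)) : ℕ) : ℝ) -
        ((cnt (fun l : Lam V (Fin (x ^ c)) => F j (Gr B (fun _ => true) l ψ)) : ℕ) : ℝ)| *
        ((x : ℝ) ^ c) ^ k ≤
      (Fintype.card (Lam V (Fin (x ^ c))) : ℝ)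

/-- A14. The lifted graphs. -/
def StLift : Prop :=
  ∀ (V E : Type) [Fintype V] [DecidableEq V] [Fintype E] [DecidableEq E] (B : Base V E)
    (Δ g : ℕ) (ε : ℝ), DegLe B Δ → Girthy B g → 2 ≤ g →
    (∀ I : Finset V, (∀ e, ¬ (B.src e ∈ I ∧ B.tgt e ∈ I)) → (I.card : ℝ) ≤ ε * Fintype.card V) →
    ∀ (m n : ℕ) (ψ : V × (Fin m × Bool) ↪ Fin n) (l : Lam V (Fin m)),
    (∀ t : Fin m → Bool,
      (∀ v, cnt (fun w => (Gr B t l ψ).Adj v w) ≤ Δ) ∧
      (∀ v (p : (Gr B t l ψ).Walk v v), p.IsCycle → g < p.length) ∧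
      vc (Gr B t l ψ) ≤ Fintype.card V * (2 * m)) ∧
    (1 - ε) * (Fintype.card V * (2 * m)) ≤ (vc (Gr B (fun _ => false) l ψ) : ℝ) ∧
    vc (Gr B (fun _ => true) l ψ) ≤ Fintype.card V * m

/-- The lower bound: below the ratio 2, constant depth and polynomial size do not suffice, even
for graphs of bounded degree and large girth. -/
def StMain : Prop :=
  ∀ c : ℝ, c < 2 → ∃ Δ : ℕ, ∀ d k g : ℕ, ∃ n₀ : ℕ, ∀ n ≥ n₀, ∀ s ≤ n ^ k,
    ∀ F : Fin s → SimpleGraph (Fin n) → Prop, IsCircuit n s d F →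
    ∀ a : Fin s → ℝ, (∀ i, 0 ≤ a i) → ∃ G : SimpleGraph (Fin n),
      (∀ v, cnt (fun w => G.Adj v w) ≤ Δ) ∧
      (∀ v (p : G.Walk v v), p.IsCycle → g < p.length) ∧
      ¬ ((vc G : ℝ) ≤ ∑ i, a i * ind (F i G) ∧ ∑ i, a i * ind (F i G) ≤ c * (vc G : ℝ))

/-- the ball of radius `i` around `v` -/
def ball {n : ℕ} (G : SimpleGraph (Fin n)) (v : Fin n) : ℕ → Set (Fin n)
  | 0 => {v}
  | i + 1 => {x | x ∈ ball G v i ∨ ∃ y ∈ ball G v i, G.Adj y x}

/-- `P G v` depends only on the edges at the vertices in the ball of radius `T` around `v` -/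
def Local {n : ℕ} (T : ℕ) (P : SimpleGraph (Fin n) → Fin n → Prop) : Prop :=
  ∀ (G H : SimpleGraph (Fin n)) v, (∀ x ∈ ball G v T, ∀ y, G.Adj x y ↔ H.Adj x y) →
    (P G v ↔ P H v)

/-- A15. A local rule for ratios above 2. -/
def StU1 : Prop :=
  ∀ c : ℝ, 2 < c → ∀ Δ : ℕ, ∃ T : ℕ, ∀ n : ℕ, ∃ P : SimpleGraph (Fin n) → Fin n → Prop,
    Local T P ∧ ∀ G : SimpleGraph (Fin n), (∀ v, cnt (fun w => G.Adj v w) ≤ Δ) →
      ∃ C : Finset (Fin n), IsVC G C ∧ (∀ v, v ∈ C ↔ P G v) ∧ (C.card : ℝ) ≤ c * (vc G : ℝ)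

/-- A16. Local rules have depth 2 circuits of polynomial size on graphs of bounded degree. -/
def StU2 : Prop :=
  ∀ T Δ : ℕ, ∃ k : ℕ, ∀ n ≥ 2, ∀ P : SimpleGraph (Fin n) → Fin n → Prop, Local T P →
    ∃ s ≤ n ^ k, ∃ F : Fin s → SimpleGraph (Fin n) → Prop, IsCircuit n s 2 F ∧
    ∃ o : Fin n → Fin s, ∀ G : SimpleGraph (Fin n), (∀ v, cnt (fun w => G.Adj v w) ≤ Δ) →
      ∀ v, F (o v) G ↔ P G v

/-- The upper bound: above the ratio 2, depth 2 and polynomial size suffice for graphs of bounded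
degree. -/
def StUpper : Prop :=
  ∀ c : ℝ, 2 < c → ∀ Δ : ℕ, ∃ k : ℕ, ∀ n ≥ 2, ∃ s ≤ n ^ k,
    ∃ F : Fin s → SimpleGraph (Fin n) → Prop, IsCircuit n s 2 F ∧
    ∃ o : Fin n → Fin s, ∀ G : SimpleGraph (Fin n), (∀ v, cnt (fun w => G.Adj v w) ≤ Δ) →
      ∃ C : Finset (Fin n), IsVC G C ∧ (∀ v, v ∈ C ↔ F (o v) G) ∧
        (C.card : ℝ) ≤ c * (vc G : ℝ)

end Pool.Agent.Lib.MP_cff830_lc.AC0
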