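import Pool.Agent.Lib.MP_cff830_lc.AC0.Ins
import Pool.Agent.Lib.MP_cff830_lc.AC0.Stmts

/-!
# From circuits to layers, and the hybrid argument over the slots
-/

namespace Pool.Agent.Lib.MP_cff830_lc.AC0

open Finset

section

variable {V E σ : Type} {B : Base V E} {g : ℕ}

theorem girthy_loop (h : Girthy B g) (hg : 2 ≤ g) (e : E) : B.src e ≠ B.tgt e := by
  obtain ⟨e', he', h1, -⟩ := h {e} (Finset.singleton_nonempty e) (by simp; omega)
  rw [Finset.mem_singleton] at he'
  rwa [he'] at h1

theorem girthy_unique (h : Girthy B g) (hg : 2 ≤ g) {e e' : E}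
    (h1 : B.src e = B.src e' ∨ B.src e = B.tgt e')
    (h2 : B.tgt e = B.src e' ∨ B.tgt e = B.tgt e') : e = e' := by
  classical
  by_contra hne
  obtain ⟨f, hf, -, v, hv, hf'⟩ := h {e, e'} (by simp)
    (le_trans Finset.card_le_two hg)
  have h3 := girthy_loop h hg e
  have h4 := girthy_loop h hg e'
  rw [Finset.mem_insert, Finset.mem_singleton] at hf
  rcases hf with rfl | rfl
  · obtain ⟨g1, g2⟩ := hf' e' (by simp) (Ne.symm hne)
    rcases hv with rfl | rfl
    · rcases h1 with h1 | h1
      · exact g1 h1.symm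
      · exact g2 h1.symm
    · rcases h2 with h2 | h2
      · exact g1 h2.symm
      · exact g2 h2.symm
  · obtain ⟨g1, g2⟩ := hf' e (by simp) hne
    rcases hv with rfl | rfl
    · rcases h1 with h1 | h1
      · exact g1 h1
      · rcases h2 with h2 | h2
        · exact g2 h2
        · exact h3 (h1.trans h2.symm)
    · rcases h1 with h1 | h1
      · rcases h2 with h2 | h2
        · exact h3 (h1.trans h2.symm)
        · exact g2 h2
      · exact g1 h1

open Classical in
/-- adjacency in the lifted graph is certified by one fact -/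
theorem cert_adj [DecidableEq σ] (h : Girthy B g) (hg : 2 ≤ g) (t : σ → Bool) (j0 : σ) {n : ℕ}
    (ψ : V × (σ × Bool) ↪ Fin n) (x y : Fin n) :
    Cert B t j0 1 (fun ω => decide ((Gr B (Function.update t j0 ω.1) ω.2 ψ).Adj x y)) := by
  intro ω
  by_cases hadj : (Gr B (Function.update t j0 ω.1) ω.2 ψ).Adj x y
  · have hadj' := hadj
    unfold Gr at hadj'
    rw [SimpleGraph.fromRel_adj] at hadj'
    obtain ⟨hne, hh⟩ := hadj'
    obtain ⟨φ, hφ, ho⟩ : ∃ φ : Fact E (σ × Bool), Hold B (Function.update t j0 ω.1) ω.2 φ ∧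
        ((x = ψ (sl B φ) ∧ y = ψ (tl B φ)) ∨ (y = ψ (sl B φ) ∧ x = ψ (tl B φ))) := by
      rcases hh with ⟨φ, h1, h2, h3⟩ | ⟨φ, h1, h2, h3⟩
      · exact ⟨φ, h1, Or.inl ⟨h2, h3⟩⟩
      · exact ⟨φ, h1, Or.inr ⟨h2, h3⟩⟩
    refine ⟨{φ}, by simp, ?_, ?_⟩
    · intro φ' hφ'
      rw [Finset.mem_singleton] at hφ'
      rw [hφ']
      exact hφ
    · intro ω' hω'
      have h1 : Hold B (Function.update t j0 ω'.1) ω'.2 φ := hω' φ (by simp)
      have h2 : (Gr B (Function.update t j0 ω'.1) ω'.2 ψ).Adj x y := by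
        unfold Gr
        rw [SimpleGraph.fromRel_adj]
        refine ⟨hne, ?_⟩
        rcases ho with ⟨h3, h4⟩ | ⟨h3, h4⟩
        · exact Or.inl ⟨φ, h1, h3, h4⟩
        · exact Or.inr ⟨φ, h1, h3, h4⟩
      simp only [h2, hadj]
  · -- the two vertices are not adjacent
    by_cases hex : ∃ (u v : V) (p q : σ × Bool) (e : E), x = ψ (u, p) ∧ y = ψ (v, q) ∧
        ((B.src e = u ∧ B.tgt e = v) ∨ (B.src e = v ∧ B.tgt e = u))
    · obtain ⟨u, v, p, q, e, rfl, rfl, ho⟩ := hex
      have key : ∀ ω' : Ins V σ, (Gr B (Function.update t j0 ω'.1) ω'.2 ψ).Adj (ψ (u, p)) (ψ (v, q)) →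
          (B.src e = u ∧ Hold B (Function.update t j0 ω'.1) ω'.2 (e, p, q)) ∨
          (B.src e = v ∧ Hold B (Function.update t j0 ω'.1) ω'.2 (e, q, p)) := by
        intro ω' hω'
        unfold Gr at hω'
        rw [SimpleGraph.fromRel_adj] at hω'
        obtain ⟨hne, hh⟩ := hω'
        rcases hh with ⟨⟨e', p', q'⟩, h1, h2, h3⟩ | ⟨⟨e', p', q'⟩, h1, h2, h3⟩
        · have h2' := ψ.injective h2
          have h3' := ψ.injective h3
          simp only [sl, tl, Prod.mk.injEq] at h2' h3'
          obtain ⟨h4, rfl⟩ := h2'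
          obtain ⟨h5, rfl⟩ := h3'
          have he : e = e' := by
            apply girthy_unique h hg
            · rcases ho with ⟨a, b⟩ | ⟨a, b⟩
              · left; rw [a, h4]
              · right; rw [a, h5]
            · rcases ho with ⟨a, b⟩ | ⟨a, b⟩
              · right; rw [b, h5]
              · left; rw [b, h4]
          subst he
          exact Or.inl ⟨h4.symm, h1⟩
        · have h2' := ψ.injective h2
          have h3' := ψ.injective h3
          simp only [sl, tl, Prod.mk.injEq] at h2' h3'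
          obtain ⟨h4, rfl⟩ := h2'
          obtain ⟨h5, rfl⟩ := h3'
          have he : e = e' := by
            apply girthy_unique h hg
            · rcases ho with ⟨a, b⟩ | ⟨a, b⟩
              · right; rw [a, h5]
              · left; rw [a, h4]
            · rcases ho with ⟨a, b⟩ | ⟨a, b⟩
              · left; rw [b, h4]
              · right; rw [b, h5]
          subst he
          exact Or.inr ⟨h4.symm, h1⟩
      have hnl := girthy_loop h hg e
      rcases ho with ⟨ho1, ho2⟩ | ⟨ho1, ho2⟩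
      · refine ⟨{(e, p, ptr B (Function.update t j0 ω.1) ω.2 e p)}, by simp, ?_, ?_⟩
        · intro φ' hφ'
          rw [Finset.mem_singleton] at hφ'
          rw [hφ']
          rfl
        · intro ω' hω'
          have h1 : ptr B (Function.update t j0 ω'.1) ω'.2 e p =
            ptr B (Function.update t j0 ω.1) ω.2 e p := hω' _ (Finset.mem_singleton_self _)
          have h2 : ¬ (Gr B (Function.update t j0 ω'.1) ω'.2 ψ).Adj (ψ (u, p)) (ψ (v, q)) := by
            intro hc
            rcases key ω' hc with ⟨-, h3⟩ | ⟨h3, -⟩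
            · have h4 : ptr B (Function.update t j0 ω'.1) ω'.2 e p = q := h3
              apply hadj
              unfold Gr
              rw [SimpleGraph.fromRel_adj]
              refine ⟨?_, Or.inl ⟨(e, p, q), ?_, ?_, ?_⟩⟩
              · intro h5
                have := ψ.injective h5
                simp only [Prod.mk.injEq] at this
                exact hnl (by rw [ho1, ho2, this.1])
              · show ptr B (Function.update t j0 ω.1) ω.2 e p = q
                rw [← h1, h4]
              · rw [← ho1]; rfl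
              · rw [← ho2]; rfl
            · exact hnl (by rw [h3, ho2])
          simp only [h2, hadj]
      · refine ⟨{(e, q, ptr B (Function.update t j0 ω.1) ω.2 e q)}, by simp, ?_, ?_⟩
        · intro φ' hφ'
          rw [Finset.mem_singleton] at hφ'
          rw [hφ']
          rfl
        · intro ω' hω'
          have h1 : ptr B (Function.update t j0 ω'.1) ω'.2 e q =
            ptr B (Function.update t j0 ω.1) ω.2 e q := hω' _ (Finset.mem_singleton_self _)
          have h2 : ¬ (Gr B (Function.update t j0 ω'.1) ω'.2 ψ).Adj (ψ (u, p)) (ψ (v, q)) := by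
            intro hc
            rcases key ω' hc with ⟨h3, -⟩ | ⟨-, h3⟩
            · exact hnl (by rw [h3, ho2])
            · have h4 : ptr B (Function.update t j0 ω'.1) ω'.2 e q = p := h3
              apply hadj
              unfold Gr
              rw [SimpleGraph.fromRel_adj]
              refine ⟨?_, Or.inr ⟨(e, q, p), ?_, ?_, ?_⟩⟩
              · intro h5
                have := ψ.injective h5
                simp only [Prod.mk.injEq] at this
                exact hnl (by rw [ho1, ho2, this.1])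
              · show ptr B (Function.update t j0 ω.1) ω.2 e q = p
                rw [← h1, h4]
              · rw [← ho1]; rfl
              · rw [← ho2]; rfl
          simp only [h2, hadj]
    · -- no base edge between the two vertices
      have key : ∀ ω' : Ins V σ, ¬ (Gr B (Function.update t j0 ω'.1) ω'.2 ψ).Adj x y := by
        intro ω' hω'
        apply hex
        unfold Gr at hω'
        rw [SimpleGraph.fromRel_adj] at hω'
        obtain ⟨hne, hh⟩ := hω'
        rcases hh with ⟨φ, h1, h2, h3⟩ | ⟨φ, h1, h2, h3⟩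
        · exact ⟨B.src φ.1, B.tgt φ.1, φ.2.1, φ.2.2, φ.1, h2, h3, Or.inl ⟨rfl, rfl⟩⟩
        · exact ⟨B.tgt φ.1, B.src φ.1, φ.2.2, φ.2.1, φ.1, h3, h2, Or.inr ⟨rfl, rfl⟩⟩
      refine ⟨∅, by simp, by simp, ?_⟩
      intro ω' _
      simp only [key ω', key ω]

/-- the type with `q` ones -/
def tq {M : ℕ} (q : ℕ) : Fin M → Bool := fun j => decide (j.val < q)

theorem tq_update_false {M : ℕ} (i : Fin M) :
    Function.update (tq (M := M) i.val) i false = tq i.val := by
  funext j
  by_cases h : j = i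
  · subst h; simp [tq]
  · rw [Function.update_of_ne h]

theorem tq_update_true {M : ℕ} (i : Fin M) :
    Function.update (tq (M := M) i.val) i true = tq (i.val + 1) := by
  funext j
  by_cases h : j = i
  · subst h; simp [tq]
  · rw [Function.update_of_ne h]
    have : j.val ≠ i.val := fun h' => h (Fin.ext h')
    simp only [tq]
    congr 1
    apply propext
    omega

theorem tq_zero {M : ℕ} : tq (M := M) 0 = fun _ => false := by
  funext j; simp [tq]

theorem tq_top {M : ℕ} : tq (M := M) M = fun _ => true := by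
  funext j; simp [tq]

open Classical in
/-- the levels of a circuit -/
noncomputable def lev [DecidableEq σ] (B : Base V E) (t : σ → Bool) (j0 : σ) {n s : ℕ}
    (ψ : V × (σ × Bool) ↪ Fin n) (lvl : Fin s → ℕ) (F : Fin s → SimpleGraph (Fin n) → Prop)
    (i : ℕ) : (Fin n × Fin n) ⊕ Fin s → Ins V σ → Bool
  | Sum.inl p, ω => decide ((Gr B (Function.update t j0 ω.1) ω.2 ψ).Adj p.1 p.2)
  | Sum.inr j, ω => decide (lvl j < i ∧ F j (Gr B (Function.update t j0 ω.1) ω.2 ψ))

open Classical in
theorem lev_layer [DecidableEq σ] (t : σ → Bool) (j0 : σ) {n s : ℕ}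
    (ψ : V × (σ × Bool) ↪ Fin n) (lvl : Fin s → ℕ) (F : Fin s → SimpleGraph (Fin n) → Prop)
    (hF : ∀ i, ∃ (A A' : Finset (Fin n × Fin n)) (L L' : Finset (Fin s)),
      (∀ j ∈ L, lvl j < lvl i) ∧ (∀ j ∈ L', lvl j < lvl i) ∧
      ((∀ G, F i G ↔ ((∃ p ∈ A, G.Adj p.1 p.2) ∨ (∃ p ∈ A', ¬ G.Adj p.1 p.2) ∨
          (∃ j ∈ L, F j G) ∨ (∃ j ∈ L', ¬ F j G))) ∨
       (∀ G, F i G ↔ ((∀ p ∈ A, G.Adj p.1 p.2) ∧ (∀ p ∈ A', ¬ G.Adj p.1 p.2) ∧
          (∀ j ∈ L, F j G) ∧ (∀ j ∈ L', ¬ F j G))))) (i : ℕ) :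
    IsLayer (lev B t j0 ψ lvl F i) (lev B t j0 ψ lvl F (i + 1)) := by
  intro j
  rcases j with p | j
  · refine ⟨true, {(Sum.inl p, true)}, fun ω => ?_⟩
    simp only [Finset.mem_singleton, exists_eq_left]
    rfl
  · by_cases hl : lvl j < i + 1
    · obtain ⟨A, A', L, L', hL, hL', h⟩ := hF j
      have hlt : ∀ j' ∈ L, lvl j' < i := fun j' hj' => by have := hL j' hj'; omega
      have hlt' : ∀ j' ∈ L', lvl j' < i := fun j' hj' => by have := hL' j' hj'; omega
      rcases h with h | h
      · refine ⟨true, (A.image fun p => (Sum.inl p, true)) ∪ (A'.image fun p => (Sum.inl p, false)) ∪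
          ((L.image fun j => (Sum.inr j, true)) ∪ (L'.image fun j => (Sum.inr j, false))),
          fun ω => ?_⟩
        simp only [lev, Finset.mem_union, Finset.mem_image, decide_eq_true_eq, hl, true_and, h]
        constructor
        · rintro (⟨p, hp, h1⟩ | ⟨p, hp, h1⟩ | ⟨j', hj', h1⟩ | ⟨j', hj', h1⟩)
          · exact ⟨_, Or.inl (Or.inl ⟨p, hp, rfl⟩), by simpa [lev] using h1⟩
          · exact ⟨_, Or.inl (Or.inr ⟨p, hp, rfl⟩), by simpa [lev] using h1⟩
          · exact ⟨_, Or.inr (Or.inl ⟨j', hj', rfl⟩), by simpa [lev, hlt j' hj'] using h1⟩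
          · exact ⟨_, Or.inr (Or.inr ⟨j', hj', rfl⟩), by simpa [lev, hlt' j' hj'] using h1⟩
        · rintro ⟨x, ((⟨p, hp, rfl⟩ | ⟨p, hp, rfl⟩) | (⟨j', hj', rfl⟩ | ⟨j', hj', rfl⟩)), h1⟩
          · exact Or.inl ⟨p, hp, by simpa [lev] using h1⟩
          · exact Or.inr (Or.inl ⟨p, hp, by simpa [lev] using h1⟩)
          · exact Or.inr (Or.inr (Or.inl ⟨j', hj', by simpa [lev, hlt j' hj'] using h1⟩))
          · exact Or.inr (Or.inr (Or.inr ⟨j', hj', by simpa [lev, hlt' j' hj'] using h1⟩))
      · refine ⟨false, (A.image fun p => (Sum.inl p, false)) ∪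
          (A'.image fun p => (Sum.inl p, true)) ∪
          ((L.image fun j => (Sum.inr j, false)) ∪ (L'.image fun j => (Sum.inr j, true))),
          fun ω => ?_⟩
        simp only [lev, Finset.mem_union, Finset.mem_image, decide_eq_false_iff_not, hl, true_and,
          h]
        constructor
        · intro h0
          by_contra hcon
          apply h0
          refine ⟨fun p hp => ?_, fun p hp => ?_, fun j' hj' => ?_, fun j' hj' => ?_⟩
          · by_contra h1
            exact hcon ⟨_, Or.inl (Or.inl ⟨p, hp, rfl⟩), by simpa [lev] using h1⟩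
          · intro h1
            exact hcon ⟨_, Or.inl (Or.inr ⟨p, hp, rfl⟩), by simpa [lev] using h1⟩
          · by_contra h1
            exact hcon ⟨_, Or.inr (Or.inl ⟨j', hj', rfl⟩), by simpa [lev, hlt j' hj'] using h1⟩
          · intro h1
            exact hcon ⟨_, Or.inr (Or.inr ⟨j', hj', rfl⟩), by simpa [lev, hlt' j' hj'] using h1⟩
        · rintro ⟨x, ((⟨p, hp, rfl⟩ | ⟨p, hp, rfl⟩) | (⟨j', hj', rfl⟩ | ⟨j', hj', rfl⟩)), h1⟩
            ⟨h2, h3, h4, h5⟩
          · have := h2 p hp
            simp [lev, this] at h1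
          · have := h3 p hp
            simp [lev, this] at h1
          · have := h4 j' hj'
            simp [lev, this, hlt j' hj'] at h1
          · have := h5 j' hj'
            simp [lev, this] at h1
    · refine ⟨true, ∅, fun ω => ?_⟩
      simp [lev, hl]

end

theorem card_bound {M n s k : ℕ} (hM : 2 ≤ M) (hn : n ≤ M ^ 2) (hs : s ≤ n ^ k) :
    n * n + s ≤ M ^ (2 * k + 6) := by
  have h1 : n * n ≤ M ^ (2 * k + 4) := by
    calc n * n ≤ M ^ 2 * M ^ 2 := Nat.mul_le_mul hn hn
      _ = M ^ 4 := by ring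
      _ ≤ M ^ (2 * k + 4) := Nat.pow_le_pow_right (by omega) (by omega)
  have h2 : s ≤ M ^ (2 * k + 4) := by
    calc s ≤ n ^ k := hs
      _ ≤ (M ^ 2) ^ k := Nat.pow_le_pow_left hn k
      _ = M ^ (2 * k) := by rw [← pow_mul]
      _ ≤ M ^ (2 * k + 4) := Nat.pow_le_pow_right (by omega) (by omega)
  have h3 : M ^ (2 * k + 6) = M ^ (2 * k + 4) * (M * M) := by ring
  have h4 : 2 ≤ M * M := by nlinarith
  rw [h3]
  nlinarith

theorem stHyb (h : ∀ d, Claim d) : StHyb := by
  classical
  intro d k Δ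
  obtain ⟨c, g, hc, hcl⟩ := h d (2 * k + 6) 1 Δ
  refine ⟨c, max g 2, hc, ?_⟩
  intro V E _ _ _ _ B hΔ hgir
  have hgir' : Girthy B g := fun F hF hF' => hgir F hF (le_trans hF' (le_max_left _ _))
  obtain ⟨x0, hx0⟩ := hcl V E B hΔ hgir'
  refine ⟨max x0 2, ?_⟩
  intro x hx n hn ψ s hs F hcirc j
  have hx2 : 2 ≤ x := le_trans (le_max_right _ _) hx
  have hM2 : 2 ≤ x ^ c := le_trans hx2 (Nat.le_self_pow hc.ne' x)
  obtain ⟨lvl, hlvl, hF⟩ := hcirc
  suffices hgen : ∀ M : ℕ, M = x ^ c → 2 ≤ M → n ≤ M ^ 2 → ∀ ψ : V × (Fin M × Bool) ↪ Fin n,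
      |((cnt (fun l : Lam V (Fin M) => F j (Gr B (fun _ => false) l ψ)) : ℕ) : ℝ) -
        ((cnt (fun l : Lam V (Fin M) => F j (Gr B (fun _ => true) l ψ)) : ℕ) : ℝ)| *
        ((x : ℝ) ^ c) ^ k ≤ (Fintype.card (Lam V (Fin M)) : ℝ) from hgen (x ^ c) rfl hM2 hn ψ
  clear hn ψ hM2
  intro M hM hM2 hn ψ
  -- one slot
  have hstep : ∀ i : Fin M,
      |((cnt (fun l : Lam V (Fin M) => F j (Gr B (tq i.val) l ψ)) : ℕ) : ℝ) -
        ((cnt (fun l : Lam V (Fin M) => F j (Gr B (tq (i.val + 1)) l ψ)) : ℕ) : ℝ)| *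
        ((x : ℝ) ^ c) ^ (2 * k + 6) ≤ (Fintype.card (Lam V (Fin M)) : ℝ) := by
    intro i
    have h1 := hx0 x (le_trans (le_max_left _ _) hx) (Fin M) (tq i.val) i (by simp [hM])
      ((Fin n × Fin n) ⊕ Fin s) (by
        rw [Fintype.card_sum, Fintype.card_prod, Fintype.card_fin, Fintype.card_fin]
        rw [← hM]
        exact card_bound hM2 hn hs)
      (lev B (tq i.val) i ψ lvl F) (by
        rintro (p | j')
        · exact cert_adj hgir (le_max_right _ _) _ _ ψ p.1 p.2
        · intro ω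
          refine ⟨∅, by simp, by simp, ?_⟩
          intro ω' _
          simp [lev])
      (fun i' _ => lev_layer _ _ ψ lvl F hF i') (Sum.inr j)
    have e : ∀ b, cnt (fun l : Lam V (Fin M) => lev B (tq i.val) i ψ lvl F d (Sum.inr j) (b, l)
        = true) = cnt (fun l : Lam V (Fin M) =>
          F j (Gr B (Function.update (tq i.val) i b) l ψ)) := by
      intro b
      apply cnt_congr
      intro l
      simp [lev, hlvl j]
    rw [e false, e true, tq_update_false, tq_update_true] at h1
    exact h1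
  -- sum over the slots
  have hsum : ∀ q : ℕ, q ≤ M →
      |((cnt (fun l : Lam V (Fin M) => F j (Gr B (tq 0) l ψ)) : ℕ) : ℝ) -
        ((cnt (fun l : Lam V (Fin M) => F j (Gr B (tq q) l ψ)) : ℕ) : ℝ)| *
        ((x : ℝ) ^ c) ^ (2 * k + 6) ≤ q * (Fintype.card (Lam V (Fin M)) : ℝ) := by
    intro q
    induction q with
    | zero => intro _; simp
    | succ q ih =>
      intro hq
      have h1 := ih (by omega)
      have h2 := hstep ⟨q, by omega⟩
      simp only at h2
      have h3 : (0 : ℝ) ≤ ((x : ℝ) ^ c) ^ (2 * k + 6) := by positivity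
      have h4 := abs_sub_le ((cnt (fun l : Lam V (Fin M) => F j (Gr B (tq 0) l ψ)) : ℕ) : ℝ)
        ((cnt (fun l : Lam V (Fin M) => F j (Gr B (tq q) l ψ)) : ℕ) : ℝ)
        ((cnt (fun l : Lam V (Fin M) => F j (Gr B (tq (q + 1)) l ψ)) : ℕ) : ℝ)
      have h5 := mul_le_mul_of_nonneg_right h4 h3
      rw [add_mul] at h5
      push_cast
      linarith
  have hfin := hsum M le_rfl
  rw [tq_zero, tq_top] at hfin
  have hMr : ((M : ℕ) : ℝ) = (x : ℝ) ^ c := by rw [hM]; push_cast; ring
  rw [hMr] at hfin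
  set D : ℝ := |((cnt (fun l : Lam V (Fin M) => F j (Gr B (fun _ => false) l ψ)) : ℕ) : ℝ) -
        ((cnt (fun l : Lam V (Fin M) => F j (Gr B (fun _ => true) l ψ)) : ℕ) : ℝ)| with hD
  have hD0 : 0 ≤ D := abs_nonneg _
  set y : ℝ := (x : ℝ) ^ c with hy
  have hy1 : 1 ≤ y := by
    rw [← hMr]
    exact_mod_cast (by omega : 1 ≤ M)
  have h6 : y ^ (k + 1) ≤ y ^ (2 * k + 6) := pow_le_pow_right₀ hy1 (by omega)
  have h7 : D * y ^ k * y ≤ (Fintype.card (Lam V (Fin M)) : ℝ) * y := by
    calc D * y ^ k * y = D * y ^ (k + 1) := by ring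
      _ ≤ D * y ^ (2 * k + 6) := mul_le_mul_of_nonneg_left h6 hD0
      _ ≤ y * (Fintype.card (Lam V (Fin M)) : ℝ) := hfin
      _ = _ := by ring
  exact le_of_mul_le_mul_right h7 (lt_of_lt_of_le one_pos hy1)

end Pool.Agent.Lib.MP_cff830_lc.AC0
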