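import Pool.Agent.Lib.MP_cff830_lc.AC0.Ins
import Pool.Agent.Lib.MP_cff830_lc.AC0.Stmts

/-!
# The hypergraph lemma
-/

namespace Pool.Agent.Lib.MP_cff830_lc.AC0

open Finset

section

variable {X : Type} [Fintype X] [DecidableEq X]

/-- `R` contains `Q`, has `m` elements, meets all members of `F`, and there are `K` members whose
traces on `R` are pairwise disjoint and disjoint from `Q` -/
def HB (F : Finset (Finset X)) (m K : ℕ) (Q R : Finset X) : Prop :=
  (Q ⊆ R ∧ R.card = m) ∧ (∀ T ∈ F, ∃ x ∈ T, x ∈ R) ∧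
    ∃ T : Fin K → Finset X, (∀ i, T i ∈ F) ∧ (∀ i, ∀ x ∈ Q, x ∉ T i) ∧
      ∀ i j, i ≠ j → ∀ x ∈ R, x ∈ T i → x ∉ T j

theorem cnt_sup (Q : Finset X) (m : ℕ) (h : Q.card ≤ m) :
    cnt (fun R : Finset X => Q ⊆ R ∧ R.card = m) =
      (Fintype.card X - Q.card).choose (m - Q.card) := by
  classical
  rw [cnt_eq, ← Finset.card_compl, ← Finset.card_powersetCard]
  apply Finset.card_bij (fun R _ => R \ Q)
  · intro R hR
    simp only [Finset.mem_filter, Finset.mem_univ, true_and] at hR
    rw [Finset.mem_powersetCard]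
    refine ⟨fun x hx => ?_, ?_⟩
    · rw [Finset.mem_compl]; exact (Finset.mem_sdiff.mp hx).2
    · rw [Finset.card_sdiff_of_subset hR.1, hR.2]
  · intro R hR R' hR' hh
    simp only [Finset.mem_filter, Finset.mem_univ, true_and] at hR hR'
    rw [← Finset.sdiff_union_of_subset hR.1, ← Finset.sdiff_union_of_subset hR'.1, hh]
  · intro S hS
    rw [Finset.mem_powersetCard] at hS
    have hd : Disjoint S Q := by
      rw [Finset.disjoint_left]
      intro x hx
      exact Finset.mem_compl.mp (hS.1 hx)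
    refine ⟨S ∪ Q, ?_, ?_⟩
    · simp only [Finset.mem_filter, Finset.mem_univ, true_and]
      refine ⟨Finset.subset_union_right, ?_⟩
      rw [Finset.card_union_of_disjoint hd, hS.2]
      omega
    · rw [Finset.union_sdiff_right, Finset.sdiff_eq_self_of_disjoint hd]

theorem cnt_sup_insert (Q : Finset X) (m : ℕ) (x : X) (hx : x ∉ Q) (h : Q.card + 1 ≤ m)
    (hm : m ≤ Fintype.card X) :
    ((cnt (fun R : Finset X => insert x Q ⊆ R ∧ R.card = m) : ℕ) : ℚ) =
      ((m - Q.card : ℕ) : ℚ) / ((Fintype.card X - Q.card : ℕ) : ℚ) *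
        ((cnt (fun R : Finset X => Q ⊆ R ∧ R.card = m) : ℕ) : ℚ) := by
  have hc : (insert x Q).card = Q.card + 1 := Finset.card_insert_of_notMem hx
  rw [cnt_sup (insert x Q) m (by omega), cnt_sup Q m (by omega), hc]
  obtain ⟨a, ha⟩ : ∃ a, Fintype.card X - Q.card = a + 1 :=
    ⟨Fintype.card X - Q.card - 1, by omega⟩
  obtain ⟨b, hb⟩ : ∃ b, m - Q.card = b + 1 := ⟨m - Q.card - 1, by omega⟩
  have ha' : Fintype.card X - (Q.card + 1) = a := by omega
  have hb' : m - (Q.card + 1) = b := by omega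
  rw [ha, hb, ha', hb']
  have := Nat.add_one_mul_choose_eq a b
  have h2 : ((a : ℚ) + 1) * (a.choose b : ℚ) = ((a + 1).choose (b + 1) : ℚ) * ((b : ℚ) + 1) := by
    exact_mod_cast this
  push_cast
  have h3 : (a : ℚ) + 1 ≠ 0 := by positivity
  field_simp
  linarith

theorem hb_bound (F : Finset (Finset X)) (r m : ℕ) (hF : ∀ T ∈ F, T.card ≤ r)
    (hm : m ≤ Fintype.card X) (K : ℕ) : ∀ Q : Finset X, Q.card ≤ m →
    ((cnt (HB F m K Q) : ℕ) : ℚ) ≤
      ((r : ℚ) * (((m - Q.card : ℕ) : ℚ) / ((Fintype.card X - Q.card : ℕ) : ℚ))) ^ K *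
        ((cnt (fun R : Finset X => Q ⊆ R ∧ R.card = m) : ℕ) : ℚ) := by
  classical
  induction K with
  | zero =>
    intro Q _
    rw [pow_zero, one_mul]
    have h0 : cnt (HB F m 0 Q) ≤ cnt (fun R : Finset X => Q ⊆ R ∧ R.card = m) :=
      cnt_mono fun R hR => hR.1
    exact_mod_cast h0
  | succ K ih =>
    intro Q hQ
    by_cases hex : ∃ T ∈ F, (∀ x ∈ Q, x ∉ T) ∧ Q.card < m
    · obtain ⟨Ts, hTs, hdis, hlt⟩ := hex
      have h1 : cnt (HB F m (K + 1) Q) ≤ ∑ x ∈ Ts, cnt (HB F m K (insert x Q)) := by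
        have e : ∀ x, cnt (HB F m K (insert x Q)) =
            (univ.filter (HB F m K (insert x Q))).card := fun x => cnt_eq _
        rw [Finset.sum_congr rfl fun x _ => e x, cnt_eq]
        refine le_trans (Finset.card_le_card ?_) Finset.card_biUnion_le
        intro R hR
        simp only [Finset.mem_filter, Finset.mem_univ, true_and, Finset.mem_biUnion] at hR ⊢
        obtain ⟨⟨g1, g2⟩, g3, T, g4, g5, g6⟩ := hR
        obtain ⟨x, hxT, hxR⟩ := g3 Ts hTs
        refine ⟨x, hxT, ⟨Finset.insert_subset hxR g1, g2⟩, g3, ?_⟩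
        obtain ⟨i0, hi0⟩ : ∃ i0, ∀ i, i ≠ i0 → x ∉ T i := by
          by_cases hh : ∃ i0, x ∈ T i0
          · obtain ⟨i0, hi0⟩ := hh
            exact ⟨i0, fun i hi => g6 i0 i (Ne.symm hi) x hxR hi0⟩
          · push Not at hh
            exact ⟨0, fun i _ => hh i⟩
        refine ⟨fun i => T (i0.succAbove i), fun i => g4 _, ?_, ?_⟩
        · intro i y hy
          rcases Finset.mem_insert.mp hy with rfl | hy
          · exact hi0 _ (Fin.succAbove_ne i0 i)
          · exact g5 _ y hy
        · intro i j hij y hy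
          exact g6 _ _ (fun hh => hij (Fin.succAbove_right_injective hh)) y hy
      set a : ℕ := Fintype.card X - Q.card with ha
      set b : ℕ := m - Q.card with hb
      have hab : b ≤ a := by omega
      have hb1 : 1 ≤ b := by omega
      have h2 : ∀ x ∈ Ts, ((cnt (HB F m K (insert x Q)) : ℕ) : ℚ) ≤
          ((r : ℚ) * ((b : ℚ) / (a : ℚ))) ^ K * (((b : ℚ) / (a : ℚ)) *
          ((cnt (fun R : Finset X => Q ⊆ R ∧ R.card = m) : ℕ) : ℚ)) := by
        intro x hx
        have hxQ : x ∉ Q := fun h => hdis x h hx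
        have hc : (insert x Q).card = Q.card + 1 := Finset.card_insert_of_notMem hxQ
        have h3 := ih (insert x Q) (by omega)
        rw [cnt_sup_insert Q m x hxQ (by omega) hm, ← ha, ← hb, hc] at h3
        refine le_trans h3 ?_
        apply mul_le_mul_of_nonneg_right _ (by positivity)
        apply pow_le_pow_left₀ (by positivity)
        apply mul_le_mul_of_nonneg_left _ (by positivity)
        have e1 : m - (Q.card + 1) = b - 1 := by omega
        have e2 : Fintype.card X - (Q.card + 1) = a - 1 := by omega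
        rw [e1, e2]
        rcases Nat.eq_or_lt_of_le (show 1 ≤ a by omega) with h | h
        · rw [← h]; simp
        · rw [div_le_div_iff₀ (by have : 0 < a - 1 := by omega
                                  exact_mod_cast this) (by have : 0 < a := by omega
                                                           exact_mod_cast this)]
          rw [Nat.cast_sub hb1, Nat.cast_sub (show 1 ≤ a by omega)]
          have : (b : ℚ) ≤ a := by exact_mod_cast hab
          push_cast
          linarith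
      have h4 : ((cnt (HB F m (K + 1) Q) : ℕ) : ℚ) ≤
          ∑ x ∈ Ts, ((cnt (HB F m K (insert x Q)) : ℕ) : ℚ) := by exact_mod_cast h1
      refine le_trans h4 (le_trans (Finset.sum_le_sum h2) ?_)
      rw [Finset.sum_const, nsmul_eq_mul]
      have h5 : (Ts.card : ℚ) ≤ r := by exact_mod_cast hF Ts hTs
      calc (Ts.card : ℚ) * (((r : ℚ) * ((b : ℚ) / (a : ℚ))) ^ K * (((b : ℚ) / (a : ℚ)) *
            ((cnt (fun R : Finset X => Q ⊆ R ∧ R.card = m) : ℕ) : ℚ)))
          ≤ (r : ℚ) * (((r : ℚ) * ((b : ℚ) / (a : ℚ))) ^ K * (((b : ℚ) / (a : ℚ)) *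
            ((cnt (fun R : Finset X => Q ⊆ R ∧ R.card = m) : ℕ) : ℚ))) :=
            mul_le_mul_of_nonneg_right h5 (by positivity)
        _ = _ := by ring
    · -- there is no such `R`
      have h0 : cnt (HB F m (K + 1) Q) = 0 := by
        rw [cnt_eq, Finset.card_eq_zero, Finset.filter_eq_empty_iff]
        rintro R - ⟨⟨g1, g2⟩, g3, T, g4, g5, g6⟩
        apply hex
        refine ⟨T 0, g4 0, g5 0, ?_⟩
        rcases Nat.lt_or_ge Q.card m with h | h
        · exact h
        · exfalso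
          have hRQ : Q = R := Finset.eq_of_subset_of_card_le g1 (by omega)
          obtain ⟨x, hx, hxR⟩ := g3 (T 0) (g4 0)
          exact g5 0 x (hRQ ▸ hxR) hx
      rw [h0]
      positivity

end

theorem stH : StH := by
  intro X _ _ j0 F r m K hF hK hm
  have h := hb_bound F r m (fun T hT => (hF T hT).1) hm K {j0} (by simp; omega)
  rw [Finset.card_singleton] at h
  have e1 : cnt (HB F m K {j0}) = cnt (fun R : Finset X => IsR m j0 R ∧
      (∀ T ∈ F, ∃ x ∈ T, x ∈ R) ∧ ∃ T : Fin K → Finset X, (∀ i, T i ∈ F) ∧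
        ∀ i j, i ≠ j → ∀ x ∈ R, x ∈ T i → x ∉ T j) := by
    apply cnt_congr
    intro R
    unfold HB IsR
    rw [Finset.singleton_subset_iff]
    constructor
    · rintro ⟨⟨g1, g2⟩, g3, T, g4, g5, g6⟩
      exact ⟨⟨g2, g1⟩, g3, T, g4, g6⟩
    · rintro ⟨⟨g2, g1⟩, g3, T, g4, g6⟩
      refine ⟨⟨g1, g2⟩, g3, T, g4, ?_, g6⟩
      intro i x hx
      rw [Finset.mem_singleton] at hx
      subst hx
      exact (hF _ (g4 i)).2
  have e2 : cnt (fun R : Finset X => {j0} ⊆ R ∧ R.card = m) =
      cnt (fun R : Finset X => IsR m j0 R) := by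
    apply cnt_congr
    intro R
    unfold IsR
    rw [Finset.singleton_subset_iff]
    exact and_comm
  rw [e1, e2] at h
  rcases Nat.eq_zero_or_pos (Fintype.card X - 1) with h0 | h0
  · have hK0 : K = 0 := by omega
    subst hK0
    simp only [pow_zero, mul_one, one_mul] at h ⊢
    exact_mod_cast h
  · have hp : (0 : ℚ) < ((Fintype.card X - 1 : ℕ) : ℚ) := by exact_mod_cast h0
    have h1 := mul_le_mul_of_nonneg_right h (pow_nonneg hp.le K)
    have h2 : ((r : ℚ) * (((m - 1 : ℕ) : ℚ) / ((Fintype.card X - 1 : ℕ) : ℚ))) ^ K *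
        ((cnt (fun R : Finset X => IsR m j0 R) : ℕ) : ℚ) *
        ((Fintype.card X - 1 : ℕ) : ℚ) ^ K =
        (((r * (m - 1)) ^ K * cnt (fun R : Finset X => IsR m j0 R) : ℕ) : ℚ) := by
      rw [Nat.cast_mul, Nat.cast_pow, Nat.cast_mul, mul_pow, div_pow, mul_pow]
      field_simp
    rw [h2] at h1
    exact_mod_cast h1

end Pool.Agent.Lib.MP_cff830_lc.AC0
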