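import Pool.Agent.Lib.MP_cff830_lc.AC0.Stmts
import Pool.Agent.Lib.MP_cff830_lc.AC0.Ins

/-!
# A14: the lifted graphs
-/

namespace Pool.Agent.Lib.MP_cff830_lc.AC0

open Finset

set_option linter.unusedSectionVars false

namespace Lift

section

variable {V E σ : Type} [DecidableEq V] [DecidableEq E] [DecidableEq σ]

theorem no_loop {B : Base V E} {g : ℕ} (hG : Girthy B g) (hg : 2 ≤ g) (e : E) :
    B.src e ≠ B.tgt e := by
  obtain ⟨e', he', h1, -⟩ := hG {e} (by simp) (by simp; omega)
  rw [mem_singleton] at he'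
  rwa [he'] at h1

/-- the ends of the edge `e` are `u` and `w` -/
def End (B : Base V E) (e : E) (u w : V) : Prop :=
  (B.src e = u ∧ B.tgt e = w) ∨ (B.src e = w ∧ B.tgt e = u)

theorem no_par {B : Base V E} {g : ℕ} (hG : Girthy B g) (hg : 2 ≤ g) {e f : E} {u w : V}
    (he : End B e u w) (hf : End B f u w) : e = f := by
  by_contra hne
  obtain ⟨e', he', -, v, hv, h2⟩ := hG {e, f} (by simp)
    ((card_le_two).trans hg)
  have key : ∀ e1 e2 : E, e1 ≠ e2 → End B e1 u w → End B e2 u w →
      (v = B.src e1 ∨ v = B.tgt e1) → (B.src e2 ≠ v ∧ B.tgt e2 ≠ v) → False := by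
    rintro e1 e2 - (⟨h1, h2⟩ | ⟨h1, h2⟩) (⟨h3, h4⟩ | ⟨h3, h4⟩) (h5 | h5) ⟨h6, h7⟩ <;>
    simp_all
  simp only [mem_insert, mem_singleton] at he' h2
  rcases he' with rfl | rfl
  · exact key e' f hne he hf hv (h2 f (Or.inr rfl) (Ne.symm hne))
  · exact key e' e (Ne.symm hne) hf he hv (h2 e (Or.inl rfl) hne)

/-- the neighbour of `a` over the edge `e` -/
def nb (B : Base V E) (t : σ → Bool) (l : Lam V σ) (e : E) (a : V × (σ × Bool)) :
    V × (σ × Bool) :=
  if B.src e = a.1 then (B.tgt e, ptr B t l e a.2) else (B.src e, (ptr B t l e)⁻¹ a.2)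

/-- `x` and `y` are adjacent over the base edge `e` -/
def Ov (B : Base V E) (t : σ → Bool) (l : Lam V σ) {n : ℕ} (ψ : V × (σ × Bool) ↪ Fin n)
    (e : E) (x y : Fin n) : Prop :=
  ∃ a b, x = ψ a ∧ y = ψ b ∧ End B e a.1 b.1 ∧ b = nb B t l e a ∧ a = nb B t l e b

theorem Ov.symm {B : Base V E} {t : σ → Bool} {l : Lam V σ} {n : ℕ}
    {ψ : V × (σ × Bool) ↪ Fin n} {e : E} {x y : Fin n} (h : Ov B t l ψ e x y) :
    Ov B t l ψ e y x := by
  obtain ⟨a, b, h1, h2, h3, h4, h5⟩ := h
  exact ⟨b, a, h2, h1, h3.symm, h5, h4⟩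

theorem exists_ov {B : Base V E} {g : ℕ} (hG : Girthy B g) (hg : 2 ≤ g) {t : σ → Bool}
    {l : Lam V σ} {n : ℕ} {ψ : V × (σ × Bool) ↪ Fin n} {x y : Fin n}
    (h : (Gr B t l ψ).Adj x y) : ∃ e, Ov B t l ψ e x y := by
  have key : ∀ x y : Fin n, (∃ φ : Fact E (σ × Bool), Hold B t l φ ∧
      x = ψ (sl B φ) ∧ y = ψ (tl B φ)) → ∃ e, Ov B t l ψ e x y := by
    rintro x y ⟨φ, h1, h2, h3⟩
    refine ⟨φ.1, sl B φ, tl B φ, h2, h3, Or.inl ⟨rfl, rfl⟩, ?_, ?_⟩
    · have h4 : ptr B t l φ.1 φ.2.1 = φ.2.2 := h1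
      simp [nb, sl, tl, h4]
    · have h4 : ptr B t l φ.1 φ.2.1 = φ.2.2 := h1
      have h5 : B.src φ.1 ≠ B.tgt φ.1 := no_loop hG hg _
      simp only [nb, sl, tl, if_neg h5, Prod.mk.injEq, true_and]
      rw [← h4]
      simp
  rw [Gr, SimpleGraph.fromRel_adj] at h
  rcases h.2 with h | h
  · exact key x y h
  · obtain ⟨e, he⟩ := key y x h
    exact ⟨e, he.symm⟩

theorem ov_unique {B : Base V E} {g : ℕ} (hG : Girthy B g) (hg : 2 ≤ g) {t : σ → Bool}
    {l : Lam V σ} {n : ℕ} {ψ : V × (σ × Bool) ↪ Fin n} {x y : Fin n} {e f : E}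
    (he : Ov B t l ψ e x y) (hf : Ov B t l ψ f x y) : e = f := by
  obtain ⟨a, b, h1, h2, h3, -⟩ := he
  obtain ⟨a', b', h1', h2', h3', -⟩ := hf
  have ha : a = a' := ψ.injective (h1.symm.trans h1')
  have hb : b = b' := ψ.injective (h2.symm.trans h2')
  subst ha hb
  exact no_par hG hg h3 h3'

theorem degree_le [Fintype V] [Fintype E] [Fintype σ] {B : Base V E} {g Δ : ℕ}
    (hD : DegLe B Δ) (hG : Girthy B g)
    (hg : 2 ≤ g) (t : σ → Bool) (l : Lam V σ) {n : ℕ} (ψ : V × (σ × Bool) ↪ Fin n)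
    (x : Fin n) : cnt (fun y => (Gr B t l ψ).Adj x y) ≤ Δ := by
  classical
  rw [cnt_eq]
  by_cases hx : ∃ a, x = ψ a
  · obtain ⟨a, rfl⟩ := hx
    calc _ ≤ ((univ.filter fun e : E => B.src e = a.1 ∨ B.tgt e = a.1).image
          fun e => ψ (nb B t l e a)).card := by
          apply card_le_card
          intro y hy
          simp only [mem_filter, mem_univ, true_and] at hy
          obtain ⟨e, a', b, h1, h2, h3, h4, -⟩ := exists_ov hG hg hy
          have ha : a = a' := ψ.injective h1
          subst ha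
          rw [mem_image]
          refine ⟨e, ?_, by rw [h2, h4]⟩
          simp only [mem_filter, mem_univ, true_and]
          rcases h3 with h3 | h3
          · exact Or.inl h3.1
          · exact Or.inr h3.2
      _ ≤ _ := card_image_le
      _ ≤ Δ := by
          have := hD a.1
          rwa [cnt_eq] at this
  · have : (univ.filter fun y => (Gr B t l ψ).Adj x y) = ∅ := by
      rw [filter_eq_empty_iff]
      intro y _ hy
      obtain ⟨e, a, b, h1, -⟩ := exists_ov hG hg hy
      exact hx ⟨a, h1⟩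
    rw [this]
    simp

theorem girth_gt [Fintype E] {B : Base V E} {g : ℕ} (hG : Girthy B g)
    (hg : 2 ≤ g) (t : σ → Bool) (l : Lam V σ) {n : ℕ} (ψ : V × (σ × Bool) ↪ Fin n)
    (x : Fin n) (p : (Gr B t l ψ).Walk x x) (hp : p.IsCycle) : g < p.length := by
  classical
  by_contra hlen
  push Not at hlen
  obtain ⟨F, hF⟩ : ∃ F : Finset E, F = univ.filter fun e => ∃ x y, s(x, y) ∈ p.edges ∧
    Ov B t l ψ e x y := ⟨_, rfl⟩
  have hmem : ∀ e, e ∈ F ↔ ∃ x y, s(x, y) ∈ p.edges ∧ Ov B t l ψ e x y := by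
    intro e; rw [hF]; simp
  have hexF : ∀ x y, s(x, y) ∈ p.edges → ∃ e ∈ F, Ov B t l ψ e x y := by
    intro x y hxy
    obtain ⟨e, he⟩ := exists_ov hG hg (p.adj_of_mem_edges hxy)
    exact ⟨e, (hmem e).2 ⟨x, y, hxy, he⟩, he⟩
  have hne : F.Nonempty := by
    have h3 := hp.three_le_length
    have h4 : p.edges ≠ [] := by
      intro h
      have := p.length_edges
      rw [h] at this
      simp at this
      omega
    obtain ⟨q, hq⟩ := List.exists_mem_of_ne_nil _ h4
    induction q using Sym2.ind with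
    | _ a b =>
      obtain ⟨e, he, -⟩ := hexF a b hq
      exact ⟨e, he⟩
  have hcard : F.card ≤ g := by
    refine le_trans ?_ hlen
    have h1 : ∀ e ∈ F, ∃ q : Sym2 (Fin n), q ∈ p.edges ∧ ∃ x y, q = s(x, y) ∧
        Ov B t l ψ e x y := by
      intro e he
      obtain ⟨x, y, h1, h2⟩ := (hmem e).1 he
      exact ⟨s(x, y), h1, x, y, rfl, h2⟩
    have : Nonempty (Sym2 (Fin n)) := ⟨s(x, x)⟩
    choose! q hq1 hq2 using h1
    calc F.card ≤ p.edges.toFinset.card := by
          apply card_le_card_of_injOn q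
          · intro e he
            simp only [List.coe_toFinset, Set.mem_ofPred_eq]
            exact hq1 e he
          · intro e he f hf hef
            obtain ⟨x, y, h1, h2⟩ := hq2 e he
            obtain ⟨x', y', h1', h2'⟩ := hq2 f hf
            have h3 : s(x, y) = s(x', y') := by rw [← h1, ← h1', hef]
            rw [Sym2.eq_iff] at h3
            rcases h3 with ⟨rfl, rfl⟩ | ⟨rfl, rfl⟩
            · exact ov_unique hG hg h2 h2'
            · exact ov_unique hG hg h2 h2'.symm
      _ ≤ p.edges.length := List.toFinset_card_le _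
      _ = p.length := p.length_edges
  obtain ⟨e, heF, -, v, hv, hv2⟩ := hG F hne hcard
  -- a vertex of the cycle over `v`
  obtain ⟨x1, y1, h1, h2⟩ := (hmem e).1 heF
  have key : ∀ x1 y1, s(x1, y1) ∈ p.edges → Ov B t l ψ e x1 y1 →
      (∀ a, x1 = ψ a → a.1 = v) → False := by
    intro x1 y1 hxy hov hxv
    have hsup : x1 ∈ p.support := p.fst_mem_support_of_mem_edges hxy
    have h2c := hp.ncard_neighborSet_toSubgraph_eq_two hsup
    obtain ⟨z1, z2, hz, hset⟩ := Set.ncard_eq_two.1 h2c
    obtain ⟨a, b, ha, -, hab, -⟩ := hov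
    have hz' : ∀ z ∈ p.toSubgraph.neighborSet x1, z = ψ (nb B t l e a) := by
      intro z hz
      have hz3 : s(x1, z) ∈ p.edges := by
        rw [SimpleGraph.Subgraph.mem_neighborSet] at hz
        exact SimpleGraph.Walk.adj_toSubgraph_iff_mem_edges.1 hz
      obtain ⟨f, hf, a', b', h1, h2, h3, h4, -⟩ := hexF x1 z hz3
      have haa : a = a' := ψ.injective (ha.symm.trans h1)
      subst haa
      have hav : a.1 = v := hxv a ha
      have hfe : f = e := by
        by_contra hne'
        have h5 := hv2 f hf hne'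
        rcases h3 with ⟨h6, h7⟩ | ⟨h6, h7⟩
        · exact h5.1 (h6.trans hav)
        · exact h5.2 (h7.trans hav)
      rw [h2, h4, hfe]
    have e1 := hz' z1 (by rw [hset]; simp)
    have e2 := hz' z2 (by rw [hset]; simp)
    exact hz (e1.trans e2.symm)
  obtain ⟨a, b, ha, hb, hab, hrest⟩ := h2
  have hcase : v = a.1 ∨ v = b.1 := by
    rcases hab with ⟨h3, h4⟩ | ⟨h3, h4⟩ <;> rcases hv with hv | hv
    · left; rw [hv, h3]
    · right; rw [hv, h4]
    · right; rw [hv, h3]
    · left; rw [hv, h4]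
  rcases hcase with hc | hc
  · refine key x1 y1 h1 ⟨a, b, ha, hb, hab, hrest⟩ ?_
    intro a' ha'
    have : a = a' := ψ.injective (ha.symm.trans ha')
    rw [← this, hc]
  · refine key y1 x1 (by rw [Sym2.eq_swap]; exact h1)
      (Ov.symm ⟨a, b, ha, hb, hab, hrest⟩) ?_
    intro b' hb'
    have : b = b' := ψ.injective (hb.symm.trans hb')
    rw [← this, hc]

theorem vc_le {n : ℕ} {G : SimpleGraph (Fin n)} {C : Finset (Fin n)} (h : IsVC G C) :
    vc G ≤ C.card := Nat.sInf_le ⟨C, h, rfl⟩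

theorem exists_vc {n : ℕ} (G : SimpleGraph (Fin n)) :
    ∃ C : Finset (Fin n), IsVC G C ∧ C.card = vc G := by
  have h : {m | ∃ C : Finset (Fin n), IsVC G C ∧ C.card = m}.Nonempty :=
    ⟨_, univ, fun u v _ => Or.inl (mem_univ _), rfl⟩
  exact Nat.sInf_mem h

theorem adj_of {B : Base V E} {t : σ → Bool} {l : Lam V σ} {n : ℕ}
    {ψ : V × (σ × Bool) ↪ Fin n} {e : E} {p q : σ × Bool} (h : ptr B t l e p = q)
    (hne : B.src e ≠ B.tgt e) :
    (Gr B t l ψ).Adj (ψ (B.src e, p)) (ψ (B.tgt e, q)) := by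
  rw [Gr, SimpleGraph.fromRel_adj]
  refine ⟨?_, Or.inl ⟨(e, p, q), h, rfl, rfl⟩⟩
  intro h2
  have := ψ.injective h2
  exact hne (congrArg Prod.fst this)

end

end Lift

open Lift in
theorem stLift : StLift := by
  classical
  intro V E _ _ _ _ B Δ g ε hD hG hg hI m n ψ l
  refine ⟨fun t => ⟨?_, ?_, ?_⟩, ?_, ?_⟩
  · intro v
    exact degree_le hD hG hg t l ψ v
  · intro v p hp
    exact girth_gt hG hg t l ψ v p hp
  · have h : IsVC (Gr B t l ψ) (univ.map ψ) := by
      intro u v huv
      obtain ⟨e, a, b, h1, -⟩ := exists_ov hG hg huv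
      left
      rw [h1]
      simp
    refine (vc_le h).trans (le_of_eq ?_)
    rw [card_map, card_univ, Fintype.card_prod, Fintype.card_prod, Fintype.card_fin,
      Fintype.card_bool, mul_comm m 2]
  · obtain ⟨K, hK, hK2⟩ := exists_vc (Gr B (fun _ => false) l ψ)
    rw [← hK2]
    have hIa : ∀ a : Fin m × Bool,
        ((univ.filter fun u : V => ψ (u, l u a) ∉ K).card : ℝ) ≤ ε * Fintype.card V := by
      intro a
      apply hI
      rintro e ⟨h1, h2⟩
      simp only [mem_filter, mem_univ, true_and] at h1 h2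
      have h3 : ptr B (fun _ => false) l e (l (B.src e) a) = l (B.tgt e) a := by
        rw [ptr_apply]
        simp [tog_apply]
      have h4 := hK _ _ (adj_of (ψ := ψ) h3 (no_loop hG hg e))
      rcases h4 with h4 | h4
      · exact h1 h4
      · exact h2 h4
    have hinj : ∑ a : Fin m × Bool, (univ.filter fun u : V => ψ (u, l u a) ∈ K).card ≤
        K.card := by
      rw [← card_sigma]
      apply card_le_card_of_injOn (fun x : (_ : Fin m × Bool) × V => ψ (x.2, l x.2 x.1))
      · rintro ⟨a, u⟩ hx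
        simp only [coe_sigma, Set.mem_sigma_iff, coe_filter, mem_univ, true_and,
          Set.mem_ofPred_eq, coe_univ, Set.mem_univ] at hx
        exact hx
      · rintro ⟨a, u⟩ - ⟨a', u'⟩ - h
        have h2 := ψ.injective h
        simp only [Prod.mk.injEq] at h2
        obtain ⟨rfl, h3⟩ := h2
        have := (l u).injective h3
        rw [this]
    have hsum : ∀ a : Fin m × Bool, (1 - ε) * (Fintype.card V : ℝ) ≤
        ((univ.filter fun u : V => ψ (u, l u a) ∈ K).card : ℝ) := by
      intro a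
      have h1 := hIa a
      have h2 := card_filter_add_card_filter_not (s := (univ : Finset V))
        (fun u : V => ψ (u, l u a) ∈ K)
      rw [card_univ] at h2
      have h3 : ((univ.filter fun u : V => ψ (u, l u a) ∈ K).card : ℝ) +
          ((univ.filter fun u : V => ψ (u, l u a) ∉ K).card : ℝ) = Fintype.card V := by
        exact_mod_cast h2
      linarith
    calc (1 - ε) * (Fintype.card V * (2 * m)) =
          ∑ a : Fin m × Bool, (1 - ε) * (Fintype.card V : ℝ) := by
          rw [sum_const, card_univ]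
          simp
          ring
      _ ≤ ∑ a : Fin m × Bool, ((univ.filter fun u : V => ψ (u, l u a) ∈ K).card : ℝ) :=
          sum_le_sum fun a _ => hsum a
      _ ≤ (K.card : ℝ) := by exact_mod_cast hinj
  · have h : IsVC (Gr B (fun _ => true) l ψ)
        ((univ : Finset (V × Fin m)).image fun x => ψ (x.1, l x.1 (x.2, false))) := by
      have key : ∀ φ : Fact E (Fin m × Bool), Hold B (fun _ => true) l φ →
          ψ (sl B φ) ∈ ((univ : Finset (V × Fin m)).image
            fun x => ψ (x.1, l x.1 (x.2, false))) ∨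
          ψ (tl B φ) ∈ ((univ : Finset (V × Fin m)).image
            fun x => ψ (x.1, l x.1 (x.2, false))) := by
        intro φ hφ
        rw [hold_iff] at hφ
        rcases hb : (l (B.src φ.1))⁻¹ φ.2.1 with ⟨j, b⟩
        rw [hb, tog_apply] at hφ
        cases b with
        | false =>
          left
          rw [mem_image]
          refine ⟨(B.src φ.1, j), mem_univ _, ?_⟩
          simp only [sl]
          rw [← hb]
          simp
        | true =>
          right
          rw [mem_image]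
          refine ⟨(B.tgt φ.1, j), mem_univ _, ?_⟩
          simp only [tl]
          simp only [Bool.true_bne, Bool.not_true] at hφ
          have h5 : l (B.tgt φ.1) (j, false) = φ.2.2 := by
            rw [← Equiv.Perm.eq_inv_iff_eq]
            simpa using hφ
          rw [h5]
      intro u v huv
      rw [Gr, SimpleGraph.fromRel_adj] at huv
      rcases huv.2 with ⟨φ, h1, h2, h3⟩ | ⟨φ, h1, h2, h3⟩
      · rw [h2, h3]; exact key φ h1
      · rw [h2, h3]; exact (key φ h1).symm
    refine (vc_le h).trans (card_image_le.trans (le_of_eq ?_))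
    rw [card_univ]
    simp

end Pool.Agent.Lib.MP_cff830_lc.AC0
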