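import Pool.Agent.Lib.MP_cff830_lc.AC0.Stmts
import Pool.Agent.Lib.MP_cff830_lc.AC0.Ins

/-!
# Assembly of the lower bound
-/

namespace Pool.Agent.Lib.MP_cff830_lc.AC0

open Finset

theorem ind_true {p : Prop} (h : p) : ind p = 1 := by
  unfold ind; rw [if_pos h]

theorem ind_false {p : Prop} (h : ¬ p) : ind p = 0 := by
  unfold ind; rw [if_neg h]

theorem ind_nonneg (p : Prop) : 0 ≤ ind p := by
  by_cases h : p
  · rw [ind_true h]; norm_num
  · rw [ind_false h]

theorem sum_ind {α : Type} [Fintype α] (P : α → Prop) : ∑ x, ind (P x) = (cnt P : ℝ) := by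
  classical
  rw [cnt_eq, Finset.card_filter]
  push_cast
  refine Finset.sum_congr rfl fun x _ => ?_
  unfold ind
  by_cases h : P x
  · simp [h]
  · simp [h]

/-- abstract form of the final step: `U`, `W` the two families of graphs -/
theorem core {Λ : Type} [Fintype Λ] [Nonempty Λ] {s : ℕ} (a : Fin s → ℝ) (ha : ∀ i, 0 ≤ a i)
    (P Q : Fin s → Λ → Prop) (N δ lo hi : ℝ) (hN : 0 ≤ N)
    (hdiff : ∀ i, |(cnt (P i) : ℝ) - (cnt (Q i) : ℝ)| ≤ δ * Fintype.card Λ)
    (hP : ∀ x, lo ≤ ∑ i, a i * ind (P i x) ∧ ∑ i, a i * ind (P i x) ≤ N)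
    (hQ : ∀ x, ∑ i, a i * ind (Q i x) ≤ hi ∧ ∑ i, a i * ind (Q i x) ≤ N) (hδ : 0 ≤ δ) :
    lo ≤ hi + s * N * δ := by
  classical
  set L : ℝ := (Fintype.card Λ : ℝ) with hL
  have hLpos : 0 < L := by
    rw [hL]; exact_mod_cast Fintype.card_pos
  have h1 : lo * L ≤ ∑ i, a i * (cnt (P i) : ℝ) := by
    have : ∑ i, a i * (cnt (P i) : ℝ) = ∑ x, ∑ i, a i * ind (P i x) := by
      rw [Finset.sum_comm]
      refine Finset.sum_congr rfl fun i _ => ?_
      rw [← sum_ind, Finset.mul_sum]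
    rw [this]
    calc lo * L = ∑ _x : Λ, lo := by simp [hL, mul_comm]
      _ ≤ _ := Finset.sum_le_sum fun x _ => (hP x).1
  have h2 : ∑ i, a i * (cnt (Q i) : ℝ) ≤ hi * L := by
    have : ∑ i, a i * (cnt (Q i) : ℝ) = ∑ x, ∑ i, a i * ind (Q i x) := by
      rw [Finset.sum_comm]
      refine Finset.sum_congr rfl fun i _ => ?_
      rw [← sum_ind, Finset.mul_sum]
    rw [this]
    calc _ ≤ ∑ _x : Λ, hi := Finset.sum_le_sum fun x _ => (hQ x).1
      _ = hi * L := by simp [hL, mul_comm]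
  have h3 : ∀ i, a i * (cnt (P i) : ℝ) - a i * (cnt (Q i) : ℝ) ≤ N * (δ * L) := by
    intro i
    by_cases hz : (∃ x, P i x) ∨ (∃ x, Q i x)
    · have hai : a i ≤ N := by
        rcases hz with ⟨x, hx⟩ | ⟨x, hx⟩
        · refine le_trans ?_ (hP x).2
          have := Finset.single_le_sum (f := fun i => a i * ind (P i x))
            (fun j _ => mul_nonneg (ha j) (ind_nonneg _)) (Finset.mem_univ i)
          simpa [ind_true hx] using this
        · refine le_trans ?_ (hQ x).2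
          have := Finset.single_le_sum (f := fun i => a i * ind (Q i x))
            (fun j _ => mul_nonneg (ha j) (ind_nonneg _)) (Finset.mem_univ i)
          simpa [ind_true hx] using this
      have h4 : (cnt (P i) : ℝ) - (cnt (Q i) : ℝ) ≤ δ * L := le_trans (le_abs_self _) (hdiff i)
      calc a i * (cnt (P i) : ℝ) - a i * (cnt (Q i) : ℝ)
          = a i * ((cnt (P i) : ℝ) - (cnt (Q i) : ℝ)) := by ring
        _ ≤ a i * (δ * L) := mul_le_mul_of_nonneg_left h4 (ha i)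
        _ ≤ N * (δ * L) := mul_le_mul_of_nonneg_right hai (mul_nonneg hδ hLpos.le)
    · push Not at hz
      have hP0 : cnt (P i) = 0 := by
        rw [cnt_eq, Finset.card_eq_zero, Finset.filter_eq_empty_iff]
        exact fun x _ => hz.1 x
      have hQ0 : cnt (Q i) = 0 := by
        rw [cnt_eq, Finset.card_eq_zero, Finset.filter_eq_empty_iff]
        exact fun x _ => hz.2 x
      rw [hP0, hQ0]
      simp only [Nat.cast_zero, mul_zero, sub_zero]
      positivity
  have h5 : ∑ i, a i * (cnt (P i) : ℝ) - ∑ i, a i * (cnt (Q i) : ℝ) ≤ s * (N * (δ * L)) := by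
    rw [← Finset.sum_sub_distrib]
    calc _ ≤ ∑ _i : Fin s, N * (δ * L) := Finset.sum_le_sum fun i _ => h3 i
      _ = s * (N * (δ * L)) := by simp
  have h6 : lo * L ≤ (hi + s * N * δ) * L := by
    nlinarith [h1, h2, h5]
  exact le_of_mul_le_mul_right h6 hLpos

/-- for every `n` large there is `x` with `K x ^ c ≤ n < x ^ (2 c)` -/
theorem exists_x (K c x0 : ℕ) (hc : 0 < c) (hK : 0 < K) :
    ∃ n₀ : ℕ, ∀ n ≥ n₀, ∃ x ≥ x0, K * x ^ c ≤ n ∧ n ≤ (x ^ c) ^ 2 := by
  refine ⟨K * (K * 2 ^ c + x0 + 2) ^ c, fun n hn => ?_⟩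
  have hex : ∃ x, n < K * (x + 1) ^ c := by
    refine ⟨n, ?_⟩
    calc n < n + 1 := Nat.lt_succ_self n
      _ ≤ (n + 1) ^ c := Nat.le_self_pow hc.ne' _
      _ ≤ K * (n + 1) ^ c := Nat.le_mul_of_pos_left _ hK
  classical
  set x := Nat.find hex with hx
  have hx1 : n < K * (x + 1) ^ c := Nat.find_spec hex
  have hbig : K * 2 ^ c + x0 + 2 ≤ x + 1 := by
    by_contra hlt
    push Not at hlt
    have : K * (x + 1) ^ c ≤ K * (K * 2 ^ c + x0 + 2) ^ c :=
      Nat.mul_le_mul_left _ (Nat.pow_le_pow_left hlt.le _)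
    omega
  have hxpos : 0 < x := by omega
  have hx2 : K * x ^ c ≤ n := by
    by_contra hlt
    push Not at hlt
    obtain ⟨y, hy⟩ : ∃ y, x = y + 1 := ⟨x - 1, by omega⟩
    have : x ≤ y := Nat.find_min' hex (by rw [← hy]; exact hlt)
    omega
  refine ⟨x, by omega, hx2, ?_⟩
  have h3 : (x + 1) ^ c ≤ (2 * x) ^ c := Nat.pow_le_pow_left (by omega) _
  calc n ≤ K * (x + 1) ^ c := hx1.le
    _ ≤ K * (2 * x) ^ c := Nat.mul_le_mul_left _ h3
    _ = (K * 2 ^ c) * x ^ c := by rw [mul_pow, mul_assoc]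
    _ ≤ x * x ^ c := Nat.mul_le_mul_right _ (by omega)
    _ ≤ x ^ c * x ^ c := Nat.mul_le_mul_right _ (Nat.le_self_pow hc.ne' _)
    _ = (x ^ c) ^ 2 := by ring

theorem stMain (h1 : StBase) (h2 : StHyb) (h3 : StLift) : StMain := by
  classical
  intro c hc
  -- choice of ε
  set c' : ℝ := max c 1 with hc'
  have hc1 : 1 ≤ c' := le_max_right _ _
  have hc2 : c' < 2 := max_lt hc (by norm_num)
  set ε : ℝ := (2 - c') / 4 with hε
  have hεpos : 0 < ε := by rw [hε]; linarith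
  obtain ⟨Δ, hΔ⟩ := h1 ε hεpos
  refine ⟨Δ, fun d k g => ?_⟩
  obtain ⟨cc, g1, hcc, hH⟩ := h2 d (2 * k + 6) Δ
  obtain ⟨N, M, B, hN, hdeg, hgirth, hind⟩ := hΔ (max (max g g1) 2)
  have hmono : ∀ g', g' ≤ max (max g g1) 2 → Girthy B g' := fun g' hg' F hF hFc =>
    hgirth F hF (hFc.trans hg')
  obtain ⟨x0, hx0⟩ := hH (Fin N) (Fin M) B hdeg (hmono g1 (by simp))
  obtain ⟨n₀, hn₀⟩ := exists_x (2 * N) cc (max x0 (Nat.ceil (8 / ε) + 2)) hcc (by omega)
  refine ⟨n₀, fun n hn s hs F hF a ha => ?_⟩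
  obtain ⟨x, hx, hxn, hnx⟩ := hn₀ n hn
  -- the embedding
  have hcard : Fintype.card (Fin N × (Fin (x ^ cc) × Bool)) ≤ Fintype.card (Fin n) := by
    simp only [Fintype.card_prod, Fintype.card_fin, Fintype.card_bool]
    calc N * (x ^ cc * 2) = 2 * N * x ^ cc := by ring
      _ ≤ n := hxn
  obtain ⟨ψ⟩ := Function.Embedding.nonempty_of_card_le hcard
  have hxx0 : x ≥ x0 := le_trans (le_max_left _ _) hx
  have hs' : s ≤ n ^ (2 * k + 6) ∨ n = 0 := by
    by_cases hn0 : n = 0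
    · exact Or.inr hn0
    · exact Or.inl (hs.trans (Nat.pow_le_pow_right (by omega) (by omega)))
  have hxbig : Nat.ceil (8 / ε) + 2 ≤ x := le_trans (le_max_right _ _) hx
  have hxpos : 0 < x := by omega
  have hn1 : 0 < n := by
    have : 0 < 2 * N * x ^ cc := by positivity
    omega
  have hs'' : s ≤ n ^ (2 * k + 6) := by
    rcases hs' with h | h
    · exact h
    · omega
  have hdiff := hx0 x hxx0 n hnx ψ s hs'' F hF
  by_contra hcon
  push Not at hcon
  have hlift := h3 (Fin N) (Fin M) B Δ (max (max g g1) 2) ε hdeg hgirth (by simp)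
    (by simpa using hind) (x ^ cc) n ψ
  have hgood : ∀ (t : Fin (x ^ cc) → Bool) (l : Lam (Fin N) (Fin (x ^ cc))),
      (vc (Gr B t l ψ) : ℝ) ≤ ∑ i, a i * ind (F i (Gr B t l ψ)) ∧
        ∑ i, a i * ind (F i (Gr B t l ψ)) ≤ c * (vc (Gr B t l ψ) : ℝ) := by
    intro t l
    have h := (hlift l).1 t
    exact hcon _ h.1 (fun v p hp => lt_of_le_of_lt (by simp) (h.2.1 v p hp))
  set M0 : ℝ := ((x : ℝ) ^ cc) with hM0
  have hM0pos : 0 < M0 := by rw [hM0]; positivity
  have hvcle : ∀ (t : Fin (x ^ cc) → Bool) (l : Lam (Fin N) (Fin (x ^ cc))),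
      (vc (Gr B t l ψ) : ℝ) ≤ N * (2 * M0) := by
    intro t l
    have h := ((hlift l).1 t).2.2
    have h' : (vc (Gr B t l ψ) : ℝ) ≤ ((Fintype.card (Fin N) * (2 * x ^ cc) : ℕ) : ℝ) := by
      exact_mod_cast h
    simpa [hM0] using h'
  have hc'vc : ∀ v : ℝ, 0 ≤ v → c * v ≤ c' * v := fun v hv =>
    mul_le_mul_of_nonneg_right (le_max_left _ _) hv
  have hkey := core (Λ := Lam (Fin N) (Fin (x ^ cc))) a ha
    (fun i l => F i (Gr B (fun _ => false) l ψ)) (fun i l => F i (Gr B (fun _ => true) l ψ))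
    (c' * (N * (2 * M0))) (1 / M0 ^ (2 * k + 6)) ((1 - ε) * (N * (2 * M0))) (c' * (N * M0))
    (by positivity)
    (by
      intro i
      have h := hdiff i
      rw [div_mul_eq_mul_div, one_mul, le_div_iff₀ (by positivity)]
      exact h)
    (by
      intro l
      refine ⟨le_trans ?_ (hgood _ l).1, le_trans (hgood _ l).2 ?_⟩
      · have h := (hlift l).2.1
        simpa [hM0] using h
      · exact le_trans (hc'vc _ (by positivity))
          (mul_le_mul_of_nonneg_left (hvcle _ l) (by positivity)))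
    (by
      intro l
      refine ⟨le_trans (hgood _ l).2 ?_, le_trans (hgood _ l).2 ?_⟩
      · refine le_trans (hc'vc _ (by positivity))
          (mul_le_mul_of_nonneg_left ?_ (by positivity))
        have h := (hlift l).2.2
        have h' : (vc (Gr B (fun _ => true) l ψ) : ℝ) ≤
            ((Fintype.card (Fin N) * x ^ cc : ℕ) : ℝ) := by exact_mod_cast h
        simpa [hM0] using h'
      · exact le_trans (hc'vc _ (by positivity))
          (mul_le_mul_of_nonneg_left (hvcle _ l) (by positivity)))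
    (by positivity)
  -- the numbers
  have hsM : (s : ℝ) ≤ M0 ^ (2 * k) := by
    have h : s ≤ (x ^ cc) ^ (2 * k) := by
      calc s ≤ n ^ k := hs
        _ ≤ ((x ^ cc) ^ 2) ^ k := Nat.pow_le_pow_left hnx _
        _ = (x ^ cc) ^ (2 * k) := by rw [← pow_mul]
    have h' : (s : ℝ) ≤ (((x ^ cc) ^ (2 * k) : ℕ) : ℝ) := by exact_mod_cast h
    simpa [hM0] using h'
  have hM0x : (x : ℝ) ≤ M0 := by
    rw [hM0]
    have h := Nat.le_self_pow hcc.ne' x
    exact_mod_cast h
  have hεx : 8 / ε ≤ x := by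
    have h := Nat.le_ceil (8 / ε)
    have h' : ((Nat.ceil (8 / ε) + 2 : ℕ) : ℝ) ≤ x := by exact_mod_cast hxbig
    push_cast at h'
    linarith
  have hNpos : (0 : ℝ) < N := by exact_mod_cast hN
  have hM1 : 1 ≤ M0 := by
    have : (1 : ℝ) ≤ x := by exact_mod_cast hxpos
    linarith
  have herr : (s : ℝ) * (c' * (N * (2 * M0))) * (1 / M0 ^ (2 * k + 6)) ≤ N * M0 * (ε / 2) := by
    have h6 : (s : ℝ) * (1 / M0 ^ (2 * k + 6)) ≤ 1 / M0 ^ 6 := by
      rw [pow_add, one_div, mul_inv, ← mul_assoc, one_div]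
      refine mul_le_of_le_one_left (by positivity) ?_
      rw [← div_eq_mul_inv, div_le_one (by positivity)]
      exact hsM
    have h7 : 1 / M0 ^ 6 ≤ 1 / M0 := by
      apply one_div_le_one_div_of_le hM0pos
      calc M0 = M0 ^ 1 := (pow_one _).symm
        _ ≤ M0 ^ 6 := pow_le_pow_right₀ hM1 (by norm_num)
    have h8 : 1 / M0 ≤ ε / 8 := by
      rw [div_le_div_iff₀ hM0pos (by norm_num)]
      have : 8 / ε ≤ M0 := hεx.trans hM0x
      rw [div_le_iff₀ hεpos] at this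
      linarith
    calc (s : ℝ) * (c' * (N * (2 * M0))) * (1 / M0 ^ (2 * k + 6))
        = (c' * (N * (2 * M0))) * ((s : ℝ) * (1 / M0 ^ (2 * k + 6))) := by ring
      _ ≤ (2 * (N * (2 * M0))) * (ε / 8) := by
          apply mul_le_mul _ (h6.trans (h7.trans h8)) (by positivity) (by positivity)
          exact mul_le_mul_of_nonneg_right hc2.le (by positivity)
      _ = N * M0 * (ε / 2) := by ring
  have hfin : (1 - ε) * (N * (2 * M0)) ≤ c' * (N * M0) + N * M0 * (ε / 2) := by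
    linarith [hkey, herr]
  have hNM : 0 < (N : ℝ) * M0 := by positivity
  have : (1 - ε) * 2 ≤ c' + ε / 2 := by
    have h9 : ((1 - ε) * 2) * (N * M0) ≤ (c' + ε / 2) * (N * M0) := by nlinarith [hfin]
    exact le_of_mul_le_mul_right h9 hNM
  rw [hε] at this
  linarith

theorem stUpper (h1 : StU1) (h2 : StU2) : StUpper := by
  intro c hc Δ
  obtain ⟨T, hT⟩ := h1 c hc Δ
  obtain ⟨k, hk⟩ := h2 T Δ
  refine ⟨k, fun n hn => ?_⟩
  obtain ⟨P, hP, hcov⟩ := hT n
  obtain ⟨s, hs, F, hF, o, ho⟩ := hk n hn P hP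
  refine ⟨s, hs, F, hF, o, fun G hG => ?_⟩
  obtain ⟨C, hC, hCP, hCc⟩ := hcov G hG
  exact ⟨C, hC, fun v => by rw [hCP, ho G hG], hCc⟩

end Pool.Agent.Lib.MP_cff830_lc.AC0
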