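import Mathlib

/-!
# Constant-depth circuits and vertex cover: the definitions used in the result
-/

namespace Pool.Agent.Lib.MP_cff830_lc.AC0

open Finset

/-- number of elements with a property -/
noncomputable def cnt {α : Type} [Fintype α] (P : α → Prop) : ℕ := by
  classical exact (univ.filter P).card

/-- `1` if `p` is true, `0` otherwise -/
noncomputable def ind (p : Prop) : ℝ := by
  classical exact if p then 1 else 0

/-- `F 0, …, F (s-1)` are the functions computed at the gates of a circuit of depth at most `d`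
whose input bits are the adjacencies of a graph on `n` vertices: each gate is an OR or an AND, of
any fan-in, of input bits, negated input bits, earlier gates and negated earlier gates. -/
def IsCircuit (n s d : ℕ) (F : Fin s → SimpleGraph (Fin n) → Prop) : Prop :=
  ∃ lvl : Fin s → ℕ, (∀ i, lvl i < d) ∧ ∀ i,
    ∃ (A A' : Finset (Fin n × Fin n)) (L L' : Finset (Fin s)),
      (∀ j ∈ L, lvl j < lvl i) ∧ (∀ j ∈ L', lvl j < lvl i) ∧
      ((∀ G, F i G ↔ ((∃ p ∈ A, G.Adj p.1 p.2) ∨ (∃ p ∈ A', ¬ G.Adj p.1 p.2) ∨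
          (∃ j ∈ L, F j G) ∨ (∃ j ∈ L', ¬ F j G))) ∨
       (∀ G, F i G ↔ ((∀ p ∈ A, G.Adj p.1 p.2) ∧ (∀ p ∈ A', ¬ G.Adj p.1 p.2) ∧
          (∀ j ∈ L, F j G) ∧ (∀ j ∈ L', ¬ F j G))))

/-- every edge has an endpoint in `C` -/
def IsVC {n : ℕ} (G : SimpleGraph (Fin n)) (C : Finset (Fin n)) : Prop :=
  ∀ u v, G.Adj u v → u ∈ C ∨ v ∈ C

/-- the least size of a vertex cover -/
noncomputable def vc {n : ℕ} (G : SimpleGraph (Fin n)) : ℕ :=
  sInf {m | ∃ C : Finset (Fin n), IsVC G C ∧ C.card = m}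

end Pool.Agent.Lib.MP_cff830_lc.AC0
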