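import Pool.Agent.Lib.MP_cff830_lc.AC0.Stmts
import Pool.Agent.Lib.MP_cff830_lc.AC0.Ins

/-!
# Representatives and bits for a consistent set of few facts
-/

namespace Pool.Agent.Lib.MP_cff830_lc.AC0

open Finset

/-- adding the facts over a leaf edge: `v` the leaf, `w` the other end, `P p q` if the label `p`
at `w` is joined to the label `q` at `v` -/
theorem rep_step {V E S : Type} [DecidableEq V] {B : Base V E} {T' : Finset (Fact E S)}
    {v w : V} (hwv : w ≠ v) (hT' : ∀ φ ∈ T', B.src φ.1 ≠ v ∧ B.tgt φ.1 ≠ v)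
    {P : S → S → Prop} (hP : ∀ p q p' q', P p q → P p' q' → (p = p' ↔ q = q'))
    {τ : V × S → Bool} {rep' : V × S → V × S} {bit' : V × S → Bool}
    (h2 : ∀ x y, x.1 = y.1 → rep' x = rep' y → x = y)
    (h4 : ∀ H : Set (V × S), (∀ φ ∈ T', sl B φ ∈ H ↔ tl B φ ∈ H) → ∀ x ∈ H, rep' x ∈ H) :
    ∃ (rep : V × S → V × S) (bit : V × S → Bool),
      (∀ x, x.1 ≠ v → rep x = rep' x ∧ bit x = bit' x) ∧
      (∀ p q, P p q → rep (v, q) = rep' (w, p) ∧
        bit (v, q) = xor (bit' (w, p)) (τ (rep' (w, p)))) ∧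
      (∀ x y, x.1 = y.1 → rep x = rep y → x = y) ∧
      (∀ H : Set (V × S), (∀ φ ∈ T', sl B φ ∈ H ↔ tl B φ ∈ H) →
        (∀ p q, P p q → ((w, p) ∈ H ↔ (v, q) ∈ H)) → ∀ x ∈ H, rep x ∈ H) := by
  classical
  have ha : ∀ q, rep' (v, q) = (v, q) := by
    intro q
    refine h4 {(v, q)} (fun φ hφ => ?_) (v, q) rfl
    obtain ⟨i1, i2⟩ := hT' φ hφ
    refine iff_of_false (fun h => i1 ?_) (fun h => i2 ?_)
    · have : sl B φ = (v, q) := h
      exact congrArg Prod.fst this
    · have : tl B φ = (v, q) := h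
      exact congrArg Prod.fst this
  have hb : ∀ x q, rep' x = (v, q) → x = (v, q) := by
    intro x q hx
    by_contra hne
    refine h4 {(v, q)}ᶜ (fun φ hφ => ?_) x hne hx
    obtain ⟨i1, i2⟩ := hT' φ hφ
    refine iff_of_true (fun h => i1 ?_) (fun h => i2 ?_)
    · have : sl B φ = (v, q) := h
      exact congrArg Prod.fst this
    · have : tl B φ = (v, q) := h
      exact congrArg Prod.fst this
  -- the partner at `w` of a label at `v`
  let c : S → Option S := fun q => if h : ∃ p, P p q then some h.choose else none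
  have hc : ∀ p q, P p q → c q = some p := by
    intro p q h
    have hex : ∃ p, P p q := ⟨p, h⟩
    simp only [c, hex, dif_pos]
    exact congrArg some ((hP _ _ _ _ hex.choose_spec h).2 rfl)
  have hc' : ∀ q p, c q = some p → P p q := by
    intro q p h
    by_cases hex : ∃ p, P p q
    · simp only [c, hex, dif_pos, Option.some.injEq] at h
      rw [← h]
      exact hex.choose_spec
    · simp only [c, hex, dif_neg, not_false_eq_true] at h
      exact absurd h (by simp)
  let rep : V × S → V × S := fun x =>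
    if x.1 = v then (match c x.2 with
      | some p => rep' (w, p)
      | none => rep' x) else rep' x
  let bit : V × S → Bool := fun x =>
    if x.1 = v then (match c x.2 with
      | some p => xor (bit' (w, p)) (τ (rep' (w, p)))
      | none => bit' x) else bit' x
  have r1 : ∀ x, x.1 ≠ v → rep x = rep' x := fun x hx => by simp only [rep, if_neg hx]
  have r2 : ∀ p q, P p q → rep (v, q) = rep' (w, p) := fun p q h => by
    simp only [rep, if_pos, hc p q h]
  have r3 : ∀ q, c q = none → rep (v, q) = (v, q) := fun q h => by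
    simp only [rep, if_pos, h]; exact ha q
  have hcase : ∀ q, (∃ p, P p q) ∨ c q = none := by
    intro q
    cases hq : c q with
    | none => exact Or.inr rfl
    | some p => exact Or.inl ⟨p, hc' q p hq⟩
  refine ⟨rep, bit, fun x hx => ⟨r1 x hx, by simp only [bit, if_neg hx]⟩,
    fun p q h => ⟨r2 p q h, by simp only [bit, if_pos, hc p q h]⟩, ?_, ?_⟩
  · rintro ⟨x1, x2⟩ ⟨y1, y2⟩ hxy hr
    simp only at hxy
    subst hxy
    by_cases hx : x1 = v
    · subst hx
      rcases hcase x2 with ⟨p, hp⟩ | hp <;> rcases hcase y2 with ⟨p', hp'⟩ | hp'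
      · rw [r2 p x2 hp, r2 p' y2 hp'] at hr
        have h3 : p = p' := congrArg Prod.snd (h2 (w, p) (w, p') rfl hr)
        rw [(hP _ _ _ _ hp hp').1 h3]
      · rw [r2 p x2 hp, r3 y2 hp'] at hr
        have := hb _ _ hr
        exact absurd (congrArg Prod.fst this) hwv
      · rw [r3 x2 hp, r2 p' y2 hp'] at hr
        have := hb _ _ hr.symm
        exact absurd (congrArg Prod.fst this) hwv
      · rw [r3 x2 hp, r3 y2 hp'] at hr
        exact hr
    · rw [r1 _ hx, r1 _ hx] at hr
      exact h2 _ _ rfl hr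
  · rintro H hH hHP ⟨x1, x2⟩ hx
    by_cases hv : x1 = v
    · subst hv
      rcases hcase x2 with ⟨p, hp⟩ | hp
      · rw [r2 p x2 hp]
        exact h4 H hH _ ((hHP p x2 hp).2 hx)
      · rw [r3 x2 hp]
        exact hx
    · rw [r1 _ hv]
      exact h4 H hH _ hx

theorem rep_aux {V E S : Type} [DecidableEq V] [DecidableEq E] [DecidableEq S] (B : Base V E)
    (g : ℕ) (hB : Girthy B g) (τ : V × S → Bool) (F : Finset E) :
    F.card ≤ g → ∀ T : Finset (Fact E S), Cons T → (∀ φ ∈ T, φ.1 ∈ F) →
    ∃ (rep : V × S → V × S) (bit : V × S → Bool),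
      (∀ φ ∈ T, rep (sl B φ) = rep (tl B φ)) ∧
      (∀ x y, x.1 = y.1 → rep x = rep y → x = y) ∧
      (∀ φ ∈ T, bit (tl B φ) = xor (bit (sl B φ)) (τ (rep (sl B φ)))) ∧
      (∀ H : Set (V × S), (∀ φ ∈ T, sl B φ ∈ H ↔ tl B φ ∈ H) → ∀ x ∈ H, rep x ∈ H) := by
  induction F using Finset.strongInduction with
  | H F ih =>
    intro hF T hC hTF
    by_cases hne : F.Nonempty
    · obtain ⟨e, he, hst, v, hv, hleaf⟩ := hB F hne hF
      obtain ⟨rep', bit', h1, h2, h3, h4⟩ := ih (F.erase e) (Finset.erase_ssubset he)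
        ((Finset.card_le_card (Finset.erase_subset _ _)).trans hF) (T.filter fun φ => φ.1 ≠ e)
        (fun φ hφ ψ hψ => hC φ (Finset.mem_filter.1 hφ).1 ψ (Finset.mem_filter.1 hψ).1)
        (fun φ hφ => Finset.mem_erase.2 ⟨(Finset.mem_filter.1 hφ).2,
          hTF φ (Finset.mem_filter.1 hφ).1⟩)
      have hT' : ∀ φ ∈ T.filter (fun φ => φ.1 ≠ e), B.src φ.1 ≠ v ∧ B.tgt φ.1 ≠ v := by
        intro φ hφ
        obtain ⟨i1, i2⟩ := Finset.mem_filter.1 hφ
        exact hleaf φ.1 (hTF φ i1) i2
      rcases hv with hv | hv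
      · -- the leaf is the source
        subst hv
        obtain ⟨rep, bit, k1, k2, k3, k4⟩ := rep_step (B := B) (Ne.symm hst) hT'
          (P := fun q p => (e, p, q) ∈ T)
          (fun q p q' p' a b => (hC _ a _ b rfl).symm) (τ := τ) (bit' := bit') h2 h4
        refine ⟨rep, bit, fun φ hφ => ?_, k3, fun φ hφ => ?_, fun H hH => ?_⟩
        · by_cases hφe : φ.1 = e
          · obtain ⟨e', p, q⟩ := φ
            simp only at hφe
            subst hφe
            simp only [sl, tl]
            rw [(k2 q p hφ).1, (k1 (B.tgt e', q) (Ne.symm hst)).1]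
          · have hm : φ ∈ T.filter (fun φ => φ.1 ≠ e) := Finset.mem_filter.2 ⟨hφ, hφe⟩
            obtain ⟨i1, i2⟩ := hT' φ hm
            rw [(k1 (sl B φ) i1).1, (k1 (tl B φ) i2).1]
            exact h1 φ hm
        · by_cases hφe : φ.1 = e
          · obtain ⟨e', p, q⟩ := φ
            simp only at hφe
            subst hφe
            simp only [sl, tl]
            rw [(k2 q p hφ).1, (k2 q p hφ).2, (k1 (B.tgt e', q) (Ne.symm hst)).2]
            cases bit' (B.tgt e', q) <;> cases τ (rep' (B.tgt e', q)) <;> rfl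
          · have hm : φ ∈ T.filter (fun φ => φ.1 ≠ e) := Finset.mem_filter.2 ⟨hφ, hφe⟩
            obtain ⟨i1, i2⟩ := hT' φ hm
            rw [(k1 (sl B φ) i1).1, (k1 (sl B φ) i1).2, (k1 (tl B φ) i2).2]
            exact h3 φ hm
        · exact k4 H (fun φ hφ => hH φ (Finset.mem_filter.1 hφ).1)
            (fun q p a => (hH _ a).symm)
      · -- the leaf is the target
        subst hv
        obtain ⟨rep, bit, k1, k2, k3, k4⟩ := rep_step (B := B) hst hT'
          (P := fun p q => (e, p, q) ∈ T)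
          (fun p q p' q' a b => hC _ a _ b rfl) (τ := τ) (bit' := bit') h2 h4
        refine ⟨rep, bit, fun φ hφ => ?_, k3, fun φ hφ => ?_, fun H hH => ?_⟩
        · by_cases hφe : φ.1 = e
          · obtain ⟨e', p, q⟩ := φ
            simp only at hφe
            subst hφe
            simp only [sl, tl]
            rw [(k2 p q hφ).1, (k1 (B.src e', p) hst).1]
          · have hm : φ ∈ T.filter (fun φ => φ.1 ≠ e) := Finset.mem_filter.2 ⟨hφ, hφe⟩
            obtain ⟨i1, i2⟩ := hT' φ hm
            rw [(k1 (sl B φ) i1).1, (k1 (tl B φ) i2).1]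
            exact h1 φ hm
        · by_cases hφe : φ.1 = e
          · obtain ⟨e', p, q⟩ := φ
            simp only at hφe
            subst hφe
            simp only [sl, tl]
            rw [(k2 p q hφ).2, (k1 (B.src e', p) hst).1, (k1 (B.src e', p) hst).2]
          · have hm : φ ∈ T.filter (fun φ => φ.1 ≠ e) := Finset.mem_filter.2 ⟨hφ, hφe⟩
            obtain ⟨i1, i2⟩ := hT' φ hm
            rw [(k1 (sl B φ) i1).1, (k1 (sl B φ) i1).2, (k1 (tl B φ) i2).2]
            exact h3 φ hm
        · exact k4 H (fun φ hφ => hH φ (Finset.mem_filter.1 hφ).1)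
            (fun p q a => hH _ a)
    · rw [Finset.not_nonempty_iff_eq_empty] at hne
      subst hne
      have hT : ∀ φ, φ ∉ T := fun φ hφ => Finset.notMem_empty _ (hTF φ hφ)
      exact ⟨id, fun _ => false, fun φ hφ => absurd hφ (hT φ), fun x y _ h => h,
        fun φ hφ => absurd hφ (hT φ), fun H _ x hx => hx⟩

theorem stRep : StRep := by
  intro V E S _ _ _ B g hB T hC hT τ
  exact rep_aux B g hB τ (T.image Prod.fst) (Finset.card_image_le.trans hT) T hC
    (fun φ hφ => Finset.mem_image_of_mem _ hφ)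

end Pool.Agent.Lib.MP_cff830_lc.AC0
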