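import Pool.Agent.Lib.MP_cff830_lc.AC0.Stmts
import Pool.Agent.Lib.MP_cff830_lc.AC0.Ins

/-!
# The induction over the levels
-/

namespace Pool.Agent.Lib.MP_cff830_lc.AC0

open Finset

theorem cnt_real {α : Type} [Fintype α] (P : α → Prop) [DecidablePred P] :
    ((cnt P : ℕ) : ℝ) = ∑ a, if P a then (1 : ℝ) else 0 := by
  rw [cnt_eq_sum]
  push_cast
  rfl

theorem girthy_mono {V E : Type} {B : Base V E} {g g' : ℕ} (h : Girthy B g) (hg : g' ≤ g) :
    Girthy B g' := fun F hF hFc => h F hF (hFc.trans hg)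

/-- one admissible set `R` -/
theorem step_one {V σ : Type} [Fintype V] [DecidableEq V] [Fintype σ] [DecidableEq σ]
    (R : Finset σ) (a : Bool → Lam V σ → ℝ) (ha : ∀ b l, 0 ≤ a b l ∧ a b l ≤ 1)
    (bad : Lam V σ → Prop) [DecidablePred bad] (δ : ℝ) (hδ : 0 ≤ δ)
    (hgood : ∀ l, ¬ bad l → |∑ μ : Lam V ↥R, a false (ins R l μ) -
      ∑ μ : Lam V ↥R, a true (ins R l μ)| ≤ δ * Fintype.card (Lam V ↥R)) :
    |∑ l, a false l - ∑ l, a true l| ≤
      (∑ l, if bad l then (1 : ℝ) else 0) + δ * Fintype.card (Lam V σ) := by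
  set L' : ℝ := (Fintype.card (Lam V ↥R) : ℝ) with hL'
  have hpos : 0 < L' := by
    rw [hL']
    exact_mod_cast Fintype.card_pos
  have h1 : ∀ b, ∑ l, ∑ μ : Lam V ↥R, a b (ins R l μ) = L' * ∑ l, a b l := by
    intro b
    rw [sum_ins, nsmul_eq_mul]
  have h2 : L' * |∑ l, a false l - ∑ l, a true l| ≤
      L' * ((∑ l, if bad l then (1 : ℝ) else 0) + δ * Fintype.card (Lam V σ)) := by
    calc L' * |∑ l, a false l - ∑ l, a true l|
        = |∑ l, (∑ μ : Lam V ↥R, a false (ins R l μ) - ∑ μ : Lam V ↥R, a true (ins R l μ))| := by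
          rw [Finset.sum_sub_distrib, h1, h1, ← mul_sub, abs_mul, abs_of_pos hpos]
      _ ≤ ∑ l, |∑ μ : Lam V ↥R, a false (ins R l μ) - ∑ μ : Lam V ↥R, a true (ins R l μ)| :=
          Finset.abs_sum_le_sum_abs _ _
      _ ≤ ∑ l, ((if bad l then (1 : ℝ) else 0) * L' + δ * L') := by
          refine Finset.sum_le_sum fun l _ => ?_
          by_cases hb : bad l
          · rw [if_pos hb, one_mul]
            have h3 : |∑ μ : Lam V ↥R, a false (ins R l μ) -
                ∑ μ : Lam V ↥R, a true (ins R l μ)| ≤ L' := by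
              rw [abs_sub_le_iff]
              have hs : ∀ b, 0 ≤ ∑ μ : Lam V ↥R, a b (ins R l μ) ∧
                  ∑ μ : Lam V ↥R, a b (ins R l μ) ≤ L' := by
                intro b
                refine ⟨Finset.sum_nonneg fun μ _ => (ha b _).1, ?_⟩
                calc ∑ μ : Lam V ↥R, a b (ins R l μ) ≤ ∑ _μ : Lam V ↥R, (1 : ℝ) :=
                      Finset.sum_le_sum fun μ _ => (ha b _).2
                  _ = L' := by simp [hL']
              constructor
              · linarith [(hs false).2, (hs true).1]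
              · linarith [(hs true).2, (hs false).1]
            have : 0 ≤ δ * L' := by positivity
            linarith
          · rw [if_neg hb, zero_mul, zero_add]
            exact hgood l hb
      _ = L' * ((∑ l, if bad l then (1 : ℝ) else 0) + δ * Fintype.card (Lam V σ)) := by
          rw [Finset.sum_add_distrib, ← Finset.sum_mul, Finset.sum_const, nsmul_eq_mul]
          simp only [Finset.card_univ]
          ring
  exact le_of_mul_le_mul_left h2 hpos

theorem exists_isR {σ : Type} [Fintype σ] [DecidableEq σ] (m : ℕ) (j0 : σ) (hm : 1 ≤ m)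
    (hm' : m ≤ Fintype.card σ) : 0 < cnt (fun R : Finset σ => IsR m j0 R) := by
  classical
  obtain ⟨R, hR1, _, hR3⟩ := Finset.exists_subsuperset_card_eq (s := {j0}) (t := univ)
    (Finset.subset_univ _) (n := m) (by simpa using hm) (by simpa using hm')
  rw [cnt_eq, Finset.card_pos]
  exact ⟨R, Finset.mem_filter.2 ⟨Finset.mem_univ _, hR3, by simpa using hR1⟩⟩

theorem stStep (h8 : StSwitch) : StStep := by
  classical
  intro d hd k r Δ
  obtain ⟨C, g1, r1, hC, hsw⟩ := h8 (k + 1) r Δ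
  obtain ⟨c2, g2, hc2, hcl⟩ := hd (C * (k + 1)) r1 Δ
  refine ⟨c2 * C, max g1 g2, Nat.mul_pos hc2 hC, ?_⟩
  intro V E _ _ _ _ B hdeg hg
  obtain ⟨x1, hx1⟩ := hsw V E B hdeg (girthy_mono hg (le_max_left _ _))
  obtain ⟨x2, hx2⟩ := hcl V E B hdeg (girthy_mono hg (le_max_right _ _))
  refine ⟨max (max x1 x2) 2, ?_⟩
  intro x hx σ _ _ t j0 hσ ι _ hι f hf0 hlay j
  have hxx1 : x1 ≤ x := le_trans (le_trans (le_max_left _ _) (le_max_left _ _)) hx
  have hxx2 : x2 ≤ x := le_trans (le_trans (le_max_right _ _) (le_max_left _ _)) hx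
  have hx22 : 2 ≤ x := le_trans (le_max_right _ _) hx
  set m := x ^ c2 with hm
  have hmx : x ≤ m := Nat.le_self_pow hc2.ne' _
  have hM : x ^ (c2 * C) = m ^ C := by rw [hm, ← pow_mul]
  rw [hM] at hσ hι
  have hι1 : Fintype.card ι ≤ (m ^ C) ^ (k + 1) :=
    hι.trans (Nat.pow_le_pow_right (by positivity) (Nat.le_succ k))
  have hbad := hx1 m (hxx1.trans hmx) σ t j0 hσ ι hι1 (f 0) (f 1) hf0 (hlay 0 (Nat.succ_pos d))
  set NR := cnt (fun R : Finset σ => IsR m j0 R) with hNR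
  have hNRpos : 0 < NR := exists_isR m j0 (by omega)
    (by rw [hσ]; exact Nat.le_self_pow hC.ne' _)
  set a : Bool → Lam V σ → ℝ := fun b l => if f (d + 1) j (b, l) = true then (1 : ℝ) else 0
    with ha
  set bad : Finset σ → Lam V σ → Prop := fun R l =>
    ∃ hj : j0 ∈ R, ∃ j, ¬ Cert B (rt R t) ⟨j0, hj⟩ r1 (res R l (f 1 j)) with hbaddef
  set D : ℝ := |∑ l, a false l - ∑ l, a true l| with hD
  set L : ℝ := (Fintype.card (Lam V σ) : ℝ) with hL
  have hLpos : 0 < L := by rw [hL]; exact_mod_cast Fintype.card_pos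
  set δ : ℝ := 1 / ((m : ℝ) ^ (C * (k + 1))) with hδ
  have hmpos : (0 : ℝ) < m := by
    have : 0 < m := by omega
    exact_mod_cast this
  -- each admissible R
  have hR : ∀ R : Finset σ, IsR m j0 R →
      D ≤ (∑ l, if bad R l then (1 : ℝ) else 0) + δ * L := by
    rintro R ⟨hRc, hj⟩
    refine step_one R a (fun b l => ?_) (bad R) δ (by positivity) fun l hl => ?_
    · simp only [ha]; split_ifs <;> norm_num
    · have hl' : ∀ i, Cert B (rt R t) ⟨j0, hj⟩ r1 (res R l (f 1 i)) := by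
        intro i
        by_contra hc
        exact hl ⟨hj, i, hc⟩
      have h := hx2 x hxx2 ↥R (rt R t) ⟨j0, hj⟩ (by rw [Fintype.card_coe, hRc]) ι
        (by rw [← hm, pow_mul]; exact hι1)
        (fun i j => res R l (f (i + 1) j)) hl'
        (fun i hi => by
          intro j'
          obtain ⟨ν, A, hA⟩ := hlay (i + 1) (by omega) j'
          exact ⟨ν, A, fun ω => hA (ω.1, ins R l ω.2)⟩) j
      rw [cnt_real, cnt_real] at h
      have hmc : ((x : ℝ) ^ c2) = (m : ℝ) := by rw [hm]; push_cast; rfl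
      rw [hmc] at h
      rw [hδ, div_mul_eq_mul_div, one_mul, le_div_iff₀ (by positivity)]
      exact h
  -- sum over R
  have hsum : (NR : ℝ) * D ≤ (cnt (fun ρ : Finset σ × Lam V σ => IsR m j0 ρ.1 ∧
      bad ρ.1 ρ.2) : ℝ) + NR * (δ * L) := by
    have e1 : (NR : ℝ) = ∑ R : Finset σ, if IsR m j0 R then (1 : ℝ) else 0 := by
      rw [hNR, cnt_real]
    have e2 : (cnt (fun ρ : Finset σ × Lam V σ => IsR m j0 ρ.1 ∧ bad ρ.1 ρ.2) : ℝ) =
        ∑ R : Finset σ, if IsR m j0 R then (∑ l, if bad R l then (1 : ℝ) else 0) else 0 := by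
      rw [cnt_real, Fintype.sum_prod_type]
      refine Finset.sum_congr rfl fun R _ => ?_
      by_cases hRR : IsR m j0 R
      · simp [hRR]
      · simp [hRR]
    rw [e1, e2, Finset.sum_mul, Finset.sum_mul, ← Finset.sum_add_distrib]
    refine Finset.sum_le_sum fun R _ => ?_
    by_cases hRR : IsR m j0 R
    · simp only [if_pos hRR, one_mul]
      exact hR R hRR
    · simp [hRR]
  -- numbers
  have hMk : (0 : ℝ) < ((m : ℝ) ^ C) ^ (k + 1) := by positivity
  have hbad' : (cnt (fun ρ : Finset σ × Lam V σ => IsR m j0 ρ.1 ∧ bad ρ.1 ρ.2) : ℝ) *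
      ((m : ℝ) ^ C) ^ (k + 1) ≤ NR * L := by
    rw [hL]
    exact_mod_cast hbad
  have hδ' : δ * (((m : ℝ) ^ C) ^ (k + 1)) = 1 := by
    rw [hδ, pow_mul, one_div, inv_mul_cancel₀ hMk.ne']
  have h3 : (NR : ℝ) * (D * ((m : ℝ) ^ C) ^ (k + 1)) ≤ NR * (2 * L) := by
    calc (NR : ℝ) * (D * ((m : ℝ) ^ C) ^ (k + 1))
        = (NR * D) * ((m : ℝ) ^ C) ^ (k + 1) := by ring
      _ ≤ ((cnt (fun ρ : Finset σ × Lam V σ => IsR m j0 ρ.1 ∧ bad ρ.1 ρ.2) : ℝ) +
            NR * (δ * L)) * ((m : ℝ) ^ C) ^ (k + 1) :=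
          mul_le_mul_of_nonneg_right hsum hMk.le
      _ = (cnt (fun ρ : Finset σ × Lam V σ => IsR m j0 ρ.1 ∧ bad ρ.1 ρ.2) : ℝ) *
            ((m : ℝ) ^ C) ^ (k + 1) + NR * L * (δ * ((m : ℝ) ^ C) ^ (k + 1)) := by ring
      _ ≤ NR * L + NR * L * 1 := by rw [hδ']; linarith
      _ = NR * (2 * L) := by ring
  have hNRr : (0 : ℝ) < NR := by exact_mod_cast hNRpos
  have h4 : D * ((m : ℝ) ^ C) ^ (k + 1) ≤ 2 * L := le_of_mul_le_mul_left h3 hNRr
  have hM2 : (2 : ℝ) ≤ (m : ℝ) ^ C := by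
    have h5 : 2 ≤ m ^ C := (hx22.trans hmx).trans (Nat.le_self_pow hC.ne' _)
    exact_mod_cast h5
  have hD0 : 0 ≤ D := abs_nonneg _
  have h6 : D * ((m : ℝ) ^ C) ^ k * 2 ≤ 2 * L := by
    calc D * ((m : ℝ) ^ C) ^ k * 2 ≤ D * ((m : ℝ) ^ C) ^ k * (m : ℝ) ^ C :=
          mul_le_mul_of_nonneg_left hM2 (by positivity)
      _ = D * ((m : ℝ) ^ C) ^ (k + 1) := by rw [pow_succ]; ring
      _ ≤ 2 * L := h4
  have hxm : ((x : ℝ) ^ (c2 * C)) = (m : ℝ) ^ C := by
    rw [hm]; push_cast; rw [pow_mul]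
  rw [hxm, cnt_real, cnt_real]
  change D * ((m : ℝ) ^ C) ^ k ≤ L
  linarith

theorem claimAll (h11 : StZero) (h12 : StStep) : ∀ d, Claim d := by
  intro d
  induction d with
  | zero =>
    intro k r Δ
    refine ⟨1, 2 * r * r + 2 * r, one_pos, ?_⟩
    intro V E _ _ _ _ B _ hg
    refine ⟨2 * (2 * r * r + 2 * r) + 1, ?_⟩
    intro x hx σ _ _ t j0 hσ ι _ _ f hf0 _ j
    have h := h11 V E σ B r _ hg le_rfl (by rw [hσ]; simpa using hx) t j0 (f 0 j) (hf0 j)
    rw [h]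
    simp
  | succ d ih => exact h12 d ih

end Pool.Agent.Lib.MP_cff830_lc.AC0
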