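import Pool.Agent.Lib.MP_cff830_lc.AC0.Stmts
import Pool.Agent.Lib.MP_cff830_lc.AC0.Ins

/-!
# A8: one switching step
-/

namespace Pool.Agent.Lib.MP_cff830_lc.AC0

open Finset

namespace Switch

theorem card_small (α : Type) [Fintype α] [DecidableEq α] (s : ℕ) :
    ((univ : Finset (Finset α)).filter fun A => A.card ≤ s).card ≤ (Fintype.card α + 1) ^ s := by
  induction s with
  | zero =>
    have h : ((univ : Finset (Finset α)).filter fun A => A.card ≤ 0) ⊆ {∅} := by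
      intro A hA
      simp only [mem_filter, mem_univ, true_and, Nat.le_zero, card_eq_zero] at hA
      simp [hA]
    calc _ ≤ ({∅} : Finset (Finset α)).card := card_le_card h
      _ = 1 := by simp
      _ = _ := by simp
  | succ s ih =>
    have h : ((univ : Finset (Finset α)).filter fun A => A.card ≤ s + 1) ⊆
        ((((univ : Finset (Finset α)).filter fun A => A.card ≤ s) ×ˢ
          (univ : Finset (Option α))).image
          fun x => match x.2 with
            | none => x.1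
            | some a => insert a x.1) := by
      intro A hA
      simp only [mem_filter, mem_univ, true_and] at hA
      rw [mem_image]
      rcases A.eq_empty_or_nonempty with rfl | ⟨a, ha⟩
      · exact ⟨(∅, none), by simp, rfl⟩
      · refine ⟨(A.erase a, some a), ?_, ?_⟩
        · simp only [mem_product, mem_filter, mem_univ, true_and, and_true]
          rw [card_erase_of_mem ha]
          omega
        · simp [insert_erase ha]
    calc _ ≤ _ := card_le_card h
      _ ≤ _ := card_image_le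
      _ = ((univ : Finset (Finset α)).filter fun A => A.card ≤ s).card *
          (Fintype.card α + 1) := by
        rw [card_product]; simp
      _ ≤ (Fintype.card α + 1) ^ s * (Fintype.card α + 1) := Nat.mul_le_mul_right _ ih
      _ = _ := by rw [pow_succ]

/-- union bound -/
theorem cnt_exists_le {α β : Type} [Fintype α] (S : Finset β) (P : β → α → Prop) :
    cnt (fun a => ∃ b ∈ S, P b a) ≤ ∑ b ∈ S, cnt (P b) := by
  classical
  simp only [cnt_eq]
  calc _ ≤ (S.biUnion fun b => univ.filter (P b)).card := by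
        apply card_le_card
        intro a ha
        simp only [mem_filter, mem_univ, true_and, mem_biUnion] at ha ⊢
        exact ha
    _ ≤ _ := card_biUnion_le

/-- the sizes of the certificates -/
def sz (k r Δ : ℕ) : ℕ → ℕ
  | 0 => 0
  | i + 1 => sz k r Δ i + 4 * r * Δ * (2 * (2 * k + 3 * sz k r Δ i + 3))

/-- the numbers of witnesses -/
def wt (k r Δ : ℕ) (i : ℕ) : ℕ := 2 * (2 * k + 3 * sz k r Δ i + 3)

theorem cons_mono {E S : Type} {T T' : Finset (Fact E S)} (h : T ⊆ T') (hT : Cons T') :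
    Cons T := fun φ hφ ψ hψ => hT φ (h hφ) ψ (h hψ)

/-- arithmetic: one bad event -/
theorem arith1 {a N X M m C' K e : ℕ} (h : a * (M - 1) ^ K ≤ X ^ K * N) (hX : 0 < X)
    (h1 : X * m ^ C' ≤ M - 1) (hM : m ^ (C' * K) = M ^ e) : a * M ^ e ≤ N := by
  have h2 : a * (X * m ^ C') ^ K ≤ X ^ K * N :=
    le_trans (Nat.mul_le_mul_left _ (Nat.pow_le_pow_left h1 _)) h
  rw [mul_pow, ← pow_mul, hM] at h2
  have h3 : X ^ K * (a * M ^ e) ≤ X ^ K * N := by
    calc _ = a * (X ^ K * M ^ e) := by ring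
      _ ≤ _ := h2
  exact Nat.le_of_mul_le_mul_left h3 (by positivity)

theorem arith2 {m r : ℕ} (hm2 : 2 ≤ m) (hm : 2 ^ (2 * r) * r ≤ m) :
    ((2 * m) ^ (2 * r) * (r * (m - 1))) * m ^ (2 * r + 3) ≤ m ^ (4 * r + 6) - 1 := by
  have h1 : (2 * m) ^ (2 * r) * (r * (m - 1)) ≤ m ^ (2 * r + 2) := by
    calc (2 * m) ^ (2 * r) * (r * (m - 1)) = (2 ^ (2 * r) * r) * m ^ (2 * r) * (m - 1) := by
          rw [mul_pow]; ring
      _ ≤ m * m ^ (2 * r) * m := by
          apply Nat.mul_le_mul (Nat.mul_le_mul_right _ hm) (Nat.sub_le _ _)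
      _ = m ^ (2 * r + 2) := by ring
  have h2 : ((2 * m) ^ (2 * r) * (r * (m - 1))) * m ^ (2 * r + 3) ≤ m ^ (4 * r + 5) := by
    calc _ ≤ m ^ (2 * r + 2) * m ^ (2 * r + 3) := Nat.mul_le_mul_right _ h1
      _ = _ := by rw [← pow_add]; congr 1; ring
  have h3 : 2 * m ^ (4 * r + 5) ≤ m ^ (4 * r + 6) := by
    calc 2 * m ^ (4 * r + 5) ≤ m * m ^ (4 * r + 5) := Nat.mul_le_mul_right _ hm2
      _ = _ := by ring
  have h4 : 1 ≤ m ^ (4 * r + 5) := Nat.one_le_pow _ _ (by omega)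
  omega

end Switch

open Switch in
theorem stSwitch (hA : StA) (hB : StB) : StSwitch := by
  classical
  intro k r0 Δ
  obtain ⟨r, hr⟩ : ∃ r, r = r0 + 1 := ⟨_, rfl⟩
  refine ⟨4 * r + 6, r * ∑ i ∈ range r, wt k r Δ i, max r (sz k r Δ r), by omega, ?_⟩
  intro V E _ _ _ _ B hDeg hG
  refine ⟨2 + 2 ^ (2 * r) * r + (2 * r + 1) * (∑ i ∈ range r, wt k r Δ i) + 1 +
    (4 * Fintype.card E + 1) + r, ?_⟩
  intro m hm σ _ _ t j0 hσ ι _ hι f h hf hL
  obtain ⟨M, hM⟩ : ∃ M, M = m ^ (4 * r + 6) := ⟨_, rfl⟩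
  rw [← hM] at hσ hι ⊢
  have hmM : m ≤ M := by
    rw [hM]
    exact Nat.le_self_pow (by omega) _
  have hM1 : 1 ≤ M := by omega
  have hwt : ∀ i < r, wt k r Δ i ≤ ∑ i ∈ range r, wt k r Δ i := fun i hi =>
    single_le_sum (f := fun i => wt k r Δ i) (fun _ _ => Nat.zero_le _) (mem_range.2 hi)
  have hS : (2 * r + 1) * (∑ i ∈ range r, wt k r Δ i) + 1 ≤ m := by omega
  have hm2 : 2 ≤ m := by omega
  have hm3 : 2 ^ (2 * r) * r ≤ m := by omega
  have hm4 : 4 * Fintype.card E + 1 ≤ m := by omega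
  have hm5 : r ≤ m := by omega
  -- the families
  have hFam : ∀ j, ∃ (ν : Bool) (F : Finset (Finset (Fact E (σ × Bool)))),
      (∀ C ∈ F, C.card ≤ r) ∧
      ∀ ω, h j ω = ν ↔ ∃ C ∈ F, ∀ φ ∈ C, HoldI B t j0 ω φ := by
    intro j
    obtain ⟨ν, A, hA'⟩ := hL j
    refine ⟨ν, univ.filter (fun C => C.card ≤ r ∧
      ∀ ω, (∀ φ ∈ C, HoldI B t j0 ω φ) → h j ω = ν), ?_, ?_⟩
    · intro C hC
      simp only [mem_filter, mem_univ, true_and] at hC
      exact hC.1
    · intro ω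
      constructor
      · intro hω
        obtain ⟨x, hx, hx2⟩ := (hA' ω).1 hω
        obtain ⟨C, hC1, hC2, hC3⟩ := hf x.1 ω
        refine ⟨C, ?_, hC2⟩
        simp only [mem_filter, mem_univ, true_and]
        refine ⟨by omega, fun ω' hω' => ?_⟩
        rw [hA' ω']
        exact ⟨x, hx, by rw [hC3 ω' hω', hx2]⟩
      · rintro ⟨C, hC, hC2⟩
        simp only [mem_filter, mem_univ, true_and] at hC
        exact hC.2 ω hC2
  choose ν F hF1 hF2 using hFam
  -- if no bad event happens the gate is certifiable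
  have hcert : ∀ (R : Finset σ) (hj : j0 ∈ R) (l : Lam V σ) j,
      ¬ Cert B (rt R t) ⟨j0, hj⟩ (max r (sz k r Δ r)) (res R l (h j)) →
      ∃ i < r, ∃ A : Finset (Fact E (σ × Bool)), A.card ≤ sz k r Δ i ∧
        Bad B t (wt k r Δ i) (FA (F j) A) R l := by
    intro R hj l j hn
    by_contra hcon
    push Not at hcon
    have hc := hB V E σ B t j0 Δ r hDeg R hj l (F j) (hF1 j) (fun ω => decide (h j ω = ν j))
      (by
        intro ω
        rw [decide_eq_true_iff]
        exact hF2 j ω) (wt k r Δ) (sz k r Δ) rfl (fun i => rfl)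
      (fun i hi A hA2 => hcon i hi A hA2)
    apply hn
    intro ω
    obtain ⟨C, hC1, hC2, hC3⟩ := hc ω
    refine ⟨C, hC1, hC2, fun ω' hω' => ?_⟩
    have h3 := hC3 ω' hω'
    simp only [res, decide_eq_decide] at h3 ⊢
    generalize h j (ω'.1, ins R l ω'.2) = a at h3 ⊢
    generalize h j (ω.1, ins R l ω.2) = b at h3 ⊢
    generalize ν j = c at h3
    revert a b c
    decide
  -- the bound of one event
  obtain ⟨N, hN⟩ : ∃ N, N = cnt (fun R : Finset σ => IsR m j0 R) * Fintype.card (Lam V σ) :=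
    ⟨_, rfl⟩
  rw [← hN]
  have hone : ∀ j, ∀ i < r, ∀ A : Finset (Fact E (σ × Bool)),
      cnt (fun ρ : Finset σ × Lam V σ => IsR m j0 ρ.1 ∧
        Bad B t (wt k r Δ i) (FA (F j) A) ρ.1 ρ.2) * M ^ (2 * k + 3 * sz k r Δ i + 3) ≤ N := by
    intro j i hi A
    have hw := hwt i hi
    have hw2 : 2 * r * wt k r Δ i + wt k r Δ i ≤ (2 * r + 1) * (∑ i ∈ range r, wt k r Δ i) := by
      calc 2 * r * wt k r Δ i + wt k r Δ i = (2 * r + 1) * wt k r Δ i := by ring
        _ ≤ _ := Nat.mul_le_mul_left _ hw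
    have h1 := hA V E σ B t j0 (r * ∑ i ∈ range r, wt k r Δ i) r (wt k r Δ i) m hG
      (Nat.mul_le_mul_left _ hw) (by omega) (by omega) (by omega) (FA (F j) A) (by
        intro T hT
        simp only [FA, mem_image, mem_filter] at hT
        obtain ⟨C, ⟨hC1, hC2⟩, rfl⟩ := hT
        refine ⟨cons_mono (sdiff_subset.trans subset_union_left) hC2, ?_⟩
        exact (card_le_card sdiff_subset).trans (hF1 j C hC1))
    rw [hσ, ← hN] at h1
    refine arith1 (m := m) (C' := 2 * r + 3) h1 ?_ ?_ ?_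
    · have : 0 < m - 1 := by omega
      have : 0 < r := by omega
      positivity
    · rw [hM]
      exact arith2 hm2 hm3
    · rw [hM, ← pow_mul]
      congr 1
      unfold wt
      ring
  -- the number of sets
  have hfact : Fintype.card (Fact E (σ × Bool)) + 1 ≤ M ^ 3 := by
    have : Fintype.card (Fact E (σ × Bool)) = 4 * Fintype.card E * M ^ 2 := by
      simp only [Fact, Fintype.card_prod, hσ, Fintype.card_bool]
      ring
    rw [this]
    calc 4 * Fintype.card E * M ^ 2 + 1 ≤ 4 * Fintype.card E * M ^ 2 + M ^ 2 := by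
          have : 1 ≤ M ^ 2 := Nat.one_le_pow _ _ (by omega)
          omega
      _ = (4 * Fintype.card E + 1) * M ^ 2 := by ring
      _ ≤ M * M ^ 2 := Nat.mul_le_mul_right _ (by omega)
      _ = M ^ 3 := by ring
  have htwo : ∀ j, ∀ i < r,
      (∑ A ∈ univ.filter (fun A : Finset (Fact E (σ × Bool)) => A.card ≤ sz k r Δ i),
        cnt (fun ρ : Finset σ × Lam V σ => IsR m j0 ρ.1 ∧
        Bad B t (wt k r Δ i) (FA (F j) A) ρ.1 ρ.2)) * M ^ (2 * k + 3) ≤ N := by
    intro j i hi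
    have h1 : (∑ A ∈ univ.filter (fun A : Finset (Fact E (σ × Bool)) => A.card ≤ sz k r Δ i),
        cnt (fun ρ : Finset σ × Lam V σ => IsR m j0 ρ.1 ∧
        Bad B t (wt k r Δ i) (FA (F j) A) ρ.1 ρ.2)) * M ^ (2 * k + 3 * sz k r Δ i + 3) ≤
        (M ^ 3) ^ (sz k r Δ i) * N := by
      rw [sum_mul]
      calc _ ≤ ∑ A ∈ univ.filter (fun A : Finset (Fact E (σ × Bool)) => A.card ≤ sz k r Δ i),
            N := sum_le_sum fun A _ => hone j i hi A
        _ = (univ.filter (fun A : Finset (Fact E (σ × Bool)) =>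
            A.card ≤ sz k r Δ i)).card * N := by simp
        _ ≤ _ := by
          apply Nat.mul_le_mul_right
          exact (card_small _ _).trans (Nat.pow_le_pow_left hfact _)
    have h2 : M ^ (2 * k + 3 * sz k r Δ i + 3) = (M ^ 3) ^ (sz k r Δ i) * M ^ (2 * k + 3) := by
      rw [← pow_mul, ← pow_add]; congr 1; ring
    rw [h2] at h1
    have h3 : (M ^ 3) ^ (sz k r Δ i) * ((∑ A ∈ univ.filter
        (fun A : Finset (Fact E (σ × Bool)) => A.card ≤ sz k r Δ i),
        cnt (fun ρ : Finset σ × Lam V σ => IsR m j0 ρ.1 ∧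
        Bad B t (wt k r Δ i) (FA (F j) A) ρ.1 ρ.2)) * M ^ (2 * k + 3)) ≤
        (M ^ 3) ^ (sz k r Δ i) * N := by
      calc _ = _ := by ring
        _ ≤ _ := h1
    exact Nat.le_of_mul_le_mul_left h3 (by positivity)
  -- union bound
  have hun : cnt (fun ρ : Finset σ × Lam V σ => IsR m j0 ρ.1 ∧
        ∃ hj : j0 ∈ ρ.1, ∃ j, ¬ Cert B (rt ρ.1 t) ⟨j0, hj⟩ (max r (sz k r Δ r))
          (res ρ.1 ρ.2 (h j))) ≤
      ∑ j : ι, ∑ i ∈ range r,
        ∑ A ∈ univ.filter (fun A : Finset (Fact E (σ × Bool)) => A.card ≤ sz k r Δ i),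
        cnt (fun ρ : Finset σ × Lam V σ => IsR m j0 ρ.1 ∧
        Bad B t (wt k r Δ i) (FA (F j) A) ρ.1 ρ.2) := by
    calc _ ≤ cnt (fun ρ : Finset σ × Lam V σ => ∃ j ∈ (univ : Finset ι), ∃ i ∈ range r,
          ∃ A ∈ univ.filter (fun A : Finset (Fact E (σ × Bool)) => A.card ≤ sz k r Δ i),
          IsR m j0 ρ.1 ∧ Bad B t (wt k r Δ i) (FA (F j) A) ρ.1 ρ.2) := by
          apply cnt_mono
          rintro ⟨R, l⟩ ⟨hR, hj, j, hn⟩
          obtain ⟨i, hi, A, hA1, hA2⟩ := hcert R hj l j hn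
          exact ⟨j, mem_univ _, i, mem_range.2 hi, A, by simpa using hA1, hR, hA2⟩
      _ ≤ _ := cnt_exists_le _ _
      _ ≤ _ := sum_le_sum fun j _ => (cnt_exists_le _ _).trans
          (sum_le_sum fun i _ => cnt_exists_le _ _)
  have hfin : cnt (fun ρ : Finset σ × Lam V σ => IsR m j0 ρ.1 ∧
        ∃ hj : j0 ∈ ρ.1, ∃ j, ¬ Cert B (rt ρ.1 t) ⟨j0, hj⟩ (max r (sz k r Δ r))
          (res ρ.1 ρ.2 (h j))) * M ^ (2 * k + 3) ≤ M ^ (k + 1) * N := by
    calc _ ≤ (∑ j : ι, ∑ i ∈ range r,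
        ∑ A ∈ univ.filter (fun A : Finset (Fact E (σ × Bool)) => A.card ≤ sz k r Δ i),
        cnt (fun ρ : Finset σ × Lam V σ => IsR m j0 ρ.1 ∧
        Bad B t (wt k r Δ i) (FA (F j) A) ρ.1 ρ.2)) * M ^ (2 * k + 3) :=
          Nat.mul_le_mul_right _ hun
      _ = ∑ j : ι, ∑ i ∈ range r,
        (∑ A ∈ univ.filter (fun A : Finset (Fact E (σ × Bool)) => A.card ≤ sz k r Δ i),
        cnt (fun ρ : Finset σ × Lam V σ => IsR m j0 ρ.1 ∧
        Bad B t (wt k r Δ i) (FA (F j) A) ρ.1 ρ.2)) * M ^ (2 * k + 3) := by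
          rw [sum_mul]
          exact sum_congr rfl fun j _ => by rw [sum_mul]
      _ ≤ ∑ j : ι, ∑ i ∈ range r, N := sum_le_sum fun j _ => sum_le_sum fun i hi =>
          htwo j i (mem_range.1 hi)
      _ = Fintype.card ι * (r * N) := by simp
      _ ≤ M ^ k * (M * N) := Nat.mul_le_mul hι (Nat.mul_le_mul_right _ (by omega))
      _ = _ := by ring
  have h2 : M ^ (2 * k + 3) = M ^ (k + 1) * M ^ (k + 2) := by
    rw [← pow_add]; congr 1; ring
  rw [h2] at hfin
  have h3 : cnt (fun ρ : Finset σ × Lam V σ => IsR m j0 ρ.1 ∧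
        ∃ hj : j0 ∈ ρ.1, ∃ j, ¬ Cert B (rt ρ.1 t) ⟨j0, hj⟩ (max r (sz k r Δ r))
          (res ρ.1 ρ.2 (h j))) * M ^ (k + 2) ≤ N := by
    have h4 : M ^ (k + 1) * (cnt (fun ρ : Finset σ × Lam V σ => IsR m j0 ρ.1 ∧
        ∃ hj : j0 ∈ ρ.1, ∃ j, ¬ Cert B (rt ρ.1 t) ⟨j0, hj⟩ (max r (sz k r Δ r))
          (res ρ.1 ρ.2 (h j))) * M ^ (k + 2)) ≤ M ^ (k + 1) * N := by
      calc _ = _ := by ring
        _ ≤ _ := hfin
    exact Nat.le_of_mul_le_mul_left h4 (by positivity)
  refine le_trans (Nat.mul_le_mul_left _ ?_) h3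
  exact Nat.pow_le_pow_right hM1 (by omega)

end Pool.Agent.Lib.MP_cff830_lc.AC0
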