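import Pool.Agent.Lib.MP_cff830_lc.AC0.Stmts
import Pool.Agent.Lib.MP_cff830_lc.AC0.Ins

/-!
# A7: if no family is bad then the restricted function is certifiable
-/

namespace Pool.Agent.Lib.MP_cff830_lc.AC0

open Finset

namespace TreeM

section

variable {V E σ : Type} [Fintype V] [DecidableEq V] [Fintype E] [DecidableEq E] [Fintype σ]
  [DecidableEq σ] (B : Base V E) (t : σ → Bool) (j0 : σ)

theorem mem_FA (F : Finset (Finset (Fact E (σ × Bool)))) (A T : Finset (Fact E (σ × Bool))) :
    T ∈ FA F A ↔ ∃ C ∈ F, Cons (C ∪ A) ∧ C \ A = T := by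
  unfold FA
  simp only [Finset.mem_image, Finset.mem_filter]
  constructor
  · rintro ⟨C, ⟨h1, h2⟩, h3⟩
    exact ⟨C, h1, h2, h3⟩
  · rintro ⟨C, h1, h2, h3⟩
    exact ⟨C, ⟨h1, h2⟩, h3⟩

/-- facts that hold in the same instance are consistent -/
theorem cons_of_hold (t : σ → Bool) (l : Lam V σ) (T : Finset (Fact E (σ × Bool)))
    (h : ∀ φ ∈ T, Hold B t l φ) : Cons T := by
  intro φ hφ ψ hψ he
  have h1 := h φ hφ
  have h2 := h ψ hψ
  unfold Hold at h1 h2
  rw [← h1, ← h2, he]
  exact (ptr B t l ψ.1).injective.eq_iff.symm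

theorem cons_mono {E S : Type} {T T' : Finset (Fact E S)} (h : T ⊆ T') (hc : Cons T') :
    Cons T := fun φ hφ ψ hψ => hc φ (h hφ) ψ (h hψ)

theorem apart_symm {R : Finset σ} {l : Lam V σ} {T T' : Finset (Fact E (σ × Bool))}
    (h : Apart B t R l T T') : Apart B t R l T' T := by
  intro φ hφ hφ' ψ hψ hψ'
  obtain ⟨h1, h2, h3, h4⟩ := h ψ hψ hψ' φ hφ hφ'
  exact ⟨h1.symm, h3.symm, h2.symm, h4.symm⟩

/-- the certificate of a set of facts that hold -/
theorem preimage (R : Finset σ) (hj : j0 ∈ R) (l : Lam V σ) (A : Finset (Fact E (σ × Bool)))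
    (b : Bool) (μ : Lam V ↥R) (hA : ∀ φ ∈ A, HoldI B t j0 (b, ins R l μ) φ) :
    ∃ C : Finset (Fact E (↥R × Bool)), C.card ≤ A.card ∧
      (∀ φ ∈ C, HoldI B (rt R t) ⟨j0, hj⟩ (b, μ) φ) ∧
      ∀ ω : Ins V ↥R, (∀ φ ∈ C, HoldI B (rt R t) ⟨j0, hj⟩ ω φ) →
        ∀ φ ∈ A, HoldI B t j0 (ω.1, ins R l ω.2) φ := by
  classical
  set g : Fact E (↥R × Bool) → Fact E (σ × Bool) := fun ψ =>
    (ψ.1, l (B.src ψ.1) (emb ψ.2.1), l (B.tgt ψ.1) (emb ψ.2.2)) with hg
  have hginj : Function.Injective g := by
    rintro ⟨e, x, y⟩ ⟨e', x', y'⟩ h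
    simp only [hg, Prod.mk.injEq] at h
    obtain ⟨rfl, h2, h3⟩ := h
    have h4 := emb_injective ((l (B.src e)).injective h2)
    have h5 := emb_injective ((l (B.tgt e)).injective h3)
    rw [h4, h5]
  refine ⟨univ.filter (fun ψ => g ψ ∈ A), ?_, ?_, ?_⟩
  · apply Finset.card_le_card_of_injOn g
    · intro ψ hψ
      simpa using hψ
    · exact fun _ _ _ _ h => hginj h
  · rintro ⟨e, x, y⟩ hφ
    rw [Finset.mem_filter] at hφ
    have h1 := hA _ hφ.2
    unfold HoldI at h1 ⊢
    simp only [hg] at h1
    rw [hold_ins_emb, rt_update hj] at h1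
    exact h1
  · rintro ⟨b2, μ2⟩ hω φ hφ
    have h1 := hA φ hφ
    unfold HoldI at h1 ⊢
    simp only at h1 ⊢
    by_cases hs : ((l (B.src φ.1))⁻¹ φ.2.1).1 ∈ R
    · have hs2 : ((l (B.tgt φ.1))⁻¹ φ.2.2).1 ∈ R := by
        have h2 := hold_slot h1
        rw [← ins_slot_mem (μ := μ), h2, ins_slot_mem]
        exact hs
      obtain ⟨x, hx⟩ := exists_emb hs
      obtain ⟨y, hy⟩ := exists_emb hs2
      have hx' : φ.2.1 = l (B.src φ.1) (emb x) := by rw [hx]; simp
      have hy' : φ.2.2 = l (B.tgt φ.1) (emb y) := by rw [hy]; simp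
      have hφeq : φ = g (φ.1, x, y) := by
        simp only [hg]
        rw [← hx', ← hy']
      have h3 := hω (φ.1, x, y) (by
        rw [Finset.mem_filter]
        exact ⟨Finset.mem_univ _, by rw [← hφeq]; exact hφ⟩)
      unfold HoldI at h3
      simp only at h3
      rw [← rt_update hj, ← hold_ins_emb (l := l)] at h3
      rw [hφeq]
      exact h3
    · have h2 : Rev B (Function.update t j0 b) R (ins R l μ) φ :=
        ⟨h1, by rw [ins_slot_mem]; exact hs⟩
      rw [rev_ins, rev_update hj] at h2
      exact hold_of_rev ((rev_update hj b2 φ).mpr h2)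

theorem alive_update {R : Finset σ} {l : Lam V σ} (hj : j0 ∈ R) (b : Bool)
    {φ : Fact E (σ × Bool)} (h : Alive B (Function.update t j0 b) R l φ) : Alive B t R l φ := by
  rcases h with h | h
  · exact Or.inl ((rev_update hj b φ).mp h)
  · exact Or.inr h

/-- A maximal family of pairwise apart alive members. -/
theorem exists_maximal (R : Finset σ) (l : Lam V σ) (K : ℕ)
    (G : Finset (Finset (Fact E (σ × Bool))))
    (hK : ¬ ∃ T : Fin K → Finset (Fact E (σ × Bool)), (∀ i, T i ∈ G) ∧
      (∀ i, ∀ φ ∈ T i, Alive B t R l φ) ∧ ∀ i j, i ≠ j → Apart B t R l (T i) (T j)) :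
    ∃ q < K, ∃ T : Fin q → Finset (Fact E (σ × Bool)), (∀ i, T i ∈ G) ∧
      ∀ T' ∈ G, (∀ φ ∈ T', Alive B t R l φ) → ∃ j, ¬ Apart B t R l T' (T j) := by
  classical
  set Q : ℕ → Prop := fun q => ∃ T : Fin q → Finset (Fact E (σ × Bool)), (∀ i, T i ∈ G) ∧
      (∀ i, ∀ φ ∈ T i, Alive B t R l φ) ∧ ∀ i j, i ≠ j → Apart B t R l (T i) (T j) with hQ
  have hQ0 : Q 0 := ⟨fun i => i.elim0, fun i => i.elim0, fun i => i.elim0, fun i => i.elim0⟩
  have hex : ∃ q, ¬ Q q := ⟨K, hK⟩
  have h1 : ¬ Q (Nat.find hex) := Nat.find_spec hex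
  have h2 : Nat.find hex ≤ K := Nat.find_min' hex hK
  obtain ⟨q, hq⟩ : ∃ q, Nat.find hex = q + 1 := by
    rcases Nat.eq_zero_or_pos (Nat.find hex) with h | h
    · rw [h] at h1
      exact absurd hQ0 h1
    · exact ⟨Nat.find hex - 1, by omega⟩
  have h3 : Q q := by
    by_contra h
    have := Nat.find_min' hex h
    omega
  rw [hq] at h1
  obtain ⟨T, hT1, hT2, hT3⟩ := h3
  refine ⟨q, by omega, T, hT1, ?_⟩
  intro T' hT' hal
  by_contra hcon
  push Not at hcon
  apply h1
  refine ⟨Fin.cons T' T, ?_, ?_, ?_⟩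
  · intro i
    refine Fin.cases ?_ (fun i => ?_) i
    · simpa using hT'
    · simpa using hT1 i
  · intro i
    refine Fin.cases ?_ (fun i => ?_) i
    · simpa using hal
    · simpa using hT2 i
  · intro i j
    refine Fin.cases ?_ (fun i => ?_) i
    · refine Fin.cases ?_ (fun j => ?_) j
      · intro h
        exact absurd rfl h
      · intro _
        simpa using hcon j
    · refine Fin.cases ?_ (fun j => ?_) j
      · intro _
        simpa using apart_symm B t (hcon i)
      · intro h
        simp only [Fin.cons_succ]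
        exact hT3 i j (fun h' => h (by rw [h']))

/-- the number of true facts at a label -/
theorem card_facts_le (Δ : ℕ) (hΔ : DegLe B Δ) (l : Lam V σ) (t : σ → Bool)
    (Fct : Finset (Fact E (σ × Bool))) (hF : ∀ φ ∈ Fct, Hold B t l φ) (x : V × (σ × Bool)) :
    (Fct.filter fun φ => sl B φ = x ∨ tl B φ = x).card ≤ 2 * Δ := by
  classical
  have hdeg : (univ.filter fun e : E => B.src e = x.1 ∨ B.tgt e = x.1).card ≤ Δ := by
    have := hΔ x.1
    rwa [cnt_eq] at this
  have h1 : (Fct.filter fun φ => sl B φ = x).card ≤ Δ := by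
    refine le_trans ?_ hdeg
    apply Finset.card_le_card_of_injOn (fun φ => φ.1)
    · intro φ hφ
      simp only [Finset.coe_filter, Set.mem_setOf_eq, sl] at hφ
      simp only [Finset.coe_filter, Finset.mem_univ, true_and, Set.mem_setOf_eq]
      left
      rw [← hφ.2]
    · intro φ hφ ψ hψ he
      simp only [Finset.coe_filter, Set.mem_setOf_eq, sl] at hφ hψ
      simp only at he
      have h2 := hF φ hφ.1
      have h3 := hF ψ hψ.1
      unfold Hold at h2 h3
      have h4 : φ.2.1 = ψ.2.1 := by
        have := hφ.2.trans hψ.2.symm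
        exact (Prod.mk.inj this).2
      have h5 : φ.2.2 = ψ.2.2 := by rw [← h2, ← h3, he, h4]
      exact Prod.ext he (Prod.ext h4 h5)
  have h2 : (Fct.filter fun φ => tl B φ = x).card ≤ Δ := by
    refine le_trans ?_ hdeg
    apply Finset.card_le_card_of_injOn (fun φ => φ.1)
    · intro φ hφ
      simp only [Finset.coe_filter, Set.mem_setOf_eq, tl] at hφ
      simp only [Finset.coe_filter, Finset.mem_univ, true_and, Set.mem_setOf_eq]
      right
      rw [← hφ.2]
    · intro φ hφ ψ hψ he
      simp only [Finset.coe_filter, Set.mem_setOf_eq, tl] at hφ hψ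
      simp only at he
      have h2 := hF φ hφ.1
      have h3 := hF ψ hψ.1
      unfold Hold at h2 h3
      have h4 : φ.2.2 = ψ.2.2 := by
        have := hφ.2.trans hψ.2.symm
        exact (Prod.mk.inj this).2
      have h5 : φ.2.1 = ψ.2.1 := by
        apply (ptr B t l ψ.1).injective
        rw [h3, ← h4, ← h2, he]
      exact Prod.ext he (Prod.ext h5 h4)
  rw [Finset.filter_or]
  refine le_trans (Finset.card_union_le _ _) ?_
  omega

end

end TreeM

open TreeM in
theorem stB : StB := by
  classical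
  intro V E σ _ _ _ _ _ _ B t j0 Δ r hΔ R hj l F hFr h hF K s hs0 hs hbad
  rintro ⟨b, μ⟩
  -- the true instance
  set ω : Ins V σ := (b, ins R l μ) with hω
  set tb : σ → Bool := Function.update t j0 b with htb
  by_cases htrue : h ω = true
  · -- a member holds
    obtain ⟨C, hC, hCh⟩ := (hF ω).mp htrue
    obtain ⟨C', h1, h2, h3⟩ := preimage B t j0 R hj l C b μ hCh
    refine ⟨C', le_trans h1 (le_trans (hFr C hC) (le_max_left _ _)), h2, ?_⟩
    intro ω2 hω2
    have h4 := h3 ω2 hω2
    have h5 : h (ω2.1, ins R l ω2.2) = true := (hF _).mpr ⟨C, hC, h4⟩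
    simp only [res]
    rw [h5]
    exact htrue.symm
  -- no member holds
  set Fct : Finset (Fact E (σ × Bool)) := univ.filter (fun φ => HoldI B t j0 ω φ) with hFct
  have hFctH : ∀ φ ∈ Fct, Hold B tb (ins R l μ) φ := by
    intro φ hφ
    rw [hFct, Finset.mem_filter] at hφ
    exact hφ.2
  have hrevH : ∀ φ, Rev B t R l φ → Hold B tb (ins R l μ) φ := by
    intro φ hφ
    exact hold_of_rev ((rev_update hj b φ).mpr hφ)
  -- a member cannot hold
  have hno : ∀ C ∈ F, ¬ ∀ φ ∈ C, Hold B tb (ins R l μ) φ := by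
    intro C hC hCh
    exact htrue ((hF ω).mpr ⟨C, hC, hCh⟩)
  have hclaim : ∀ i ≤ r, ∃ A : Finset (Fact E (σ × Bool)), A ⊆ Fct ∧ A.card ≤ s i ∧
      ∀ C ∈ F, (∀ φ ∈ C, Alive B t R l φ) → Cons (C ∪ A) →
        ((C \ A).filter (fun φ => ¬ Rev B t R l φ)).card ≤ r - i := by
    intro i
    induction i with
    | zero =>
      intro _
      refine ⟨∅, Finset.empty_subset _, by simp [hs0], ?_⟩
      intro C hC _ _
      refine le_trans (Finset.card_filter_le _ _) ?_
      simpa using hFr C hC
    | succ i ih =>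
      intro hi
      obtain ⟨A, hA1, hA2, hA3⟩ := ih (by omega)
      have hnb := hbad i (by omega) A hA2
      -- no member of the family is revealed
      have hnr : ∀ T ∈ FA F A, ∃ φ ∈ T, ¬ Rev B t R l φ := by
        intro T hT
        rw [mem_FA] at hT
        obtain ⟨C, hC, hcons, rfl⟩ := hT
        by_contra hcon
        push Not at hcon
        apply hno C hC
        intro φ hφ
        by_cases hφA : φ ∈ A
        · exact hFctH φ (hA1 hφA)
        · exact hrevH φ (hcon φ (Finset.mem_sdiff.mpr ⟨hφ, hφA⟩))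
      have hnK : ¬ ∃ T : Fin (K i) → Finset (Fact E (σ × Bool)), (∀ j, T j ∈ FA F A) ∧
          (∀ j, ∀ φ ∈ T j, Alive B t R l φ) ∧
          ∀ j j', j ≠ j' → Apart B t R l (T j) (T j') := by
        intro hex
        exact hnb ⟨hnr, hex⟩
      obtain ⟨q, hq, T, hT1, hT2⟩ := exists_maximal B t R l (K i) (FA F A) hnK
      have hTcard : ∀ j, (T j).card ≤ r := by
        intro j
        have := hT1 j
        rw [mem_FA] at this
        obtain ⟨C, hC, -, h3⟩ := this
        rw [← h3]
        exact le_trans (Finset.card_le_card Finset.sdiff_subset) (hFr C hC)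
      set H : Finset (V × (σ × Bool)) := univ.biUnion (fun j : Fin q =>
        ((T j).filter (fun φ => ¬ Rev B t R l φ)).biUnion (fun φ => {sl B φ, tl B φ})) with hH
      have hHcard : H.card ≤ q * (r * 2) := by
        rw [hH]
        refine le_trans Finset.card_biUnion_le ?_
        refine le_trans (Finset.sum_le_card_nsmul _ _ (r * 2) ?_) ?_
        · intro j _
          refine le_trans Finset.card_biUnion_le ?_
          refine le_trans (Finset.sum_le_card_nsmul _ _ 2 ?_) ?_
          · intro φ _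
            exact Finset.card_le_two
          · rw [smul_eq_mul]
            exact Nat.mul_le_mul_right _ (le_trans (Finset.card_filter_le _ _) (hTcard j))
        · rw [smul_eq_mul, Finset.card_univ, Fintype.card_fin]
      set N : Finset (Fact E (σ × Bool)) :=
        Fct.filter (fun φ => sl B φ ∈ H ∨ tl B φ ∈ H) with hN
      have hNcard : N.card ≤ q * (r * 2) * (2 * Δ) := by
        have h1 : N ⊆ H.biUnion (fun x => Fct.filter (fun φ => sl B φ = x ∨ tl B φ = x)) := by
          intro φ hφ
          rw [hN, Finset.mem_filter] at hφ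
          rw [Finset.mem_biUnion]
          rcases hφ.2 with h | h
          · exact ⟨_, h, Finset.mem_filter.mpr ⟨hφ.1, Or.inl rfl⟩⟩
          · exact ⟨_, h, Finset.mem_filter.mpr ⟨hφ.1, Or.inr rfl⟩⟩
        refine le_trans (Finset.card_le_card h1) ?_
        refine le_trans Finset.card_biUnion_le ?_
        refine le_trans (Finset.sum_le_card_nsmul _ _ (2 * Δ) ?_) ?_
        · intro x _
          exact card_facts_le B Δ hΔ (ins R l μ) tb Fct hFctH x
        · rw [smul_eq_mul]
          exact Nat.mul_le_mul_right _ hHcard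
      refine ⟨A ∪ N, ?_, ?_, ?_⟩
      · exact Finset.union_subset hA1 (Finset.filter_subset _ _)
      · refine le_trans (Finset.card_union_le _ _) ?_
        rw [hs i]
        apply Nat.add_le_add hA2
        refine le_trans hNcard ?_
        calc q * (r * 2) * (2 * Δ) = 4 * r * Δ * q := by ring
          _ ≤ 4 * r * Δ * K i := Nat.mul_le_mul_left _ hq.le
      · intro C hC hal hcons
        have hcons' : Cons (C ∪ A) := cons_mono (Finset.union_subset_union_right
          Finset.subset_union_left) hcons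
        have hT' : C \ A ∈ FA F A := (mem_FA F A _).mpr ⟨C, hC, hcons', rfl⟩
        have hal' : ∀ φ ∈ C \ A, Alive B t R l φ := fun φ hφ =>
          hal φ (Finset.mem_sdiff.mp hφ).1
        obtain ⟨j, hj'⟩ := hT2 _ hT' hal'
        -- a hidden fact with a label in `H`
        obtain ⟨φ, hφC, hφr, hφH⟩ : ∃ φ ∈ C \ A, ¬ Rev B t R l φ ∧
            (sl B φ ∈ H ∨ tl B φ ∈ H) := by
          by_contra hcon
          push Not at hcon
          apply hj'
          intro φ hφ hφr ψ hψ hψr
          have h5 := hcon φ hφ hφr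
          have h6 : sl B ψ ∈ H := by
            rw [hH, Finset.mem_biUnion]
            refine ⟨j, Finset.mem_univ _, ?_⟩
            rw [Finset.mem_biUnion]
            exact ⟨ψ, Finset.mem_filter.mpr ⟨hψ, hψr⟩, by simp⟩
          have h7 : tl B ψ ∈ H := by
            rw [hH, Finset.mem_biUnion]
            refine ⟨j, Finset.mem_univ _, ?_⟩
            rw [Finset.mem_biUnion]
            exact ⟨ψ, Finset.mem_filter.mpr ⟨hψ, hψr⟩, by simp⟩
          refine ⟨?_, ?_, ?_, ?_⟩
          · rintro h8
            exact h5.1 (h8 ▸ h6)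
          · rintro h8
            exact h5.1 (h8 ▸ h7)
          · rintro h8
            exact h5.2 (h8 ▸ h6)
          · rintro h8
            exact h5.2 (h8 ▸ h7)
        -- it belongs to the new set
        have hφN : φ ∈ N := by
          rcases hφH with h5 | h5
          · set φ0 : Fact E (σ × Bool) :=
              (φ.1, φ.2.1, ptr B tb (ins R l μ) φ.1 φ.2.1) with hφ0
            have h6 : φ0 ∈ N := by
              rw [hN, Finset.mem_filter]
              refine ⟨?_, Or.inl ?_⟩
              · rw [hFct, Finset.mem_filter]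
                exact ⟨Finset.mem_univ _, rfl⟩
              · exact h5
            have h7 := (hcons φ (Finset.mem_union_left _ (Finset.mem_sdiff.mp hφC).1) φ0
              (Finset.mem_union_right _ (Finset.mem_union_right _ h6)) rfl).mp rfl
            have h8 : φ = φ0 := Prod.ext rfl (Prod.ext rfl h7)
            rw [h8]
            exact h6
          · set φ0 : Fact E (σ × Bool) :=
              (φ.1, (ptr B tb (ins R l μ) φ.1)⁻¹ φ.2.2, φ.2.2) with hφ0
            have h6 : φ0 ∈ N := by
              rw [hN, Finset.mem_filter]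
              refine ⟨?_, Or.inr ?_⟩
              · rw [hFct, Finset.mem_filter]
                refine ⟨Finset.mem_univ _, ?_⟩
                show ptr B tb (ins R l μ) φ.1 ((ptr B tb (ins R l μ) φ.1)⁻¹ φ.2.2) = φ.2.2
                simp
              · exact h5
            have h7 := (hcons φ (Finset.mem_union_left _ (Finset.mem_sdiff.mp hφC).1) φ0
              (Finset.mem_union_right _ (Finset.mem_union_right _ h6)) rfl).mpr rfl
            have h8 : φ = φ0 := Prod.ext rfl (Prod.ext h7 rfl)
            rw [h8]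
            exact h6
        have h9 := hA3 C hC hal hcons'
        have h10 : (C \ (A ∪ N)).filter (fun φ => ¬ Rev B t R l φ)
            ⊂ (C \ A).filter (fun φ => ¬ Rev B t R l φ) := by
          rw [Finset.ssubset_iff_of_subset]
          · refine ⟨φ, Finset.mem_filter.mpr ⟨hφC, hφr⟩, ?_⟩
            intro h11
            have h12 := (Finset.mem_sdiff.mp (Finset.mem_filter.mp h11).1).2
            exact h12 (Finset.mem_union_right _ hφN)
          · apply Finset.filter_subset_filter
            exact Finset.sdiff_subset_sdiff (Finset.Subset.refl _) Finset.subset_union_left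
        have h11 := Finset.card_lt_card h10
        omega
  obtain ⟨A, hA1, hA2, hA3⟩ := hclaim r le_rfl
  have hnone : ∀ C ∈ F, (∀ φ ∈ C, Alive B t R l φ) → ¬ Cons (C ∪ A) := by
    intro C hC hal hcons
    have h1 := hA3 C hC hal hcons
    have h2 : ((C \ A).filter (fun φ => ¬ Rev B t R l φ)) = ∅ := by
      rw [← Finset.card_eq_zero]
      omega
    apply hno C hC
    intro φ hφ
    by_cases hφA : φ ∈ A
    · exact hFctH φ (hA1 hφA)
    · by_contra hcon
      have h3 : φ ∈ ((C \ A).filter (fun φ => ¬ Rev B t R l φ)) := by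
        rw [Finset.mem_filter, Finset.mem_sdiff]
        exact ⟨⟨hφ, hφA⟩, fun h => hcon (hrevH φ h)⟩
      rw [h2] at h3
      simp at h3
  obtain ⟨C', h1, h2, h3⟩ := preimage B t j0 R hj l A b μ (fun φ hφ => hFctH φ (hA1 hφ))
  refine ⟨C', le_trans h1 (le_trans hA2 (le_max_right _ _)), h2, ?_⟩
  rintro ⟨b2, μ2⟩ hω2
  have h4 := h3 (b2, μ2) hω2
  have h5 : ¬ h (b2, ins R l μ2) = true := by
    intro hh
    obtain ⟨C, hC, hCh⟩ := (hF _).mp hh
    apply hnone C hC
    · intro φ hφ
      have h6 : Alive B (Function.update t j0 b2) R (ins R l μ2) φ := alive_of_hold (hCh φ hφ)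
      rw [alive_ins] at h6
      exact alive_update B t j0 hj b2 h6
    · apply cons_of_hold B (Function.update t j0 b2) (ins R l μ2)
      intro φ hφ
      rcases Finset.mem_union.mp hφ with hφ | hφ
      · exact hCh φ hφ
      · exact h4 φ hφ
  simp only [res]
  have h6 : h (b2, ins R l μ2) = false := by simpa using h5
  have h7 : h (b, ins R l μ) = false := by simpa using htrue
  rw [h6, h7]

end Pool.Agent.Lib.MP_cff830_lc.AC0
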