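import Pool.Agent.Lib.MP_cff830_lc.AC0.Stmts

/-! A15: the local edge packing rule for ratios above 2. -/

namespace Pool.Agent.Lib.MP_cff830_lc.AC0

open Finset

open scoped Classical in
/-- the packing after `i` rounds -/
noncomputable def ep {n : ℕ} (q : ℝ) (Δ : ℕ) (G : SimpleGraph (Fin n)) : ℕ → Fin n → Fin n → ℝ
  | 0 => fun u w => if G.Adj u w then 1 / (Δ : ℝ) else 0
  | i + 1 => fun u w =>
      if q * (∑ x, ep q Δ G i u x) ≤ 1 ∧ q * (∑ x, ep q Δ G i w x) ≤ 1 then
        q * ep q Δ G i u w else ep q Δ G i u w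

section

variable {n : ℕ} {q : ℝ} {Δ : ℕ} {G : SimpleGraph (Fin n)}

theorem ep_symm (i : ℕ) : ∀ u w, ep q Δ G i u w = ep q Δ G i w u := by
  induction i with
  | zero =>
    intro u w
    simp only [ep]
    by_cases h : G.Adj u w
    · rw [if_pos h, if_pos h.symm]
    · rw [if_neg h, if_neg (fun h' => h h'.symm)]
  | succ i ih =>
    intro u w
    simp only [ep]
    rw [ih u w]
    by_cases h : q * (∑ x, ep q Δ G i u x) ≤ 1 ∧ q * (∑ x, ep q Δ G i w x) ≤ 1
    · rw [if_pos h, if_pos h.symm]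
    · rw [if_neg h, if_neg (fun h' => h h'.symm)]

theorem ep_nonneg (hq : 0 ≤ q) (i : ℕ) : ∀ u w, 0 ≤ ep q Δ G i u w := by
  induction i with
  | zero =>
    intro u w
    simp only [ep]
    split_ifs
    · positivity
    · exact le_refl _
  | succ i ih =>
    intro u w
    simp only [ep]
    split_ifs
    · exact mul_nonneg hq (ih _ _)
    · exact ih _ _

theorem ep_zero (i : ℕ) : ∀ u w, ¬ G.Adj u w → ep q Δ G i u w = 0 := by
  induction i with
  | zero =>
    intro u w h
    simp [ep, h]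
  | succ i ih =>
    intro u w h
    simp only [ep]
    rw [ih u w h]
    simp

theorem ep_mono (hq : 1 ≤ q) (i : ℕ) (u w : Fin n) : ep q Δ G i u w ≤ ep q Δ G (i + 1) u w := by
  have h0 := ep_nonneg (Δ := Δ) (G := G) (by linarith : 0 ≤ q) i u w
  simp only [ep]
  split_ifs
  · nlinarith
  · exact le_refl _

/-- the load of a vertex -/
noncomputable def ld {n : ℕ} (q : ℝ) (Δ : ℕ) (G : SimpleGraph (Fin n)) (i : ℕ) (u : Fin n) : ℝ :=
  ∑ x, ep q Δ G i u x

theorem ld_mono (hq : 1 ≤ q) (u : Fin n) : Monotone fun i => ld q Δ G i u :=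
  monotone_nat_of_le_succ fun i => Finset.sum_le_sum fun w _ => ep_mono hq i u w

theorem ld_le_one (hq : 1 ≤ q) (hΔ : ∀ v, cnt (fun w => G.Adj v w) ≤ Δ) (i : ℕ) :
    ∀ u, ld q Δ G i u ≤ 1 := by
  induction i with
  | zero =>
    intro u
    have h1 : ld q Δ G 0 u = (cnt (fun w => G.Adj u w) : ℝ) * (1 / (Δ : ℝ)) := by
      unfold ld cnt
      simp only [ep]
      rw [← Finset.sum_filter, Finset.sum_const, nsmul_eq_mul]
    rw [h1]
    have h2 : (cnt (fun w => G.Adj u w) : ℝ) ≤ Δ := by exact_mod_cast hΔ u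
    rcases Nat.eq_zero_or_pos Δ with h | h
    · subst h; simp
    · have h3 : (0 : ℝ) < Δ := by exact_mod_cast h
      rw [mul_one_div, div_le_one h3]
      exact h2
  | succ i ih =>
    intro u
    by_cases h : q * ld q Δ G i u ≤ 1
    · refine le_trans ?_ h
      unfold ld
      rw [Finset.mul_sum]
      refine Finset.sum_le_sum fun w _ => ?_
      have h0 := ep_nonneg (Δ := Δ) (G := G) (by linarith : 0 ≤ q) i u w
      simp only [ep]
      split_ifs
      · exact le_refl _
      · nlinarith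
    · have : ld q Δ G (i + 1) u = ld q Δ G i u := by
        unfold ld
        refine Finset.sum_congr rfl fun w _ => ?_
        simp only [ep]
        rw [if_neg]
        intro h'
        exact h h'.1
      rw [this]
      exact ih u

theorem ep_grow (hq : 1 ≤ q) (u w : Fin n) (huw : G.Adj u w) (T : ℕ)
    (hu : q * ld q Δ G T u ≤ 1) (hw : q * ld q Δ G T w ≤ 1) :
    ∀ i ≤ T, ep q Δ G i u w = q ^ i * (1 / (Δ : ℝ)) := by
  intro i
  induction i with
  | zero => intro _; simp [ep, huw]
  | succ i ih =>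
    intro hi
    have h1 := ih (by omega)
    have hu' : q * ld q Δ G i u ≤ 1 :=
      le_trans (mul_le_mul_of_nonneg_left (ld_mono hq u (by omega : i ≤ T)) (by linarith)) hu
    have hw' : q * ld q Δ G i w ≤ 1 :=
      le_trans (mul_le_mul_of_nonneg_left (ld_mono hq w (by omega : i ≤ T)) (by linarith)) hw
    unfold ld at hu' hw'
    simp only [ep]
    rw [if_pos ⟨hu', hw'⟩, h1]
    ring

theorem ep_cover (hq : 1 ≤ q) (hΔ : ∀ v, cnt (fun w => G.Adj v w) ≤ Δ) (T : ℕ)
    (hT : (Δ : ℝ) < q ^ T) (u w : Fin n) (huw : G.Adj u w) :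
    1 < q * ld q Δ G T u ∨ 1 < q * ld q Δ G T w := by
  by_contra hcon
  push Not at hcon
  have h1 := ep_grow hq u w huw T hcon.1 hcon.2 T le_rfl
  have h2 : ep q Δ G T u w ≤ ld q Δ G T u :=
    Finset.single_le_sum (f := fun x => ep q Δ G T u x)
      (fun x _ => ep_nonneg (by linarith : 0 ≤ q) T u x) (Finset.mem_univ w)
  have h3 := ld_le_one hq hΔ T u
  have hpos : 0 < Δ := by
    have h4 : 0 < cnt (fun w => G.Adj u w) := by
      unfold cnt
      exact Finset.card_pos.2 ⟨w, by simp [huw]⟩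
    exact lt_of_lt_of_le h4 (hΔ u)
  have hposr : (0 : ℝ) < Δ := by exact_mod_cast hpos
  have h5 : 1 < q ^ T * (1 / (Δ : ℝ)) := by
    rw [mul_one_div, one_lt_div hposr]
    exact hT
  rw [h1] at h2
  linarith

theorem ep_weight (hq : 1 ≤ q) (hΔ : ∀ v, cnt (fun w => G.Adj v w) ≤ Δ) (T : ℕ)
    (K : Finset (Fin n)) (hK : IsVC G K) : ∑ v, ld q Δ G T v ≤ 2 * K.card := by
  have h0 : 0 ≤ q := by linarith
  have h1 : ∀ v, ld q Δ G T v ≤ ∑ w, ((if v ∈ K then ep q Δ G T v w else 0) +
      (if w ∈ K then ep q Δ G T w v else 0)) := by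
    intro v
    unfold ld
    refine Finset.sum_le_sum fun w _ => ?_
    have hn := ep_nonneg (Δ := Δ) (G := G) h0 T v w
    have hn' := ep_nonneg (Δ := Δ) (G := G) h0 T w v
    by_cases hvw : G.Adj v w
    · rcases hK v w hvw with h | h
      · rw [if_pos h]
        split_ifs <;> linarith
      · rw [if_pos h, ep_symm T w v]
        split_ifs <;> linarith
    · rw [ep_zero T v w hvw]
      split_ifs <;> simp [ep_nonneg h0]
  calc ∑ v, ld q Δ G T v ≤ ∑ v, ∑ w, ((if v ∈ K then ep q Δ G T v w else 0) +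
      (if w ∈ K then ep q Δ G T w v else 0)) := Finset.sum_le_sum fun v _ => h1 v
    _ = (∑ v, ∑ w, (if v ∈ K then ep q Δ G T v w else 0)) +
        ∑ v, ∑ w, (if w ∈ K then ep q Δ G T w v else 0) := by
      simp only [Finset.sum_add_distrib]
    _ = (∑ v, ∑ w, (if v ∈ K then ep q Δ G T v w else 0)) +
        ∑ w, ∑ v, (if w ∈ K then ep q Δ G T w v else 0) := by
      rw [Finset.sum_comm (f := fun v w => if w ∈ K then ep q Δ G T w v else 0)]
    _ = 2 * ∑ v, (if v ∈ K then ld q Δ G T v else 0) := by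
      have : ∀ v, ∑ w, (if v ∈ K then ep q Δ G T v w else 0) =
          if v ∈ K then ld q Δ G T v else 0 := by
        intro v
        split_ifs
        · rfl
        · simp
      simp only [this]
      ring
    _ = 2 * ∑ v ∈ K, ld q Δ G T v := by
      rw [← Finset.sum_filter]
      congr 2
      ext v
      simp
    _ ≤ 2 * ∑ v ∈ K, (1 : ℝ) := by
      gcongr with v _
      exact ld_le_one hq hΔ T v
    _ = 2 * K.card := by simp

theorem ball_sub {G : SimpleGraph (Fin n)} {v w : Fin n} (h : G.Adj v w) (i : ℕ) :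
    ball G w i ⊆ ball G v (i + 1) := by
  induction i with
  | zero =>
    intro x hx
    have hx' : x = w := hx
    subst hx'
    exact Or.inr ⟨v, rfl, h⟩
  | succ i ih =>
    intro x hx
    rcases hx with hx | ⟨y, hy, hyx⟩
    · exact Or.inl (ih hx)
    · exact Or.inr ⟨y, ih hy, hyx⟩

theorem mem_ball_self (G : SimpleGraph (Fin n)) (v : Fin n) (i : ℕ) : v ∈ ball G v i := by
  induction i with
  | zero => exact rfl
  | succ i ih => exact Or.inl ih

theorem ep_local {H : SimpleGraph (Fin n)} (i : ℕ) : ∀ v,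
    (∀ x ∈ ball G v i, ∀ y, G.Adj x y ↔ H.Adj x y) → ∀ w, ep q Δ G i v w = ep q Δ H i v w := by
  induction i with
  | zero =>
    intro v hv w
    have := hv v rfl w
    simp only [ep]
    by_cases h : G.Adj v w
    · rw [if_pos h, if_pos (this.1 h)]
    · rw [if_neg h, if_neg (fun h' => h (this.2 h'))]
  | succ i ih =>
    intro v hv w
    have hvi : ∀ w, ep q Δ G i v w = ep q Δ H i v w :=
      ih v (fun x hx y => hv x (Or.inl hx) y)
    by_cases h : G.Adj v w
    · have hwi : ∀ z, ep q Δ G i w z = ep q Δ H i w z :=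
        ih w (fun x hx y => hv x (ball_sub h i hx) y)
      simp only [ep]
      simp only [hvi, hwi]
    · have h' : ¬ H.Adj v w := fun h' => h ((hv v (mem_ball_self G v _) w).2 h')
      rw [ep_zero _ _ _ h, ep_zero _ _ _ h']

end

theorem vc_spec {n : ℕ} (G : SimpleGraph (Fin n)) :
    ∃ C : Finset (Fin n), IsVC G C ∧ C.card = vc G := by
  have : vc G ∈ {m | ∃ C : Finset (Fin n), IsVC G C ∧ C.card = m} := by
    apply Nat.sInf_mem
    exact ⟨_, Finset.univ, fun u v _ => Or.inl (Finset.mem_univ u), rfl⟩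
  exact this

/-- A15 -/
theorem stU1 : StU1 := by
  intro c hc Δ
  have hq : 1 < c / 2 := by linarith
  obtain ⟨T, hT⟩ := pow_unbounded_of_one_lt (Δ : ℝ) hq
  refine ⟨T, fun n => ⟨fun G v => 1 < c / 2 * ld (c / 2) Δ G T v, ?_, ?_⟩⟩
  · intro G H v h
    have : ld (c / 2) Δ G T v = ld (c / 2) Δ H T v := by
      unfold ld
      exact Finset.sum_congr rfl fun w _ => ep_local T v h w
    simp only [this]
  · intro G hG
    classical
    refine ⟨Finset.univ.filter fun v => 1 < c / 2 * ld (c / 2) Δ G T v, ?_, ?_, ?_⟩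
    · intro u w huw
      simpa using ep_cover hq.le hG T hT u w huw
    · intro v; simp
    · obtain ⟨K, hK, hKc⟩ := vc_spec G
      have h1 := ep_weight hq.le hG T K hK
      have h2 : ∀ v, 0 ≤ ld (c / 2) Δ G T v := fun v =>
        Finset.sum_nonneg fun w _ => ep_nonneg (by linarith) T v w
      rw [← hKc]
      calc ((Finset.univ.filter fun v => 1 < c / 2 * ld (c / 2) Δ G T v).card : ℝ)
          = ∑ v ∈ Finset.univ.filter (fun v => 1 < c / 2 * ld (c / 2) Δ G T v), (1 : ℝ) := by simp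
        _ ≤ ∑ v ∈ Finset.univ.filter (fun v => 1 < c / 2 * ld (c / 2) Δ G T v),
            c / 2 * ld (c / 2) Δ G T v := by
          refine Finset.sum_le_sum fun v hv => ?_
          exact (Finset.mem_filter.1 hv).2.le
        _ ≤ ∑ v, c / 2 * ld (c / 2) Δ G T v := by
          refine Finset.sum_le_sum_of_subset_of_nonneg (Finset.filter_subset _ _) ?_
          intro v _ _
          exact mul_nonneg (by linarith) (h2 v)
        _ = c / 2 * ∑ v, ld (c / 2) Δ G T v := by rw [Finset.mul_sum]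
        _ ≤ c / 2 * (2 * K.card) := by gcongr
        _ = c * K.card := by ring

end Pool.Agent.Lib.MP_cff830_lc.AC0
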