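import Pool.Agent.Lib.MP_cff830_lc.AC0.Stmts

/-! A16: local rules have depth 2 circuits of polynomial size on graphs of bounded degree. -/

namespace Pool.Agent.Lib.MP_cff830_lc.AC0

open Finset

/-- the graph with the listed edges -/
def gh {n D : ℕ} (h : Fin D → Fin n × Fin n) : SimpleGraph (Fin n) :=
  SimpleGraph.fromRel fun x y => ∃ i, h i = (x, y)

/-- `G` and the graph `gh h` have the same edges at the ball of `gh h` -/
def AndG {n D : ℕ} (T : ℕ) (v : Fin n) (h : Fin D → Fin n × Fin n) (G : SimpleGraph (Fin n)) :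
    Prop := ∀ x ∈ ball (gh h) v T, ∀ y, (gh h).Adj x y ↔ G.Adj x y

theorem ball_mono' {n : ℕ} (G : SimpleGraph (Fin n)) (v : Fin n) : Monotone (ball G v) :=
  monotone_nat_of_le_succ fun _ _ hx => Or.inl hx

theorem ball_congr' {n T : ℕ} {G H : SimpleGraph (Fin n)} {v : Fin n}
    (hGH : ∀ x ∈ ball G v T, ∀ y, G.Adj x y ↔ H.Adj x y) :
    ∀ i ≤ T, ball G v i = ball H v i := by
  intro i
  induction i with
  | zero => intro _; rfl
  | succ i ih =>
    intro hi
    have h1 := ih (by omega)
    ext x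
    constructor
    · rintro (hx | ⟨y, hy, hyx⟩)
      · exact Or.inl (h1 ▸ hx)
      · exact Or.inr ⟨y, h1 ▸ hy, (hGH y (ball_mono' G v (by omega : i ≤ T) hy) x).1 hyx⟩
    · rintro (hx | ⟨y, hy, hyx⟩)
      · exact Or.inl (h1.symm ▸ hx)
      · have hy' : y ∈ ball G v i := h1.symm ▸ hy
        exact Or.inr ⟨y, hy', (hGH y (ball_mono' G v (by omega : i ≤ T) hy') x).2 hyx⟩

theorem ball_card' {n Δ : ℕ} (G : SimpleGraph (Fin n)) (hG : ∀ v, cnt (fun w => G.Adj v w) ≤ Δ)
    (v : Fin n) (i : ℕ) :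
    ∃ S : Finset (Fin n), (∀ x ∈ ball G v i, x ∈ S) ∧ S.card ≤ (Δ + 1) ^ i := by
  classical
  induction i with
  | zero => exact ⟨{v}, fun x hx => by
      have hx' : x = v := hx
      simp [hx'], by simp⟩
  | succ i ih =>
    obtain ⟨S, hS, hc⟩ := ih
    refine ⟨S ∪ S.biUnion (fun y => Finset.univ.filter (fun w => G.Adj y w)), ?_, ?_⟩
    · rintro x (hx | ⟨y, hy, hyx⟩)
      · exact Finset.mem_union_left _ (hS x hx)
      · exact Finset.mem_union_right _ (Finset.mem_biUnion.2 ⟨y, hS y hy, by simp [hyx]⟩)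
    · refine le_trans (Finset.card_union_le _ _) ?_
      have h1 : (S.biUnion (fun y => Finset.univ.filter (fun w => G.Adj y w))).card ≤
          S.card * Δ := by
        apply Finset.card_biUnion_le_card_mul
        intro y _
        have := hG y
        unfold cnt at this
        convert this
      calc S.card + _ ≤ S.card + S.card * Δ := by gcongr
        _ = S.card * (Δ + 1) := by ring
        _ ≤ (Δ + 1) ^ i * (Δ + 1) := Nat.mul_le_mul_right _ hc
        _ = _ := by ring

theorem exists_list {n Δ T : ℕ} (G : SimpleGraph (Fin n))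
    (hG : ∀ v, cnt (fun w => G.Adj v w) ≤ Δ) (v : Fin n) :
    ∃ h : Fin ((Δ + 1) ^ T * Δ) → Fin n × Fin n,
      ∀ x ∈ ball G v T, ∀ y, G.Adj x y ↔ (gh h).Adj x y := by
  classical
  obtain ⟨S, hS, hc⟩ := ball_card' G hG v T
  set E : Finset (Fin n × Fin n) :=
    Finset.univ.filter (fun p => p.1 ∈ ball G v T ∧ G.Adj p.1 p.2) with hE
  have hEc : E.card ≤ (Δ + 1) ^ T * Δ := by
    have h1 : E ⊆ S.biUnion
        (fun x => (Finset.univ.filter (fun w => G.Adj x w)).image (fun w => (x, w))) := by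
      rintro ⟨x, y⟩ hp
      have hp' : x ∈ ball G v T ∧ G.Adj x y := by simpa [hE] using hp
      exact Finset.mem_biUnion.2 ⟨x, hS x hp'.1, by simp [hp'.2]⟩
    refine le_trans (Finset.card_le_card h1) ?_
    refine le_trans (Finset.card_biUnion_le_card_mul _ _ Δ ?_) (Nat.mul_le_mul_right _ hc)
    intro x _
    refine le_trans Finset.card_image_le ?_
    have := hG x
    unfold cnt at this
    convert this
  let e := E.equivFin
  refine ⟨fun i => if hi : (i : ℕ) < E.card then (e.symm ⟨i, hi⟩).1 else (v, v), ?_⟩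
  have key : ∀ x y : Fin n, x ≠ y →
      ((∃ i : Fin ((Δ + 1) ^ T * Δ), (if hi : (i : ℕ) < E.card then (e.symm ⟨i, hi⟩).1
        else (v, v)) = (x, y)) ↔ (x, y) ∈ E) := by
    intro x y hxy
    constructor
    · rintro ⟨i, hi⟩
      split_ifs at hi with h
      · rw [← hi]
        exact (e.symm ⟨i, h⟩).2
      · exfalso
        have h1 : v = x := congrArg Prod.fst hi
        have h2 : v = y := congrArg Prod.snd hi
        exact hxy (h1.symm.trans h2)
    · intro hp
      have hlt : ((e ⟨(x, y), hp⟩ : Fin E.card) : ℕ) < E.card := (e ⟨(x, y), hp⟩).2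
      refine ⟨⟨e ⟨(x, y), hp⟩, lt_of_lt_of_le hlt hEc⟩, ?_⟩
      rw [dif_pos hlt]
      simp
  intro x hx y
  unfold gh
  rw [SimpleGraph.fromRel_adj]
  constructor
  · intro hxy
    refine ⟨hxy.ne, Or.inl ((key x y hxy.ne).2 ?_)⟩
    simp [hE, hx, hxy]
  · rintro ⟨hne, h | h⟩
    · have := (key x y hne).1 h
      have h2 : x ∈ ball G v T ∧ G.Adj x y := by simpa [hE] using this
      exact h2.2
    · have := (key y x hne.symm).1 h
      have h2 : y ∈ ball G v T ∧ G.Adj y x := by simpa [hE] using this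
      exact h2.2.symm

theorem or_iff {n T Δ : ℕ} (P : SimpleGraph (Fin n) → Fin n → Prop) (hP : Local T P)
    (G : SimpleGraph (Fin n)) (hG : ∀ v, cnt (fun w => G.Adj v w) ≤ Δ) (v : Fin n) :
    (∃ h : Fin ((Δ + 1) ^ T * Δ) → Fin n × Fin n, P (gh h) v ∧ AndG T v h G) ↔ P G v := by
  constructor
  · rintro ⟨h, h1, h2⟩
    exact (hP (gh h) G v h2).1 h1
  · intro hv
    obtain ⟨h, hh⟩ := exists_list (T := T) G hG v
    refine ⟨h, (hP G (gh h) v hh).1 hv, ?_⟩
    intro x hx y
    have hb := ball_congr' hh T le_rfl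
    exact (hh x (hb ▸ hx) y).symm

/-- A16 -/
theorem stU2 : StU2 := by
  classical
  intro T Δ
  set D := (Δ + 1) ^ T * Δ with hD
  refine ⟨2 * D + 2, fun n hn P hP => ?_⟩
  let I := (Fin n × (Fin D → Fin n × Fin n)) ⊕ Fin n
  have hcard : Fintype.card I = n * (n * n) ^ D + n := by
    simp [I, Fintype.card_sum, Fintype.card_prod]
  let e : I ≃ Fin (Fintype.card I) := Fintype.equivFin I
  let Gt : I → SimpleGraph (Fin n) → Prop := fun i G =>
    Sum.elim (fun p : Fin n × (Fin D → Fin n × Fin n) => AndG T p.1 p.2 G)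
      (fun v => ∃ h : Fin D → Fin n × Fin n, P (gh h) v ∧ AndG T v h G) i
  refine ⟨Fintype.card I, ?_, fun i => Gt (e.symm i), ?_, fun v => e (Sum.inr v), ?_⟩
  · rw [hcard]
    have h1 : n * (n * n) ^ D = n ^ (2 * D + 1) := by
      rw [← pow_two, ← pow_mul]; ring
    have h2 : n ≤ n ^ (2 * D + 1) := Nat.le_self_pow (by omega) n
    calc n * (n * n) ^ D + n ≤ n ^ (2 * D + 1) + n ^ (2 * D + 1) := by rw [h1]; gcongr
      _ = 2 * n ^ (2 * D + 1) := by ring
      _ ≤ n * n ^ (2 * D + 1) := Nat.mul_le_mul_right _ hn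
      _ = n ^ (2 * D + 2) := by ring
  · refine ⟨fun i => Sum.elim (fun _ => 0) (fun _ => 1) (e.symm i), ?_, ?_⟩
    · intro i
      dsimp only
      generalize e.symm i = z
      rcases z with a | b <;> simp
    · intro i
      obtain ⟨a, rfl⟩ := e.surjective i
      rcases a with ⟨v, h⟩ | v
      · refine ⟨Finset.univ.filter (fun p => p.1 ∈ ball (gh h) v T ∧ (gh h).Adj p.1 p.2),
          Finset.univ.filter (fun p => p.1 ∈ ball (gh h) v T ∧ ¬ (gh h).Adj p.1 p.2), ∅, ∅,
          by simp, by simp, Or.inr ?_⟩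
        intro G
        simp only [Equiv.symm_apply_apply, Gt, Sum.elim_inl]
        constructor
        · intro hA
          refine ⟨?_, ?_, by simp, by simp⟩
          · rintro ⟨x, y⟩ hp
            have hp' : x ∈ ball (gh h) v T ∧ (gh h).Adj x y := by simpa using hp
            exact (hA x hp'.1 y).1 hp'.2
          · rintro ⟨x, y⟩ hp
            have hp' : x ∈ ball (gh h) v T ∧ ¬ (gh h).Adj x y := by simpa using hp
            exact fun hxy => hp'.2 ((hA x hp'.1 y).2 hxy)
        · rintro ⟨h1, h2, _, _⟩ x hx y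
          constructor
          · intro hxy
            exact h1 (x, y) (by simp [hx, hxy])
          · intro hxy
            by_contra hn'
            exact h2 (x, y) (by simp [hx, hn']) hxy
      · refine ⟨∅, ∅, Finset.univ.filter (fun j => ∃ h : Fin D → Fin n × Fin n,
          j = e (Sum.inl (v, h)) ∧ P (gh h) v), ∅, ?_, by simp, Or.inl ?_⟩
        · intro j hj
          obtain ⟨h, rfl, _⟩ := (Finset.mem_filter.1 hj).2
          simp
        · intro G
          simp only [Equiv.symm_apply_apply, Gt, Sum.elim_inr]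
          constructor
          · rintro ⟨h, h1, h2⟩
            refine Or.inr (Or.inr (Or.inl ⟨e (Sum.inl (v, h)), ?_, ?_⟩))
            · simp only [Finset.mem_filter, Finset.mem_univ, true_and]
              exact ⟨h, rfl, h1⟩
            · simpa using h2
          · rintro (⟨p, hp, _⟩ | ⟨p, hp, _⟩ | ⟨j, hj, hjG⟩ | ⟨p, hp, _⟩)
            · simp at hp
            · simp at hp
            · obtain ⟨h, rfl, h1⟩ := (Finset.mem_filter.1 hj).2
              exact ⟨h, h1, by simpa using hjG⟩
            · simp at hp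
  · intro G hG v
    simp only [Equiv.symm_apply_apply, Gt, Sum.elim_inr]
    exact or_iff P hP G hG v

end Pool.Agent.Lib.MP_cff830_lc.AC0
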