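import Pool.Agent.Lib.MP_cff830_lc.AC0.Stmts

/-!
# A11. Certifiable functions do not see the type
-/

namespace Pool.Agent.Lib.MP_cff830_lc.AC0

open Finset

theorem z_cnt_congr {α : Type} [Fintype α] {P Q : α → Prop} (h : ∀ a, P a ↔ Q a) :
    cnt P = cnt Q := by
  have : P = Q := funext fun a => propext (h a)
  rw [this]

theorem z_cnt_false {α : Type} [Fintype α] {P : α → Prop} (h : ∀ a, ¬ P a) : cnt P = 0 := by
  classical
  unfold cnt
  rw [Finset.card_eq_zero, Finset.filter_eq_empty_iff]
  intro a _
  exact h a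

/-- count by the value of a function -/
theorem z_cnt_fiber {α β : Type} [Fintype α] [Fintype β] (P : α → Prop) (O : α → β) :
    cnt P = ∑ b : β, cnt (fun a => P a ∧ O a = b) := by
  classical
  unfold cnt
  rw [Finset.card_eq_sum_card_fiberwise (f := O) (t := (univ : Finset β)) (by intro x _; simp)]
  apply Finset.sum_congr rfl
  intro b _
  congr 1
  ext a
  simp

/-- a set of facts that hold in an instance is consistent -/
theorem z_cons {V E σ : Type} (B : Base V E) (t : σ → Bool) (l : Lam V σ)
    {T : Finset (Fact E (σ × Bool))} (h : ∀ φ ∈ T, Hold B t l φ) : Cons T := by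
  intro φ hφ ψ hψ he
  have h1 := h φ hφ
  have h2 := h ψ hψ
  unfold Hold at h1 h2
  rw [← h1, ← h2, he]
  constructor
  · intro h3; rw [h3]
  · intro h3; exact (ptr B t l ψ.1).injective h3

theorem z_cons_mono {E S : Type} {T T' : Finset (Fact E S)} (h : T ⊆ T') (hc : Cons T') :
    Cons T := fun φ hφ ψ hψ => hc φ (h hφ) ψ (h hψ)

section
variable {V E σ : Type} [Fintype V] [DecidableEq V] [Fintype E] [DecidableEq E] [Fintype σ]
  [DecidableEq σ]

/-- the permutation over the base edge `e` in the instance `ω` -/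
def zP (B : Base V E) (t : σ → Bool) (j0 : σ) (ω : Ins V σ) (e : E) :
    Equiv.Perm (σ × Bool) := ptr B (Function.update t j0 ω.1) ω.2 e

/-- the facts of `ω` at the labels of `T` -/
def zO (B : Base V E) (t : σ → Bool) (j0 : σ) (T A : Finset (Fact E (σ × Bool)))
    (ω : Ins V σ) : Finset (Fact E (σ × Bool)) :=
  A ∪ (T.image (fun φ => (φ.1, φ.2.1, zP B t j0 ω φ.1 φ.2.1)) ∪
    T.image (fun φ => (φ.1, (zP B t j0 ω φ.1)⁻¹ φ.2.2, φ.2.2)))

theorem z_card (B : Base V E) (t : σ → Bool) (j0 : σ) (T A : Finset (Fact E (σ × Bool)))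
    (ω : Ins V σ) {r : ℕ} (hT : T.card ≤ r) : (zO B t j0 T A ω).card ≤ A.card + 2 * r := by
  unfold zO
  refine le_trans (Finset.card_union_le _ _) ?_
  have h1 := Finset.card_union_le (T.image (fun φ => (φ.1, φ.2.1, zP B t j0 ω φ.1 φ.2.1)))
    (T.image (fun φ => (φ.1, (zP B t j0 ω φ.1)⁻¹ φ.2.2, φ.2.2)))
  have h2 := Finset.card_image_le (s := T)
    (f := fun φ : Fact E (σ × Bool) => (φ.1, φ.2.1, zP B t j0 ω φ.1 φ.2.1))
  have h3 := Finset.card_image_le (s := T)
    (f := fun φ : Fact E (σ × Bool) => (φ.1, (zP B t j0 ω φ.1)⁻¹ φ.2.2, φ.2.2))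
  omega

theorem z_hold (B : Base V E) (t : σ → Bool) (j0 : σ) (T A : Finset (Fact E (σ × Bool)))
    (ω : Ins V σ) (hA : ∀ φ ∈ A, HoldI B t j0 ω φ) :
    ∀ φ ∈ zO B t j0 T A ω, HoldI B t j0 ω φ := by
  intro φ hφ
  unfold zO at hφ
  rw [Finset.mem_union, Finset.mem_union, Finset.mem_image, Finset.mem_image] at hφ
  rcases hφ with h | ⟨ψ, _, rfl⟩ | ⟨ψ, _, rfl⟩
  · exact hA φ h
  · rfl
  · unfold HoldI Hold
    exact (zP B t j0 ω ψ.1).apply_symm_apply ψ.2.2

/-- the fibres of `zO` -/
theorem z_fiber (B : Base V E) (t : σ → Bool) (j0 : σ) (T A : Finset (Fact E (σ × Bool)))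
    (ω ω' : Ins V σ) :
    (∀ φ ∈ zO B t j0 T A ω, HoldI B t j0 ω' φ) ↔
      (∀ φ ∈ A, HoldI B t j0 ω' φ) ∧ zO B t j0 T A ω' = zO B t j0 T A ω := by
  constructor
  · intro h
    refine ⟨fun φ hφ => h φ (Finset.mem_union_left _ hφ), ?_⟩
    have h1 : ∀ φ ∈ T, zP B t j0 ω' φ.1 φ.2.1 = zP B t j0 ω φ.1 φ.2.1 := by
      intro φ hφ
      have := h (φ.1, φ.2.1, zP B t j0 ω φ.1 φ.2.1) (by
        unfold zO
        rw [Finset.mem_union, Finset.mem_union]
        right; left
        exact Finset.mem_image_of_mem _ hφ)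
      exact this
    have h2 : ∀ φ ∈ T, (zP B t j0 ω' φ.1)⁻¹ φ.2.2 = (zP B t j0 ω φ.1)⁻¹ φ.2.2 := by
      intro φ hφ
      have := h (φ.1, (zP B t j0 ω φ.1)⁻¹ φ.2.2, φ.2.2) (by
        unfold zO
        rw [Finset.mem_union, Finset.mem_union]
        right; right
        exact Finset.mem_image_of_mem _ hφ)
      have h3 : zP B t j0 ω' φ.1 ((zP B t j0 ω φ.1)⁻¹ φ.2.2) = φ.2.2 := this
      rw [Equiv.Perm.inv_eq_iff_eq, h3]
    unfold zO
    congr 1
    congr 1
    · apply Finset.image_congr
      intro φ hφ
      simp only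
      rw [h1 φ hφ]
    · apply Finset.image_congr
      intro φ hφ
      simp only
      rw [h2 φ hφ]
  · rintro ⟨h1, h2⟩
    rw [← h2]
    exact z_hold B t j0 T A ω' h1

/-- The induction. -/
theorem z_main (h9 : StExt) (h10 : StGauge) (B : Base V E) (r g : ℕ) (hg : Girthy B g)
    (hrg : 2 * r * r + 2 * r ≤ g) (hσ : 2 * g + 1 ≤ Fintype.card σ) (t : σ → Bool) (j0 : σ)
    (f : Ins V σ → Bool) (hf : Cert B t j0 r f) (u : ℕ) :
    ∀ A : Finset (Fact E (σ × Bool)), Cons A → A.card + 2 * r * u ≤ 2 * r * r →
    (∀ C : Finset (Fact E (σ × Bool)), C.card ≤ r →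
      (∀ ω, (∀ φ ∈ C, HoldI B t j0 ω φ) → f ω = false) → Cons (C ∪ A) → (C \ A).card ≤ u) →
    cnt (fun l : Lam V σ => (∀ φ ∈ A, HoldI B t j0 (false, l) φ) ∧ f (false, l) = true) =
      cnt (fun l : Lam V σ => (∀ φ ∈ A, HoldI B t j0 (true, l) φ) ∧ f (true, l) = true) := by
  classical
  induction u with
  | zero =>
    intro A hA hc hC
    by_cases hex : ∃ ω0, (∀ φ ∈ A, HoldI B t j0 ω0 φ) ∧ f ω0 = true
    · obtain ⟨ω0, hω0, hf0⟩ := hex
      have key : ∀ ω, (∀ φ ∈ A, HoldI B t j0 ω φ) → f ω = true := by
        intro ω hω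
        by_contra hne
        have hfω : f ω = false := by simpa using hne
        obtain ⟨C, hCr, hCω, hCf⟩ := hf ω
        have h1 : Cons (C ∪ A) := z_cons B (Function.update t j0 ω.1) ω.2 (by
          intro φ hφ
          rcases Finset.mem_union.1 hφ with h | h
          · exact hCω φ h
          · exact hω φ h)
        have h2 := hC C hCr (fun ω' hω' => by rw [hCf ω' hω', hfω]) h1
        have h3 : C ⊆ A := by
          rw [← Finset.sdiff_eq_empty_iff_subset, ← Finset.card_eq_zero]
          omega
        have h4 := hCf ω0 (fun φ hφ => hω0 φ (h3 hφ))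
        rw [hf0, hfω] at h4
        exact Bool.noConfusion h4
      have e : ∀ b : Bool, cnt (fun l : Lam V σ => (∀ φ ∈ A, HoldI B t j0 (b, l) φ) ∧
          f (b, l) = true) = cnt (fun l : Lam V σ => ∀ φ ∈ A, HoldI B t j0 (b, l) φ) := by
        intro b
        apply z_cnt_congr
        intro l
        constructor
        · exact fun h => h.1
        · exact fun h => ⟨h, key _ h⟩
      rw [e, e]
      exact h10 V E σ B g hg t j0 A (by omega)
    · push Not at hex
      rw [z_cnt_false, z_cnt_false]
      · intro l hl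
        exact hex _ hl.1 hl.2
      · intro l hl
        exact hex _ hl.1 hl.2
  | succ u ih =>
    intro A hA hc hC
    by_cases hex : ∃ ω0, (∀ φ ∈ A, HoldI B t j0 ω0 φ) ∧ f ω0 = true
    · obtain ⟨ω0, hω0, hf0⟩ := hex
      obtain ⟨T, hTr, hTω, hTf⟩ := hf ω0
      have hTA : Cons (T ∪ A) := z_cons B (Function.update t j0 ω0.1) ω0.2 (by
          intro φ hφ
          rcases Finset.mem_union.1 hφ with h | h
          · exact hTω φ h
          · exact hω0 φ h)
      rw [z_cnt_fiber _ (fun l : Lam V σ => zO B t j0 T A (false, l)),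
        z_cnt_fiber (fun l : Lam V σ => (∀ φ ∈ A, HoldI B t j0 (true, l) φ) ∧
          f (true, l) = true) (fun l : Lam V σ => zO B t j0 T A (true, l))]
      apply Finset.sum_congr rfl
      intro A' _
      by_cases hp : ∃ ω, (∀ φ ∈ A, HoldI B t j0 ω φ) ∧ zO B t j0 T A ω = A'
      · obtain ⟨ω, hω, rfl⟩ := hp
        have e : ∀ b : Bool, cnt (fun l : Lam V σ => ((∀ φ ∈ A, HoldI B t j0 (b, l) φ) ∧
            f (b, l) = true) ∧ zO B t j0 T A (b, l) = zO B t j0 T A ω) =
            cnt (fun l : Lam V σ => (∀ φ ∈ zO B t j0 T A ω, HoldI B t j0 (b, l) φ) ∧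
              f (b, l) = true) := by
          intro b
          apply z_cnt_congr
          intro l
          rw [z_fiber B t j0 T A ω (b, l)]
          tauto
        rw [e, e]
        apply ih
        · exact z_cons B (Function.update t j0 ω.1) ω.2 (z_hold B t j0 T A ω hω)
        · have := z_card B t j0 T A ω hTr
          have h2 : 2 * r * (u + 1) = 2 * r * u + 2 * r := by ring
          omega
        · intro C hCr hCf hCc
          have hsub : A ⊆ zO B t j0 T A ω := Finset.subset_union_left
          have hCA : Cons (C ∪ A) := z_cons_mono (Finset.union_subset_union_right hsub) hCc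
          have h1 := hC C hCr hCf hCA
          -- the conflict
          have h2 : ¬ Cons (C ∪ (T ∪ A)) := by
            intro hcon
            have hcard : (C ∪ (T ∪ A)).card ≤ g := by
              have a1 := Finset.card_union_le C (T ∪ A)
              have a2 := Finset.card_union_le T A
              omega
            obtain ⟨l, hl⟩ := h9 V E σ B g hg hσ (C ∪ (T ∪ A)) hcon hcard
              (Function.update t j0 true)
            have b1 := hCf (true, l) (fun φ hφ => hl φ (by simp [hφ]))
            have b2 := hTf (true, l) (fun φ hφ => hl φ (by simp [hφ]))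
            rw [b1, hf0] at b2
            exact Bool.noConfusion b2
          have h3 : ∃ φ ∈ C, ∃ ψ ∈ T, φ.1 = ψ.1 ∧ ¬ (φ.2.1 = ψ.2.1 ↔ φ.2.2 = ψ.2.2) := by
            by_contra hno
            push Not at hno
            apply h2
            intro φ hφ ψ hψ he
            rw [Finset.mem_union] at hφ hψ
            rcases hφ with hφ | hφ
            · rcases hψ with hψ | hψ
              · exact hCA φ (by simp [hφ]) ψ (by simp [hψ]) he
              · rw [Finset.mem_union] at hψ
                rcases hψ with hψ | hψ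
                · exact hno φ hφ ψ hψ he
                · exact hCA φ (by simp [hφ]) ψ (by simp [hψ]) he
            · rcases hψ with hψ | hψ
              · rw [Finset.mem_union] at hφ
                rcases hφ with hφ | hφ
                · have := hno ψ hψ φ hφ he.symm
                  constructor
                  · intro h; exact (this.1 h.symm).symm
                  · intro h; exact (this.2 h.symm).symm
                · exact hCA φ (by simp [hφ]) ψ (by simp [hψ]) he
              · exact hTA φ hφ ψ hψ he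
          obtain ⟨φ, hφC, ψ, hψT, he, hconf⟩ := h3
          have hφA : φ ∉ A := by
            intro hφA
            exact hconf (hTA φ (by simp [hφA]) ψ (by simp [hψT]) he)
          have hφA' : φ ∈ zO B t j0 T A ω := by
            have m1 : (ψ.1, ψ.2.1, zP B t j0 ω ψ.1 ψ.2.1) ∈ zO B t j0 T A ω := by
              unfold zO
              rw [Finset.mem_union, Finset.mem_union]
              right; left
              exact Finset.mem_image_of_mem
                (fun φ : Fact E (σ × Bool) => (φ.1, φ.2.1, zP B t j0 ω φ.1 φ.2.1)) hψT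
            have m2 : (ψ.1, (zP B t j0 ω ψ.1)⁻¹ ψ.2.2, ψ.2.2) ∈ zO B t j0 T A ω := by
              unfold zO
              rw [Finset.mem_union, Finset.mem_union]
              right; right
              exact Finset.mem_image_of_mem
                (fun φ : Fact E (σ × Bool) => (φ.1, (zP B t j0 ω φ.1)⁻¹ φ.2.2, φ.2.2)) hψT
            by_cases hq : φ.2.1 = ψ.2.1
            · have c1 := (hCc φ (Finset.mem_union_left _ hφC) _ (Finset.mem_union_right _ m1)
                he).1 hq
              have : φ = (ψ.1, ψ.2.1, zP B t j0 ω ψ.1 ψ.2.1) := Prod.ext he (Prod.ext hq c1)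
              rw [this]
              exact m1
            · have hq2 : φ.2.2 = ψ.2.2 := by
                by_contra hq2
                exact hconf ⟨fun h => absurd h hq, fun h => absurd h hq2⟩
              have c1 := (hCc φ (Finset.mem_union_left _ hφC) _ (Finset.mem_union_right _ m2)
                he).2 hq2
              have : φ = (ψ.1, (zP B t j0 ω ψ.1)⁻¹ ψ.2.2, ψ.2.2) :=
                Prod.ext he (Prod.ext c1 hq2)
              rw [this]
              exact m2
          have h4 : C \ zO B t j0 T A ω ⊆ (C \ A).erase φ := by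
            intro χ hχ
            rw [Finset.mem_sdiff] at hχ
            rw [Finset.mem_erase, Finset.mem_sdiff]
            refine ⟨?_, hχ.1, fun h => hχ.2 (hsub h)⟩
            rintro rfl
            exact hχ.2 hφA'
          have h5 := Finset.card_le_card h4
          rw [Finset.card_erase_of_mem (Finset.mem_sdiff.2 ⟨hφC, hφA⟩)] at h5
          omega
      · rw [z_cnt_false, z_cnt_false]
        · rintro l ⟨⟨h1, _⟩, h2⟩
          exact hp ⟨_, h1, h2⟩
        · rintro l ⟨⟨h1, _⟩, h2⟩
          exact hp ⟨_, h1, h2⟩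
    · push Not at hex
      rw [z_cnt_false, z_cnt_false]
      · intro l hl
        exact hex _ hl.1 hl.2
      · intro l hl
        exact hex _ hl.1 hl.2

end

/-- A11. Certifiable functions do not see the type. -/
theorem stZero (h9 : StExt) (h10 : StGauge) : StZero := by
  intro V E σ _ _ _ _ _ _ B r g hg hrg hσ t j0 f hf
  have h := z_main h9 h10 B r g hg hrg hσ t j0 f hf r ∅ (by intro φ hφ; simp at hφ)
    (by simp) (by
      intro C hC _ _
      simpa using hC)
  simpa using h

end Pool.Agent.Lib.MP_cff830_lc.AC0
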